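import Pool.Agent.H33.OS.Defs

/-!
# The LMI sets `Dom A` and the pairing (MP_f82f05_an)
-/

open scoped ENNReal
open scoped Matrix.Norms.L2Operator
open scoped Kronecker ComplexOrder

namespace Pool.Agent.H33.OS

open Matrix

/-- The pairing of a tuple of matrices with a tuple of matrices: `∑ k, Z k ⊗ z k`. -/
noncomputable def pair {κ ι ι' : Type} [Fintype κ] (Z : κ → Matrix ι ι ℂ) (z : κ → Matrix ι' ι' ℂ) :
    Matrix (ι × ι') (ι × ι') ℂ :=
  ∑ k, Z k ⊗ₖ z k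

open Classical in
/-- The LMI set of the relation `A ⊆ I × J` (`inl j` = row type vector `x_j`, `inr i` = column type
vector `y_i`). -/
def Dom {I J : Type} [Fintype I] [Fintype J] (A : I → J → Prop) {ι : Type}
    [Fintype ι] [DecidableEq ι] (Z : J ⊕ I → Matrix ι ι ℂ) : Prop :=
  ∃ (c : I → Matrix ι ι ℂ) (d : J → Matrix ι ι ℂ),
    (∀ i, (c i).PosSemidef) ∧ (∀ j, (d j).PosSemidef) ∧
    (1 - ∑ i, c i).PosSemidef ∧ (1 - ∑ j, d j).PosSemidef ∧
    (∀ j, (fromBlocks (1 - ∑ i ∈ Finset.univ.filter (fun i => ¬ A i j), c i) (Z (Sum.inl j))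
      (Z (Sum.inl j))ᴴ (d j)).PosSemidef) ∧
    (∀ i, (fromBlocks (c i) (Z (Sum.inr i))
      (Z (Sum.inr i))ᴴ (1 - ∑ j ∈ Finset.univ.filter (fun j => ¬ A i j), d j)).PosSemidef)

end Pool.Agent.H33.OS
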