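import Pool.Agent.H33.OS.Base

/-!
# Positive block matrices from partial injections, and a norm estimate (MP_f82f05_an)
-/

open scoped ENNReal
open scoped Matrix.Norms.L2Operator
open scoped Kronecker ComplexOrder

namespace Pool.Agent.H33.OS

open Matrix

open Classical in
theorem blockPSD {α β : Type} [Fintype α] [Fintype β]
    (R : α → β → Prop) (h1 : ∀ a b b', R a b → R a b' → b = b')
    (h2 : ∀ a a' b, R a b → R a' b → a = a') (p : α → ℝ) (q : β → ℝ)
    (hp : ∀ a, 0 ≤ p a) (hq : ∀ b, 0 ≤ q b) (hpR : ∀ a b, R a b → 1 ≤ p a)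
    (hqR : ∀ a b, R a b → 1 ≤ q b) :
    (fromBlocks (diagonal (fun a => (p a : ℂ))) (Matrix.of fun a b => if R a b then (1 : ℂ) else 0)
      (Matrix.of fun a b => if R a b then (1 : ℂ) else 0)ᴴ
      (diagonal (fun b => (q b : ℂ)))).PosSemidef := by
  let B : Matrix (α × β) (α ⊕ β) ℂ := Matrix.of fun x y =>
    Sum.elim (fun a => if R x.1 x.2 ∧ x.1 = a then (1 : ℂ) else 0)
      (fun b => if R x.1 x.2 ∧ x.2 = b then (1 : ℂ) else 0) y
  let cp : α → ℝ := fun a => ∑ b, if R a b then 1 else 0
  let cq : β → ℝ := fun b => ∑ a, if R a b then 1 else 0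
  have hcp : ∀ a, cp a ≤ p a := by
    intro a
    by_cases h : ∃ b, R a b
    · obtain ⟨b, hb⟩ := h
      have : cp a = 1 := by
        simp only [cp]
        rw [Finset.sum_eq_single b]
        · simp [hb]
        · intro b' _ hne
          exact if_neg (fun h' => hne (h1 a b' b h' hb))
        · simp
      rw [this]; exact hpR a b hb
    · push Not at h
      have : cp a = 0 := Finset.sum_eq_zero (fun b _ => if_neg (h b))
      rw [this]; exact hp a
  have hcq : ∀ b, cq b ≤ q b := by
    intro b
    by_cases h : ∃ a, R a b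
    · obtain ⟨a, ha⟩ := h
      have : cq b = 1 := by
        simp only [cq]
        rw [Finset.sum_eq_single a]
        · simp [ha]
        · intro a' _ hne
          exact if_neg (fun h' => hne (h2 a' a b h' ha))
        · simp
      rw [this]; exact hqR a b ha
    · push Not at h
      have : cq b = 0 := Finset.sum_eq_zero (fun a _ => if_neg (h a))
      rw [this]; exact hq b
  have hD : (diagonal (Sum.elim (fun a => ((p a - cp a : ℝ) : ℂ))
      (fun b => ((q b - cq b : ℝ) : ℂ)))).PosSemidef := by
    refine Matrix.PosSemidef.diagonal ?_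
    intro x
    cases x with
    | inl a => simpa using (by exact_mod_cast sub_nonneg.mpr (hcp a) : (0 : ℂ) ≤ ((p a - cp a : ℝ) : ℂ))
    | inr b => simpa using (by exact_mod_cast sub_nonneg.mpr (hcq b) : (0 : ℂ) ≤ ((q b - cq b : ℝ) : ℂ))
  have hB := Matrix.posSemidef_conjTranspose_mul_self B
  have hsum := hD.add hB
  convert hsum using 1
  ext x y
  rw [Matrix.add_apply, Matrix.mul_apply, Fintype.sum_prod_type]
  cases x with
  | inl a =>
    cases y with
    | inl a' =>
      simp only [fromBlocks_apply₁₁, B, conjTranspose_apply, of_apply, Sum.elim_inl]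
      by_cases h : a = a'
      · subst h
        simp only [diagonal_apply_eq, Sum.elim_inl]
        rw [Finset.sum_eq_single a]
        · simp only [cp]
          push_cast
          have : ∀ b, star (if R a b ∧ True then (1 : ℂ) else 0) *
              (if R a b ∧ True then (1 : ℂ) else 0) = if R a b then 1 else 0 := by
            intro b; by_cases hb : R a b <;> simp [hb]
          rw [Finset.sum_congr rfl (fun b _ => this b)]
          have h' : ∀ i, (((if R a i then (1 : ℝ) else 0) : ℝ) : ℂ) = if R a i then 1 else 0 := by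
            intro i; by_cases hb : R a i <;> simp [hb]
          rw [Finset.sum_congr rfl (fun i _ => h' i)]
          ring
        · intro a'' _ hne
          refine Finset.sum_eq_zero (fun b _ => ?_)
          simp [hne]
        · simp
      · rw [diagonal_apply_ne _ h, diagonal_apply_ne _ (by simpa using h), zero_add]
        symm
        refine Finset.sum_eq_zero (fun a'' _ => Finset.sum_eq_zero (fun b _ => ?_))
        by_cases h' : a'' = a
        · subst h'; simp [h]
        · simp [h']
    | inr b' =>
      simp only [fromBlocks_apply₁₂, B, conjTranspose_apply, of_apply, Sum.elim_inl, Sum.elim_inr]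
      rw [diagonal_apply_ne _ (by simp), zero_add, Finset.sum_eq_single a, Finset.sum_eq_single b']
      · by_cases h : R a b' <;> simp [h]
      · intro b _ hne; simp [hne]
      · simp
      · intro a'' _ hne
        exact Finset.sum_eq_zero (fun b _ => by simp [hne])
      · simp
  | inr b =>
    cases y with
    | inl a' =>
      simp only [fromBlocks_apply₂₁, B, conjTranspose_apply, of_apply, Sum.elim_inl, Sum.elim_inr]
      rw [diagonal_apply_ne _ (by simp), zero_add, Finset.sum_eq_single a', Finset.sum_eq_single b]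
      · by_cases h : R a' b <;> simp [h]
      · intro b'' _ hne; simp [hne]
      · simp
      · intro a'' _ hne
        exact Finset.sum_eq_zero (fun b _ => by simp [hne])
      · simp
    | inr b' =>
      simp only [fromBlocks_apply₂₂, B, conjTranspose_apply, of_apply, Sum.elim_inr]
      rw [Finset.sum_comm]
      by_cases h : b = b'
      · subst h
        simp only [diagonal_apply_eq, Sum.elim_inr]
        rw [Finset.sum_eq_single b]
        · simp only [cq]
          push_cast
          have : ∀ a, star (if R a b ∧ True then (1 : ℂ) else 0) *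
              (if R a b ∧ True then (1 : ℂ) else 0) = if R a b then 1 else 0 := by
            intro a; by_cases ha : R a b <;> simp [ha]
          rw [Finset.sum_congr rfl (fun a _ => this a)]
          have h' : ∀ i, (((if R i b then (1 : ℝ) else 0) : ℝ) : ℂ) = if R i b then 1 else 0 := by
            intro i; by_cases hb : R i b <;> simp [hb]
          rw [Finset.sum_congr rfl (fun i _ => h' i)]
          ring
        · intro b'' _ hne
          refine Finset.sum_eq_zero (fun a _ => ?_)
          simp [hne]
        · simp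
      · rw [diagonal_apply_ne _ h, diagonal_apply_ne _ (by simpa using h), zero_add]
        symm
        refine Finset.sum_eq_zero (fun b'' _ => Finset.sum_eq_zero (fun a _ => ?_))
        by_cases h' : b'' = b
        · subst h'; simp [h]
        · simp [h']

/-- `2 |Re ⟨x, T y⟩| ≤ ‖T‖ (‖x‖² + ‖y‖²)`. -/
theorem re_dot_le {α : Type} [Fintype α] [DecidableEq α] (T : Matrix α α ℂ) (x y : α → ℂ) :
    -(‖T‖ * ((star x ⬝ᵥ x).re + (star y ⬝ᵥ y).re)) ≤ 2 * (star x ⬝ᵥ (T *ᵥ y)).re := by
  set X : EuclideanSpace ℂ α := WithLp.toLp 2 x with hX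
  set Y : EuclideanSpace ℂ α := WithLp.toLp 2 y with hY
  have h1 : ‖WithLp.toLp 2 (T *ᵥ y)‖ ≤ ‖T‖ * ‖Y‖ := Matrix.l2_opNorm_mulVec T Y
  have h2 : inner ℂ X (WithLp.toLp 2 (T *ᵥ y)) = star x ⬝ᵥ (T *ᵥ y) := by
    rw [EuclideanSpace.inner_eq_star_dotProduct, dotProduct_comm]
  have h3 : ‖star x ⬝ᵥ (T *ᵥ y)‖ ≤ ‖X‖ * (‖T‖ * ‖Y‖) := by
    rw [← h2]
    exact (norm_inner_le_norm _ _).trans (mul_le_mul_of_nonneg_left h1 (norm_nonneg _))
  have h4 : ∀ z : α → ℂ, (star z ⬝ᵥ z).re = ‖(WithLp.toLp 2 z : EuclideanSpace ℂ α)‖ ^ 2 := by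
    intro z
    rw [EuclideanSpace.norm_sq_eq, dotProduct, Complex.re_sum]
    refine Finset.sum_congr rfl (fun i _ => ?_)
    simp only [Pi.star_apply, RCLike.star_def]
    rw [mul_comm, Complex.mul_conj, Complex.ofReal_re, Complex.normSq_eq_norm_sq]
  rw [h4, h4]
  have h5 := (abs_le.mp ((Complex.abs_re_le_norm _).trans h3)).1
  have h6 : 2 * (‖X‖ * ‖Y‖) ≤ ‖X‖ ^ 2 + ‖Y‖ ^ 2 := by nlinarith [sq_nonneg (‖X‖ - ‖Y‖)]
  have h7 := mul_le_mul_of_nonneg_left h6 (norm_nonneg T)
  nlinarith [h5, h7]

end Pool.Agent.H33.OS
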