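import Pool.Agent.H33.OS.Base

/-!
# The chain lemma (THEOREM OS, module R3)

For a chain `x_0, y_0, x_1, y_1, ...` of `N = a + b` vectors of norm one in `E`, in which an earlier `x` and a later
`y` are coupled as in `ℓ_∞²` and an earlier `y` and a later `x` as in `ℓ_1²`, the Banach-Mazur distance of
`E` to a Hilbert space is at least `2 cos (π / (N + 2))`.

Proof. Let `u : E → ℓ₂ⁿ` be an isomorphism, `P = ‖u‖`, `Q = ‖u⁻¹‖`, `D = (P Q)²`, `α_j = Q² ‖u x_j‖²`,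
`β_i = Q² ‖u y_i‖²`. The parallelogram identity gives `α_j + β_i ≤ D` for `j ≤ i` and
`(s + t)² ≤ s² α_j + t² β_i` for `i < j`, `s, t ≥ 0`. Sum these with the weights `v_j = sin (2 (j + 1) θ)`.
-/

open scoped ENNReal

namespace Pool.Agent.H33.OS

/-- the weights -/
private noncomputable def vv (θ : ℝ) (j : ℕ) : ℝ := Real.sin (2 * ((j : ℝ) + 1) * θ)

private lemma vv_rec (θ : ℝ) (n : ℕ) :
    vv θ n + vv θ (n + 2) = 2 * Real.cos (2 * θ) * vv θ (n + 1) := by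
  unfold vv
  have h1 : 2 * (((n + 1 : ℕ) : ℝ) + 1) * θ - 2 * θ = 2 * ((n : ℝ) + 1) * θ := by
    push_cast; ring
  have h2 : 2 * (((n + 1 : ℕ) : ℝ) + 1) * θ + 2 * θ = 2 * (((n + 2 : ℕ) : ℝ) + 1) * θ := by
    push_cast; ring
  rw [← h1, ← h2, Real.sin_add, Real.sin_sub]
  ring

private lemma four_cos (θ : ℝ) : 4 * Real.cos θ ^ 2 = 2 + 2 * Real.cos (2 * θ) := by
  rw [Real.cos_two_mul]; ring

private lemma vv_one (θ : ℝ) : vv θ 1 = 2 * Real.cos (2 * θ) * vv θ 0 := by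
  unfold vv
  have h1 : 2 * (((1 : ℕ) : ℝ) + 1) * θ = 2 * (2 * θ) := by push_cast; ring
  have h2 : 2 * (((0 : ℕ) : ℝ) + 1) * θ = 2 * θ := by push_cast; ring
  rw [h1, h2, Real.sin_two_mul]
  ring

/-- the identity for the weights -/
private lemma identity (θ : ℝ) (n : ℕ) :
    4 * Real.cos θ ^ 2 * ∑ j ∈ Finset.range (n + 1), vv θ j ^ 2
      = vv θ 0 ^ 2 + ∑ j ∈ Finset.range n, (vv θ j + vv θ (j + 1)) ^ 2
        + (vv θ n ^ 2 + vv θ n * vv θ (n + 1)) := by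
  induction n with
  | zero =>
    simp only [zero_add, Finset.sum_range_one, Finset.sum_range_zero]
    rw [four_cos, vv_one]
    ring
  | succ n ih =>
    rw [Finset.sum_range_succ, mul_add, ih, Finset.sum_range_succ (n := n)]
    have h := vv_rec θ n
    rw [four_cos]
    have h2 : vv θ (n + 1 + 1) = 2 * Real.cos (2 * θ) * vv θ (n + 1) - vv θ n := by
      have : vv θ (n + 2) = 2 * Real.cos (2 * θ) * vv θ (n + 1) - vv θ n := by linarith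
      exact this
    rw [h2]
    ring

/-- the summed inequality -/
private lemma summed (θ : ℝ) (n : ℕ) (hv : ∀ j ≤ n, 0 ≤ vv θ j) (D : ℝ) (α β : ℕ → ℝ)
    (h0 : 1 ≤ α 0) (h1 : ∀ j < n, α j + β j ≤ D)
    (h2 : ∀ j < n, ∀ s t : ℝ, 0 ≤ s → 0 ≤ t → (s + t) ^ 2 ≤ s ^ 2 * α (j + 1) + t ^ 2 * β j)
    (hlast : vv θ n ^ 2 * α n + (vv θ n ^ 2 + vv θ n * vv θ (n + 1)) ≤ vv θ n ^ 2 * D) :
    4 * Real.cos θ ^ 2 * ∑ j ∈ Finset.range (n + 1), vv θ j ^ 2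
      ≤ D * ∑ j ∈ Finset.range (n + 1), vv θ j ^ 2 := by
  rw [identity]
  have e1 : ∑ j ∈ Finset.range n, (vv θ j + vv θ (j + 1)) ^ 2
      ≤ ∑ j ∈ Finset.range n, (vv θ (j + 1) ^ 2 * α (j + 1) + vv θ j ^ 2 * β j) := by
    refine Finset.sum_le_sum fun j hj => ?_
    have hj' := Finset.mem_range.1 hj
    have := h2 j hj' (vv θ (j + 1)) (vv θ j) (hv _ (by omega)) (hv _ (by omega))
    rw [add_comm (vv θ j)]
    exact this
  have e2 : ∑ j ∈ Finset.range n, (vv θ j ^ 2 * α j + vv θ j ^ 2 * β j)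
      ≤ ∑ j ∈ Finset.range n, vv θ j ^ 2 * D := by
    refine Finset.sum_le_sum fun j hj => ?_
    have hj' := Finset.mem_range.1 hj
    rw [← mul_add]
    exact mul_le_mul_of_nonneg_left (h1 j hj') (sq_nonneg _)
  have e3 : ∑ j ∈ Finset.range (n + 1), vv θ j ^ 2 * α j
      = ∑ j ∈ Finset.range n, vv θ (j + 1) ^ 2 * α (j + 1) + vv θ 0 ^ 2 * α 0 :=
    Finset.sum_range_succ' _ _
  have e4 : ∑ j ∈ Finset.range (n + 1), vv θ j ^ 2 * α j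
      = ∑ j ∈ Finset.range n, vv θ j ^ 2 * α j + vv θ n ^ 2 * α n :=
    Finset.sum_range_succ _ _
  have e5 : D * ∑ j ∈ Finset.range (n + 1), vv θ j ^ 2
      = ∑ j ∈ Finset.range n, vv θ j ^ 2 * D + vv θ n ^ 2 * D := by
    rw [mul_comm, Finset.sum_mul, Finset.sum_range_succ]
  have e6 : vv θ 0 ^ 2 * 1 ≤ vv θ 0 ^ 2 * α 0 := mul_le_mul_of_nonneg_left h0 (sq_nonneg _)
  rw [Finset.sum_add_distrib] at e1 e2
  rw [e5]
  linarith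

private lemma cos_bound (θ : ℝ) (n : ℕ) (hθ : 0 < θ) (hθn : 2 * ((n : ℝ) + 1) * θ < Real.pi) (D : ℝ)
    (α β : ℕ → ℝ)
    (h0 : 1 ≤ α 0) (h1 : ∀ j < n, α j + β j ≤ D)
    (h2 : ∀ j < n, ∀ s t : ℝ, 0 ≤ s → 0 ≤ t → (s + t) ^ 2 ≤ s ^ 2 * α (j + 1) + t ^ 2 * β j)
    (hlast : vv θ n ^ 2 * α n + (vv θ n ^ 2 + vv θ n * vv θ (n + 1)) ≤ vv θ n ^ 2 * D) :
    4 * Real.cos θ ^ 2 ≤ D := by
  have hv : ∀ j ≤ n, 0 < vv θ j := by
    intro j hj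
    refine Real.sin_pos_of_pos_of_lt_pi (by positivity) (lt_of_le_of_lt ?_ hθn)
    have hj' : (j : ℝ) ≤ n := Nat.cast_le.2 hj
    have : 2 * ((j : ℝ) + 1) ≤ 2 * ((n : ℝ) + 1) := by linarith
    exact mul_le_mul_of_nonneg_right this hθ.le
  have h := summed θ n (fun j hj => (hv j hj).le) D α β h0 h1 h2 hlast
  have hpos : 0 < ∑ j ∈ Finset.range (n + 1), vv θ j ^ 2 := by
    refine Finset.sum_pos (fun j hj => ?_) ⟨0, by simp⟩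
    exact pow_pos (hv j (by have := Finset.mem_range.1 hj; omega)) 2
  exact le_of_mul_le_mul_right h hpos

/-- `‖u v‖ ≤ ‖u‖ ‖v‖` -/
private lemma le_mapNorm {V W : Type*} [SeminormedAddCommGroup V] [Module ℂ V]
    [SeminormedAddCommGroup W] [Module ℂ W] (hV : ∀ (c : ℂ) (v : V), ‖c • v‖ = ‖c‖ * ‖v‖)
    (hV0 : ∀ v : V, ‖v‖ = 0 → v = 0) (hW : ∀ (c : ℂ) (w : W), ‖c • w‖ = ‖c‖ * ‖w‖)
    (u : V →ₗ[ℂ] W) (h : mapNorm u ≠ ∞) (v : V) :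
    ‖u v‖ ≤ (mapNorm u).toReal * ‖v‖ := by
  rcases eq_or_ne v 0 with rfl | hv
  · rw [map_zero, norm_zero, norm_zero, mul_zero]
  · have hn : 0 < ‖v‖ := lt_of_le_of_ne (norm_nonneg _) fun h => hv (hV0 v h.symm)
    have h1 : ‖(((‖v‖ : ℝ) : ℂ)⁻¹ • v)‖ ≤ 1 := by
      rw [hV, norm_inv, Complex.norm_real, norm_norm, inv_mul_cancel₀ hn.ne']
    have h2 : ‖u (((‖v‖ : ℝ) : ℂ)⁻¹ • v)‖ₑ ≤ mapNorm u :=
      le_iSup₂_of_le (f := fun (x : V) (_ : ‖x‖ ≤ 1) => ‖u x‖ₑ) _ h1 le_rfl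
    have h3 : ‖u (((‖v‖ : ℝ) : ℂ)⁻¹ • v)‖ ≤ (mapNorm u).toReal := by
      have := ENNReal.toReal_mono h h2
      rwa [toReal_enorm] at this
    rw [map_smul, hW, norm_inv, Complex.norm_real, norm_norm,
      inv_mul_le_iff₀ hn] at h3
    linarith [mul_comm ‖v‖ (mapNorm u).toReal]

/-- the parallelogram identity in a complex inner product space -/
private lemma para {W : Type*} [NormedAddCommGroup W] [InnerProductSpace ℂ W] (x y : W) :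
    ‖x + y‖ ^ 2 + ‖x - y‖ ^ 2 = 2 * (‖x‖ ^ 2 + ‖y‖ ^ 2) := by
  have := parallelogram_law_with_norm ℂ x y
  nlinarith [this]

/-- the vectors of the chain, seen through an isomorphism onto a Hilbert space -/
private lemma key {V W : Type*} [SeminormedAddCommGroup V] [Module ℂ V]
    [NormedAddCommGroup W] [InnerProductSpace ℂ W] (u : V ≃ₗ[ℂ] W) (P Q : ℝ) (hP0 : 0 ≤ P) (hQ0 : 0 ≤ Q)
    (hP : ∀ v, ‖u v‖ ≤ P * ‖v‖) (hQ : ∀ w, ‖u.symm w‖ ≤ Q * ‖w‖)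
    (a b : ℕ) (hab : a = b ∨ a = b + 1) (ha : 0 < a)
    (x : Fin a → V) (y : Fin b → V) (hx : ∀ j, 1 ≤ ‖x j‖) (hy : ∀ i, 1 ≤ ‖y i‖)
    (hx1 : ∀ j, ‖x j‖ ≤ 1)
    (h1 : ∀ (i : Fin b) (j : Fin a), (j : ℕ) ≤ (i : ℕ) → ‖x j + y i‖ ≤ 1 ∧ ‖x j - y i‖ ≤ 1)
    (h2 : ∀ (i : Fin b) (j : Fin a), (i : ℕ) < (j : ℕ) → ∀ s t : ℝ, 0 ≤ s → 0 ≤ t →
      s + t ≤ ‖(s : ℂ) • x j + (t : ℂ) • y i‖ ∧ s + t ≤ ‖(s : ℂ) • x j - (t : ℂ) • y i‖) :
    2 * Real.cos (Real.pi / ((a + b : ℕ) + 2)) ≤ P * Q := by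
  -- `‖v‖ ≤ Q ‖u v‖`
  have hQ' : ∀ v, ‖v‖ ≤ Q * ‖u v‖ := fun v => by
    have := hQ (u v)
    rwa [LinearEquiv.symm_apply_apply] at this
  obtain ⟨n, rfl⟩ : ∃ n, a = n + 1 := ⟨a - 1, by omega⟩
  set α : ℕ → ℝ := fun j => if h : j < n + 1 then Q ^ 2 * ‖u (x ⟨j, h⟩)‖ ^ 2 else 0 with hα
  set β : ℕ → ℝ := fun i => if h : i < b then Q ^ 2 * ‖u (y ⟨i, h⟩)‖ ^ 2 else 0 with hβ
  set D : ℝ := (P * Q) ^ 2 with hD
  have hsq : ∀ (v : V) (c : ℝ), 0 ≤ c → c ≤ ‖v‖ → c ^ 2 ≤ Q ^ 2 * ‖u v‖ ^ 2 := by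
    intro v c hc hv
    have h3 := hv.trans (hQ' v)
    calc c ^ 2 ≤ (Q * ‖u v‖) ^ 2 := pow_le_pow_left₀ hc h3 2
      _ = Q ^ 2 * ‖u v‖ ^ 2 := by ring
  have hup : ∀ v : V, ‖v‖ ≤ 1 → Q ^ 2 * ‖u v‖ ^ 2 ≤ D := by
    intro v hv
    have h3 : ‖u v‖ ≤ P := (hP v).trans (by nlinarith)
    calc Q ^ 2 * ‖u v‖ ^ 2 ≤ Q ^ 2 * P ^ 2 :=
          mul_le_mul_of_nonneg_left (pow_le_pow_left₀ (norm_nonneg _) h3 2) (sq_nonneg _)
      _ = D := by rw [hD]; ring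
  have hα1 : ∀ j, ∀ h : j < n + 1, 1 ≤ α j := by
    intro j h
    have h3 := hsq (x ⟨j, h⟩) 1 zero_le_one (hx _)
    simp only [hα, dif_pos h]
    linarith
  have hβ1 : ∀ i, ∀ h : i < b, 1 ≤ β i := by
    intro i h
    have h3 := hsq (y ⟨i, h⟩) 1 zero_le_one (hy _)
    simp only [hβ, dif_pos h]
    linarith
  have hαD : ∀ j, ∀ h : j < n + 1, α j ≤ D := by
    intro j h
    simp only [hα, dif_pos h]
    exact hup _ (hx1 _)
  have hsum : ∀ j, ∀ h : j < n + 1, ∀ h' : j < b, α j + β j ≤ D := by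
    intro j h h'
    obtain ⟨e1, e2⟩ := h1 ⟨j, h'⟩ ⟨j, h⟩ le_rfl
    have e3 := hup _ e1
    have e4 := hup _ e2
    rw [map_add] at e3
    rw [map_sub] at e4
    have e5 := para (u (x ⟨j, h⟩)) (u (y ⟨j, h'⟩))
    simp only [hα, hβ, dif_pos h, dif_pos h']
    have e6 : Q ^ 2 * ‖u (x ⟨j, h⟩) + u (y ⟨j, h'⟩)‖ ^ 2 + Q ^ 2 * ‖u (x ⟨j, h⟩) - u (y ⟨j, h'⟩)‖ ^ 2
        = 2 * (Q ^ 2 * ‖u (x ⟨j, h⟩)‖ ^ 2 + Q ^ 2 * ‖u (y ⟨j, h'⟩)‖ ^ 2) := by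
      rw [← mul_add, e5]; ring
    linarith
  have hlow : ∀ j, ∀ h : j + 1 < n + 1, ∀ h' : j < b, ∀ s t : ℝ, 0 ≤ s → 0 ≤ t →
      (s + t) ^ 2 ≤ s ^ 2 * α (j + 1) + t ^ 2 * β j := by
    intro j h h' s t hs ht
    obtain ⟨e1, e2⟩ := h2 ⟨j, h'⟩ ⟨j + 1, h⟩ (by simp) s t hs ht
    have e3 := hsq _ _ (add_nonneg hs ht) e1
    have e4 := hsq _ _ (add_nonneg hs ht) e2
    rw [map_add, map_smul, map_smul] at e3
    rw [map_sub, map_smul, map_smul] at e4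
    have e5 := para ((s : ℂ) • u (x ⟨j + 1, h⟩)) ((t : ℂ) • u (y ⟨j, h'⟩))
    rw [norm_smul, norm_smul, Complex.norm_real, Complex.norm_real, Real.norm_of_nonneg hs,
      Real.norm_of_nonneg ht] at e5
    simp only [hα, hβ, dif_pos h, dif_pos h']
    nlinarith [e3, e4, e5, sq_nonneg Q]
  have hpi := Real.pi_pos
  have hN : (0 : ℝ) < ((n + 1 + b : ℕ) : ℝ) + 2 := by positivity
  set θ : ℝ := Real.pi / (((n + 1 + b : ℕ) : ℝ) + 2) with hθ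
  have hθ0 : 0 < θ := div_pos hpi hN
  have hθN : (((n + 1 + b : ℕ) : ℝ) + 2) * θ = Real.pi := by
    rw [hθ]; field_simp
  have main : 4 * Real.cos θ ^ 2 ≤ D := by
    rcases hab with hb | hb
    · -- `a = b = n + 1`
      subst hb
      have hθN' : (2 * ((n : ℝ) + 1) + 2) * θ = Real.pi := by
        rw [← hθN]; push_cast; ring
      refine cos_bound θ n hθ0 (by nlinarith) D α β (hα1 0 (by omega))
        (fun j hj => hsum j (by omega) (by omega)) (fun j hj => hlow j (by omega) (by omega)) ?_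
      have hz : vv θ (n + 1) = 0 := by
        unfold vv
        have : 2 * (((n + 1 : ℕ) : ℝ) + 1) * θ = Real.pi := by
          rw [← hθN']; push_cast; ring
        rw [this, Real.sin_pi]
      rw [hz]
      have e1 := hsum n (by omega) (by omega)
      have e2 := hβ1 n (by omega)
      have e3 : α n + 1 ≤ D := by linarith
      have e4 := mul_le_mul_of_nonneg_left e3 (sq_nonneg (vv θ n))
      linarith
    · -- `b = n`
      have hb' : b = n := by omega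
      subst hb'
      have hθN' : (2 * ((b : ℝ) + 1) + 1) * θ = Real.pi := by
        rw [← hθN]; push_cast; ring
      refine cos_bound θ b hθ0 (by nlinarith) D α β (hα1 0 (by omega))
        (fun j hj => hsum j (by omega) (by omega)) (fun j hj => hlow j (by omega) (by omega)) ?_
      have hz : vv θ (b + 1) = - vv θ b := by
        unfold vv
        have e1 : 2 * (((b + 1 : ℕ) : ℝ) + 1) * θ = Real.pi + θ := by
          rw [← hθN']; push_cast; ring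
        have e2 : 2 * ((b : ℝ) + 1) * θ = Real.pi - θ := by
          rw [← hθN']; ring
        rw [e1, e2, Real.sin_pi_sub, add_comm, Real.sin_add_pi]
      rw [hz]
      have e1 := hαD b (by omega)
      have e4 := mul_le_mul_of_nonneg_left e1 (sq_nonneg (vv θ b))
      linarith
  have hc : 0 ≤ 2 * Real.cos θ := by
    have h3 : θ ≤ Real.pi / 2 := by
      rw [hθ]
      refine div_le_div_of_nonneg_left hpi.le (by norm_num) ?_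
      have : (0 : ℝ) ≤ ((n + 1 + b : ℕ) : ℝ) := Nat.cast_nonneg _
      linarith
    have := Real.cos_nonneg_of_neg_pi_div_two_le_of_le (by linarith) h3
    linarith
  have hPQ : 0 ≤ P * Q := mul_nonneg hP0 hQ0
  have hfin : (2 * Real.cos θ) ^ 2 ≤ (P * Q) ^ 2 := by
    rw [← hD]
    linarith [main, (by ring : (2 * Real.cos θ) ^ 2 = 4 * Real.cos θ ^ 2)]
  exact (sq_le_sq₀ hc hPQ).1 hfin

/-- the chain lemma for one isomorphism -/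
private lemma chain_one {V : Type*} [SeminormedAddCommGroup V] [Module ℂ V]
    (hV : ∀ (c : ℂ) (v : V), ‖c • v‖ = ‖c‖ * ‖v‖) (hV0 : ∀ v : V, ‖v‖ = 0 → v = 0) (n : ℕ)
    (u : V ≃ₗ[ℂ] EuclideanSpace ℂ (Fin n))
    (a b : ℕ) (hab : a = b ∨ a = b + 1) (ha : 0 < a)
    (x : Fin a → V) (y : Fin b → V) (hx : ∀ j, 1 ≤ ‖x j‖) (hy : ∀ i, 1 ≤ ‖y i‖)
    (hx1 : ∀ j, ‖x j‖ ≤ 1)
    (h1 : ∀ (i : Fin b) (j : Fin a), (j : ℕ) ≤ (i : ℕ) → ‖x j + y i‖ ≤ 1 ∧ ‖x j - y i‖ ≤ 1)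
    (h2 : ∀ (i : Fin b) (j : Fin a), (i : ℕ) < (j : ℕ) → ∀ s t : ℝ, 0 ≤ s → 0 ≤ t →
      s + t ≤ ‖(s : ℂ) • x j + (t : ℂ) • y i‖ ∧ s + t ≤ ‖(s : ℂ) • x j - (t : ℂ) • y i‖) :
    ENNReal.ofReal (2 * Real.cos (Real.pi / ((a + b : ℕ) + 2))) ≤
      mapNorm (u : V →ₗ[ℂ] EuclideanSpace ℂ (Fin n)) *
        mapNorm (u.symm : EuclideanSpace ℂ (Fin n) →ₗ[ℂ] V) := by
  set p := mapNorm (u : V →ₗ[ℂ] EuclideanSpace ℂ (Fin n)) with hp
  set q := mapNorm (u.symm : EuclideanSpace ℂ (Fin n) →ₗ[ℂ] V) with hq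
  have hx0 : x ⟨0, ha⟩ ≠ 0 := by
    intro h
    have := hx ⟨0, ha⟩
    rw [h, norm_zero] at this
    linarith
  have hu0 : u (x ⟨0, ha⟩) ≠ 0 := fun h => hx0 (u.map_eq_zero_iff.1 h)
  have hp0 : p ≠ 0 := by
    intro h
    have h3 : ‖u (x ⟨0, ha⟩)‖ₑ ≤ p :=
      le_iSup₂_of_le (f := fun (v : V) (_ : ‖v‖ ≤ 1) =>
        ‖(u : V →ₗ[ℂ] EuclideanSpace ℂ (Fin n)) v‖ₑ) _ (hx1 ⟨0, ha⟩) le_rfl
    rw [h] at h3
    exact hu0 (enorm_eq_zero.1 (le_antisymm h3 bot_le))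
  have hE : ∀ (c : ℂ) (w : EuclideanSpace ℂ (Fin n)), ‖c • w‖ = ‖c‖ * ‖w‖ := fun c w => norm_smul c w
  have hE0 : ∀ w : EuclideanSpace ℂ (Fin n), ‖w‖ = 0 → w = 0 := fun w h => norm_eq_zero.1 h
  by_cases hpt : p = ∞
  · by_cases hq0 : q = 0
    · exfalso
      have h3 := le_mapNorm hE hE0 hV (u.symm : EuclideanSpace ℂ (Fin n) →ₗ[ℂ] V)
        (by rw [← hq, hq0]; exact ENNReal.zero_ne_top) (u (x ⟨0, ha⟩))
      rw [← hq, hq0, ENNReal.toReal_zero, zero_mul] at h3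
      have h4 : (u.symm : EuclideanSpace ℂ (Fin n) →ₗ[ℂ] V) (u (x ⟨0, ha⟩)) = x ⟨0, ha⟩ :=
        u.symm_apply_apply _
      rw [h4] at h3
      linarith [hx ⟨0, ha⟩]
    · rw [hpt, ENNReal.top_mul hq0]
      exact le_top
  by_cases hqt : q = ∞
  · rw [hqt, ENNReal.mul_top hp0]
    exact le_top
  have h3 := key u p.toReal q.toReal ENNReal.toReal_nonneg ENNReal.toReal_nonneg
    (fun v => le_mapNorm hV hV0 hE (u : V →ₗ[ℂ] EuclideanSpace ℂ (Fin n)) hpt v)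
    (fun w => le_mapNorm hE hE0 hV (u.symm : EuclideanSpace ℂ (Fin n) →ₗ[ℂ] V) hqt w)
    a b hab ha x y hx hy hx1 h1 h2
  calc ENNReal.ofReal (2 * Real.cos (Real.pi / ((a + b : ℕ) + 2)))
      ≤ ENNReal.ofReal (p.toReal * q.toReal) := ENNReal.ofReal_le_ofReal h3
    _ = p * q := by
      rw [ENNReal.ofReal_mul ENNReal.toReal_nonneg, ENNReal.ofReal_toReal hpt,
        ENNReal.ofReal_toReal hqt]

/-- **The chain lemma.** Vectors `x_0, ..., x_(a-1)`, `y_0, ..., y_(b-1)` of norm one, with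
`‖x_j ± y_i‖ ≤ 1` for `j ≤ i` and `‖s x_j ± t y_i‖ ≥ s + t` for `i < j`, where
`a = b` or `a = b + 1`. -/
theorem chain {H : Type} [NormedAddCommGroup H] [InnerProductSpace ℂ H]
    (E : Submodule ℂ (H →L[ℂ] H)) (a b : ℕ) (hab : a = b ∨ a = b + 1) (ha : 0 < a)
    (x : Fin a → E) (y : Fin b → E) (hx : ∀ j, 1 ≤ ‖x j‖) (hy : ∀ i, 1 ≤ ‖y i‖)
    (hx1 : ∀ j, ‖x j‖ ≤ 1) (hy1 : ∀ i, ‖y i‖ ≤ 1)
    (h1 : ∀ (i : Fin b) (j : Fin a), (j : ℕ) ≤ (i : ℕ) → ‖x j + y i‖ ≤ 1 ∧ ‖x j - y i‖ ≤ 1)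
    (h2 : ∀ (i : Fin b) (j : Fin a), (i : ℕ) < (j : ℕ) → ∀ s t : ℝ, 0 ≤ s → 0 ≤ t →
      s + t ≤ ‖(s : ℂ) • x j + (t : ℂ) • y i‖ ∧ s + t ≤ ‖(s : ℂ) • x j - (t : ℂ) • y i‖) :
    ENNReal.ofReal (2 * Real.cos (Real.pi / ((a + b : ℕ) + 2))) ≤ distHilbert E := by
  have _ := hy1
  unfold distHilbert
  refine le_iInf fun u => ?_
  have hV : ∀ (c : ℂ) (v : E), ‖c • v‖ = ‖c‖ * ‖v‖ := fun c v => norm_smul c (v : H →L[ℂ] H)
  have hV0 : ∀ v : E, ‖v‖ = 0 → v = 0 := fun v h =>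
    Subtype.ext (norm_eq_zero.1 (h : ‖(v : H →L[ℂ] H)‖ = 0))
  exact chain_one (V := E) hV hV0 _ u a b hab ha x y hx hy hx1 h1 h2

end Pool.Agent.H33.OS
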