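import Pool.Agent.H33.OS.Base

/-!
# The cycle lemma (MP_f82f05_an)

Four vectors `x₀, y₀, x₁, y₁` of an operator space `E`, where the pairs `x₀, y₀` and `x₁, y₁` are coupled as in
`ℓ_∞²` and the pairs `x₀, y₁` and `x₁, y₀` as in `ℓ_1²`: the Banach-Mazur distance of `E` to a
Hilbert space is at least `2`.
-/

open scoped ENNReal

namespace Pool.Agent.H33.OS

/-- `‖u v‖ ≤ ‖u‖ ‖v‖` -/
private lemma cy_le_mapNorm {V W : Type*} [SeminormedAddCommGroup V] [Module ℂ V]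
    [SeminormedAddCommGroup W] [Module ℂ W] (hV : ∀ (c : ℂ) (v : V), ‖c • v‖ = ‖c‖ * ‖v‖)
    (hV0 : ∀ v : V, ‖v‖ = 0 → v = 0) (hW : ∀ (c : ℂ) (w : W), ‖c • w‖ = ‖c‖ * ‖w‖)
    (u : V →ₗ[ℂ] W) (h : mapNorm u ≠ ∞) (v : V) :
    ‖u v‖ ≤ (mapNorm u).toReal * ‖v‖ := by
  rcases eq_or_ne v 0 with rfl | hv
  · rw [map_zero, norm_zero, norm_zero, mul_zero]
  · have hn : 0 < ‖v‖ := lt_of_le_of_ne (norm_nonneg _) fun h => hv (hV0 v h.symm)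
    have h1 : ‖(((‖v‖ : ℝ) : ℂ)⁻¹ • v)‖ ≤ 1 := by
      rw [hV, norm_inv, Complex.norm_real, norm_norm, inv_mul_cancel₀ hn.ne']
    have h2 : ‖u (((‖v‖ : ℝ) : ℂ)⁻¹ • v)‖ₑ ≤ mapNorm u :=
      le_iSup₂_of_le (f := fun (x : V) (_ : ‖x‖ ≤ 1) => ‖u x‖ₑ) _ h1 le_rfl
    have h3 : ‖u (((‖v‖ : ℝ) : ℂ)⁻¹ • v)‖ ≤ (mapNorm u).toReal := by
      have := ENNReal.toReal_mono h h2
      rwa [toReal_enorm] at this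
    rw [map_smul, hW, norm_inv, Complex.norm_real, norm_norm,
      inv_mul_le_iff₀ hn] at h3
    linarith [mul_comm ‖v‖ (mapNorm u).toReal]

private lemma cy_para {W : Type*} [NormedAddCommGroup W] [InnerProductSpace ℂ W] (x y : W) :
    ‖x + y‖ ^ 2 + ‖x - y‖ ^ 2 = 2 * (‖x‖ ^ 2 + ‖y‖ ^ 2) := by
  have := parallelogram_law_with_norm ℂ x y
  nlinarith [this]

private lemma cy_key {V W : Type*} [SeminormedAddCommGroup V] [Module ℂ V]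
    [NormedAddCommGroup W] [InnerProductSpace ℂ W] (u : V ≃ₗ[ℂ] W) (P Q : ℝ) (hP0 : 0 ≤ P)
    (hQ0 : 0 ≤ Q) (hP : ∀ v, ‖u v‖ ≤ P * ‖v‖) (hQ : ∀ w, ‖u.symm w‖ ≤ Q * ‖w‖)
    (x₀ x₁ y₀ y₁ : V) (h00 : ‖x₀ + y₀‖ ≤ 1 ∧ ‖x₀ - y₀‖ ≤ 1) (h11 : ‖x₁ + y₁‖ ≤ 1 ∧ ‖x₁ - y₁‖ ≤ 1)
    (h01 : 2 ≤ ‖x₀ + y₁‖ ∧ 2 ≤ ‖x₀ - y₁‖) (h10 : 2 ≤ ‖x₁ + y₀‖ ∧ 2 ≤ ‖x₁ - y₀‖) :
    2 ≤ P * Q := by
  have hQ' : ∀ v, ‖v‖ ≤ Q * ‖u v‖ := fun v => by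
    have := hQ (u v)
    rwa [LinearEquiv.symm_apply_apply] at this
  have hup : ∀ v : V, ‖v‖ ≤ 1 → Q ^ 2 * ‖u v‖ ^ 2 ≤ (P * Q) ^ 2 := by
    intro v hv
    have h3 : ‖u v‖ ≤ P := (hP v).trans (by nlinarith)
    calc Q ^ 2 * ‖u v‖ ^ 2 ≤ Q ^ 2 * P ^ 2 :=
          mul_le_mul_of_nonneg_left (pow_le_pow_left₀ (norm_nonneg _) h3 2) (sq_nonneg _)
      _ = (P * Q) ^ 2 := by ring
  have hlo : ∀ v : V, 2 ≤ ‖v‖ → 4 ≤ Q ^ 2 * ‖u v‖ ^ 2 := by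
    intro v hv
    have h3 := hv.trans (hQ' v)
    calc (4 : ℝ) = 2 ^ 2 := by norm_num
      _ ≤ (Q * ‖u v‖) ^ 2 := pow_le_pow_left₀ (by norm_num) h3 2
      _ = Q ^ 2 * ‖u v‖ ^ 2 := by ring
  have a1 := hup _ h00.1
  have a2 := hup _ h00.2
  have a3 := hup _ h11.1
  have a4 := hup _ h11.2
  have b1 := hlo _ h01.1
  have b2 := hlo _ h01.2
  have b3 := hlo _ h10.1
  have b4 := hlo _ h10.2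
  rw [map_add] at a1 a3 b1 b3
  rw [map_sub] at a2 a4 b2 b4
  have e1 := cy_para (u x₀) (u y₀)
  have e2 := cy_para (u x₁) (u y₁)
  have e3 := cy_para (u x₀) (u y₁)
  have e4 := cy_para (u x₁) (u y₀)
  have f1 : Q ^ 2 * ‖u x₀ + u y₀‖ ^ 2 + Q ^ 2 * ‖u x₀ - u y₀‖ ^ 2
      = 2 * (Q ^ 2 * ‖u x₀‖ ^ 2 + Q ^ 2 * ‖u y₀‖ ^ 2) := by rw [← mul_add, e1]; ring
  have f2 : Q ^ 2 * ‖u x₁ + u y₁‖ ^ 2 + Q ^ 2 * ‖u x₁ - u y₁‖ ^ 2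
      = 2 * (Q ^ 2 * ‖u x₁‖ ^ 2 + Q ^ 2 * ‖u y₁‖ ^ 2) := by rw [← mul_add, e2]; ring
  have f3 : Q ^ 2 * ‖u x₀ + u y₁‖ ^ 2 + Q ^ 2 * ‖u x₀ - u y₁‖ ^ 2
      = 2 * (Q ^ 2 * ‖u x₀‖ ^ 2 + Q ^ 2 * ‖u y₁‖ ^ 2) := by rw [← mul_add, e3]; ring
  have f4 : Q ^ 2 * ‖u x₁ + u y₀‖ ^ 2 + Q ^ 2 * ‖u x₁ - u y₀‖ ^ 2
      = 2 * (Q ^ 2 * ‖u x₁‖ ^ 2 + Q ^ 2 * ‖u y₀‖ ^ 2) := by rw [← mul_add, e4]; ring
  have hfin : (2 : ℝ) ^ 2 ≤ (P * Q) ^ 2 := by linarith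
  exact (sq_le_sq₀ (by norm_num) (mul_nonneg hP0 hQ0)).1 hfin

private lemma cy_one {V : Type*} [SeminormedAddCommGroup V] [Module ℂ V]
    (hV : ∀ (c : ℂ) (v : V), ‖c • v‖ = ‖c‖ * ‖v‖) (hV0 : ∀ v : V, ‖v‖ = 0 → v = 0) (n : ℕ)
    (u : V ≃ₗ[ℂ] EuclideanSpace ℂ (Fin n)) (x₀ x₁ y₀ y₁ : V)
    (h00 : ‖x₀ + y₀‖ ≤ 1 ∧ ‖x₀ - y₀‖ ≤ 1) (h11 : ‖x₁ + y₁‖ ≤ 1 ∧ ‖x₁ - y₁‖ ≤ 1)
    (h01 : 2 ≤ ‖x₀ + y₁‖ ∧ 2 ≤ ‖x₀ - y₁‖) (h10 : 2 ≤ ‖x₁ + y₀‖ ∧ 2 ≤ ‖x₁ - y₀‖) :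
    2 ≤ mapNorm (u : V →ₗ[ℂ] EuclideanSpace ℂ (Fin n)) *
        mapNorm (u.symm : EuclideanSpace ℂ (Fin n) →ₗ[ℂ] V) := by
  set p := mapNorm (u : V →ₗ[ℂ] EuclideanSpace ℂ (Fin n)) with hp
  set q := mapNorm (u.symm : EuclideanSpace ℂ (Fin n) →ₗ[ℂ] V) with hq
  have hv0 : x₀ + y₁ ≠ 0 := by
    intro h
    have := h01.1
    rw [h, norm_zero] at this
    norm_num at this
  have hu0 : u (x₀ + y₁) ≠ 0 := fun h => hv0 (u.map_eq_zero_iff.1 h)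
  have hE : ∀ (c : ℂ) (w : EuclideanSpace ℂ (Fin n)), ‖c • w‖ = ‖c‖ * ‖w‖ := fun c w => norm_smul c w
  have hE0 : ∀ w : EuclideanSpace ℂ (Fin n), ‖w‖ = 0 → w = 0 := fun w h => norm_eq_zero.1 h
  have hp0 : p ≠ 0 := by
    intro h
    have h3 := cy_le_mapNorm hV hV0 hE (u : V →ₗ[ℂ] EuclideanSpace ℂ (Fin n))
      (by rw [← hp, h]; exact ENNReal.zero_ne_top) (x₀ + y₁)
    rw [← hp, h, ENNReal.toReal_zero, zero_mul] at h3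
    exact hu0 (norm_le_zero_iff.1 h3)
  have hq0 : q ≠ 0 := by
    intro h
    have h3 := cy_le_mapNorm hE hE0 hV (u.symm : EuclideanSpace ℂ (Fin n) →ₗ[ℂ] V)
      (by rw [← hq, h]; exact ENNReal.zero_ne_top) (u (x₀ + y₁))
    rw [← hq, h, ENNReal.toReal_zero, zero_mul] at h3
    have h4 : (u.symm : EuclideanSpace ℂ (Fin n) →ₗ[ℂ] V) (u (x₀ + y₁)) = x₀ + y₁ :=
      u.symm_apply_apply _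
    rw [h4] at h3
    have h5 := h01.1
    linarith
  by_cases hpt : p = ∞
  · rw [hpt, ENNReal.top_mul hq0]
    exact le_top
  by_cases hqt : q = ∞
  · rw [hqt, ENNReal.mul_top hp0]
    exact le_top
  have h3 := cy_key u p.toReal q.toReal ENNReal.toReal_nonneg ENNReal.toReal_nonneg
    (fun v => cy_le_mapNorm hV hV0 hE (u : V →ₗ[ℂ] EuclideanSpace ℂ (Fin n)) hpt v)
    (fun w => cy_le_mapNorm hE hE0 hV (u.symm : EuclideanSpace ℂ (Fin n) →ₗ[ℂ] V) hqt w)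
    x₀ x₁ y₀ y₁ h00 h11 h01 h10
  calc (2 : ℝ≥0∞) = ENNReal.ofReal 2 := by norm_num
    _ ≤ ENNReal.ofReal (p.toReal * q.toReal) := ENNReal.ofReal_le_ofReal h3
    _ = p * q := by
      rw [ENNReal.ofReal_mul ENNReal.toReal_nonneg, ENNReal.ofReal_toReal hpt,
        ENNReal.ofReal_toReal hqt]

/-- **The cycle lemma.** -/
theorem cycle {H : Type} [NormedAddCommGroup H] [InnerProductSpace ℂ H]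
    (E : Submodule ℂ (H →L[ℂ] H)) (x₀ x₁ y₀ y₁ : E)
    (h00 : ‖x₀ + y₀‖ ≤ 1 ∧ ‖x₀ - y₀‖ ≤ 1) (h11 : ‖x₁ + y₁‖ ≤ 1 ∧ ‖x₁ - y₁‖ ≤ 1)
    (h01 : 2 ≤ ‖x₀ + y₁‖ ∧ 2 ≤ ‖x₀ - y₁‖) (h10 : 2 ≤ ‖x₁ + y₀‖ ∧ 2 ≤ ‖x₁ - y₀‖) :
    2 ≤ distHilbert E := by
  unfold distHilbert
  refine le_iInf fun u => ?_
  have hV : ∀ (c : ℂ) (v : E), ‖c • v‖ = ‖c‖ * ‖v‖ := fun c v => norm_smul c (v : H →L[ℂ] H)
  have hV0 : ∀ v : E, ‖v‖ = 0 → v = 0 := fun v h =>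
    Subtype.ext (norm_eq_zero.1 (h : ‖(v : H →L[ℂ] H)‖ = 0))
  exact cy_one (V := E) hV hV0 _ u x₀ x₁ y₀ y₁ h00 h11 h01 h10

end Pool.Agent.H33.OS
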