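import Mathlib

/-!
# Operator spaces: matrix norms, duals, complete distances (MP_f82f05_an)
-/

open scoped ENNReal
open scoped Matrix.Norms.L2Operator

namespace Pool.Agent.H33.OS

/-- The operator on the Hilbert space `H^m` (ℓ₂-direct sum) given by an `m × m` matrix of
operators on `H`: `(opMat T v) i = ∑ j, T i j (v j)`. -/
noncomputable def opMat {H : Type*} [NormedAddCommGroup H] [InnerProductSpace ℂ H] {m : ℕ}
    (T : Matrix (Fin m) (Fin m) (H →L[ℂ] H)) :
    PiLp 2 (fun _ : Fin m => H) →L[ℂ] PiLp 2 (fun _ : Fin m => H) :=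
  ((PiLp.continuousLinearEquiv 2 ℂ (fun _ : Fin m => H)).symm :
      (∀ _ : Fin m, H) →L[ℂ] PiLp 2 (fun _ : Fin m => H)) ∘L
    (ContinuousLinearMap.pi (fun i => ∑ j, (T i j) ∘L
      (ContinuousLinearMap.proj (R := ℂ) (φ := fun _ : Fin m => H) j))) ∘L
    ((PiLp.continuousLinearEquiv 2 ℂ (fun _ : Fin m => H)) :
      PiLp 2 (fun _ : Fin m => H) →L[ℂ] (∀ _ : Fin m, H))

/-- A system of matrix norms on a complex vector space `V`: one function on `M_m(V)` for each `m`,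
with values in `[0, ∞]`. -/
abbrev MatNorms (V : Type*) := ∀ m : ℕ, Matrix (Fin m) (Fin m) V → ℝ≥0∞

/-- The matrix norms of a concrete operator space `E ⊆ B(H)`: an element of `M_m(E)` is normed as
an operator on `H^m`. -/
noncomputable def opNorms {H : Type*} [NormedAddCommGroup H] [InnerProductSpace ℂ H]
    (E : Submodule ℂ (H →L[ℂ] H)) : MatNorms E :=
  fun _ X => ‖opMat (X.map (fun T : E => (T : H →L[ℂ] H)))‖ₑ

/-- The matrix norms of the C*-algebra `M_n = B(ℓ₂ⁿ)`: an element of `M_m(M_n)` is normed as a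
`(mn) × (mn)` matrix (operator norm on ℓ₂). -/
noncomputable def matNorms (n : ℕ) : MatNorms (Matrix (Fin n) (Fin n) ℂ) :=
  fun m X => ‖Matrix.comp (Fin m) (Fin m) (Fin n) (Fin n) ℂ X‖ₑ

/-- The completely bounded norm of a linear map (in `[0, ∞]`). -/
noncomputable def cbNorm {V W : Type*} [AddCommGroup V] [Module ℂ V] [AddCommGroup W] [Module ℂ W]
    (N : MatNorms V) (N' : MatNorms W) (u : V →ₗ[ℂ] W) : ℝ≥0∞ :=
  ⨆ (m : ℕ) (X : Matrix (Fin m) (Fin m) V) (_ : N m X ≤ 1), N' m (X.map u)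

/-- A matrix of functionals, as a linear map into `M_m`. -/
noncomputable def dualMap {V : Type*} [AddCommGroup V] [Module ℂ V] {m : ℕ}
    (F : Matrix (Fin m) (Fin m) (Module.Dual ℂ V)) : V →ₗ[ℂ] Matrix (Fin m) (Fin m) ℂ where
  toFun x := Matrix.of fun i j => F i j x
  map_add' x y := by ext i j; simp
  map_smul' c x := by ext i j; simp

/-- The matrix norms of the operator space dual `E*` : `M_m(E*) = CB(E, M_m)`. -/
noncomputable def dualNorms {V : Type*} [AddCommGroup V] [Module ℂ V] (N : MatNorms V) :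
    MatNorms (Module.Dual ℂ V) :=
  fun m F => cbNorm N (matNorms m) (dualMap F)

/-- The completely bounded Banach-Mazur distance. -/
noncomputable def dcb {V W : Type*} [AddCommGroup V] [Module ℂ V] [AddCommGroup W] [Module ℂ W]
    (N : MatNorms V) (N' : MatNorms W) : ℝ≥0∞ :=
  ⨅ u : V ≃ₗ[ℂ] W, cbNorm N N' (u : V →ₗ[ℂ] W) * cbNorm N' N (u.symm : W →ₗ[ℂ] V)

/-- The Hilbert space `ℓ₂`. -/
noncomputable abbrev Ell2 := lp (fun _ : ℕ => ℂ) 2

/-- `d_{SK}(E)`: the infimum of `d_cb(E, F)` over the subspaces `F` of `K(ℓ₂)`. -/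
noncomputable def dSK {V : Type*} [AddCommGroup V] [Module ℂ V] (N : MatNorms V) : ℝ≥0∞ :=
  ⨅ (F : Submodule ℂ (Ell2 →L[ℂ] Ell2)) (_ : ∀ T ∈ F, IsCompactOperator T), dcb N (opNorms F)

/-- The norm of a linear map between normed spaces (in `[0, ∞]`). -/
noncomputable def mapNorm {V W : Type*} [SeminormedAddCommGroup V] [Module ℂ V]
    [SeminormedAddCommGroup W] [Module ℂ W] (u : V →ₗ[ℂ] W) : ℝ≥0∞ :=
  ⨆ (x : V) (_ : ‖x‖ ≤ 1), ‖u x‖ₑ

/-- The Banach-Mazur distance of `E` to the Hilbert space `ℓ₂ⁿ` of the same dimension. -/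
noncomputable def distHilbert {H : Type*} [NormedAddCommGroup H] [InnerProductSpace ℂ H]
    (E : Submodule ℂ (H →L[ℂ] H)) : ℝ≥0∞ :=
  ⨅ u : E ≃ₗ[ℂ] EuclideanSpace ℂ (Fin (Module.finrank ℂ E)),
    mapNorm (u : E →ₗ[ℂ] EuclideanSpace ℂ (Fin (Module.finrank ℂ E))) *
      mapNorm (u.symm : EuclideanSpace ℂ (Fin (Module.finrank ℂ E)) →ₗ[ℂ] E)

/-- The constant `c*`. -/
noncomputable def cStar : ℝ≥0∞ :=
  ⨆ (H : Type) (_ : NormedAddCommGroup H) (_ : InnerProductSpace ℂ H) (_ : CompleteSpace H)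
    (E : Submodule ℂ (H →L[ℂ] H)) (_ : FiniteDimensional ℂ E) (_ : dSK (opNorms E) = 1)
    (_ : dSK (dualNorms (opNorms E)) = 1), distHilbert E

end Pool.Agent.H33.OS
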