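import Pool.Agent.H33.OS.Base

/-!
# `d_SK ≥ 1` and the dual norms in coordinates (module R2cd of THEOREM OS, helper19)
-/

open scoped ENNReal
open scoped Matrix.Norms.L2Operator
open scoped Kronecker ComplexOrder

namespace Pool.Agent.H33.OS

open Matrix

theorem dc_opMat_apply {H : Type*} [NormedAddCommGroup H] [InnerProductSpace ℂ H] {m : ℕ}
    (T : Matrix (Fin m) (Fin m) (H →L[ℂ] H)) (v : PiLp 2 (fun _ : Fin m => H)) (i : Fin m) :
    (opMat T v) i = ∑ j, T i j (v j) := by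
  simp [opMat]

theorem dc_opMat_smul {H : Type*} [NormedAddCommGroup H] [InnerProductSpace ℂ H] {m : ℕ}
    (c : ℂ) (T : Matrix (Fin m) (Fin m) (H →L[ℂ] H)) : opMat (c • T) = c • opMat T := by
  ext v i
  rw [dc_opMat_apply]
  simp only [_root_.smul_apply, PiLp.smul_apply, Matrix.smul_apply]
  rw [dc_opMat_apply, Finset.smul_sum]

theorem dc_aux1 {E : Type*} [NormedAddCommGroup E] [NormedSpace ℂ E] (c : ℝ) (hc : 0 < c)
    (T : E →L[ℂ] E) : ‖(c : ℂ) • T‖ₑ = ENNReal.ofReal c * ‖T‖ₑ := by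
  rw [← ofReal_norm, ← ofReal_norm, norm_smul, Complex.norm_real,
    Real.norm_of_nonneg hc.le, ENNReal.ofReal_mul hc.le]

theorem dc_aux2 {E : Type*} [NormedAddCommGroup E] [NormedSpace ℂ E]
    (T : E →L[ℂ] E) (h : ‖T‖ₑ = 0) : T = 0 := by
  rw [← ofReal_norm, ENNReal.ofReal_eq_zero] at h
  exact norm_eq_zero.1 (le_antisymm h (norm_nonneg _))

theorem dc_opNorms_smul {H : Type*} [NormedAddCommGroup H] [InnerProductSpace ℂ H]
    (F : Submodule ℂ (H →L[ℂ] H)) (m : ℕ) (c : ℝ) (hc : 0 < c) (Y : Matrix (Fin m) (Fin m) F) :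
    opNorms F m ((c : ℂ) • Y) = ENNReal.ofReal c * opNorms F m Y := by
  have h : ((c : ℂ) • Y).map (fun T : F => (T : H →L[ℂ] H)) =
      (c : ℂ) • Y.map (fun T : F => (T : H →L[ℂ] H)) := by
    ext i j : 2
    simp
  unfold opNorms
  rw [h, dc_opMat_smul]
  exact dc_aux1 c hc _

theorem dc_opNorms_one_eq_zero {H : Type*} [NormedAddCommGroup H] [InnerProductSpace ℂ H]
    (F : Submodule ℂ (H →L[ℂ] H)) (Y : Matrix (Fin 1) (Fin 1) F) (h : opNorms F 1 Y = 0) :
    Y = 0 := by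
  unfold opNorms at h
  have h : opMat (Y.map (fun T : F => (T : H →L[ℂ] H))) = 0 := dc_aux2 _ h
  refine Matrix.ext fun i j => Subtype.ext (ContinuousLinearMap.ext fun w => ?_)
  have h2 : (opMat (Y.map (fun T : F => (T : H →L[ℂ] H)))
      ((WithLp.equiv 2 (Fin 1 → H)).symm (fun _ => w))) i = 0 := by
    rw [h]; simp
  rw [dc_opMat_apply] at h2
  have hj : j = 0 := Subsingleton.elim _ _
  simpa [hj] using h2

/-- R2c: `d_SK ≥ 1` for every homogeneous system of matrix norms which has an element with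
finite nonzero norm in level one. -/
theorem one_le_dSK {V : Type} [AddCommGroup V] [Module ℂ V] (N : MatNorms V)
    (hN : ∀ (c : ℝ) (_ : 0 < c) (X : Matrix (Fin 1) (Fin 1) V),
      N 1 ((c : ℂ) • X) = ENNReal.ofReal c * N 1 X)
    (X : Matrix (Fin 1) (Fin 1) V) (h0 : N 1 X ≠ 0) (h1 : N 1 X ≠ ∞) : 1 ≤ dSK N := by
  refine le_iInf fun F => le_iInf fun _ => le_iInf fun u => ?_
  -- normalise `X`
  obtain ⟨a, ha, haX⟩ : ∃ a : ℝ, 0 < a ∧ N 1 X = ENNReal.ofReal a :=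
    ⟨(N 1 X).toReal, ENNReal.toReal_pos h0 h1, (ENNReal.ofReal_toReal h1).symm⟩
  set X' : Matrix (Fin 1) (Fin 1) V := ((a⁻¹ : ℝ) : ℂ) • X with hX'
  have hNX' : N 1 X' = 1 := by
    rw [hX', hN _ (inv_pos.2 ha), haX, ← ENNReal.ofReal_mul (inv_pos.2 ha).le,
      inv_mul_cancel₀ ha.ne', ENNReal.ofReal_one]
  set Y : Matrix (Fin 1) (Fin 1) F := X'.map u with hY
  have hb1 : opNorms F 1 Y ≤ cbNorm N (opNorms F) (u : V →ₗ[ℂ] F) := by
    unfold cbNorm
    refine le_iSup_of_le 1 (le_iSup_of_le X' (le_iSup_of_le hNX'.le ?_))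
    exact le_rfl
  have hb0 : opNorms F 1 Y ≠ 0 := by
    intro h
    have hY0 := dc_opNorms_one_eq_zero F Y h
    have hX0 : X' = 0 := by
      ext i j
      have h3 : u (X' i j) = 0 := by
        have h4 := congrFun (congrFun hY0 i) j
        simpa [hY] using h4
      simpa using h3
    rw [hX0] at hNX'
    have h5 := hN 2 (by norm_num) 0
    rw [smul_zero, hNX', mul_one] at h5
    have h6 : ENNReal.ofReal 1 = ENNReal.ofReal 2 := by rw [ENNReal.ofReal_one]; exact h5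
    have h7 := (ENNReal.ofReal_eq_ofReal_iff (by norm_num) (by norm_num)).1 h6
    norm_num at h7
  have hbt : opNorms F 1 Y ≠ ∞ := by
    unfold opNorms
    exact enorm_ne_top
  obtain ⟨b, hb, hbY⟩ : ∃ b : ℝ, 0 < b ∧ opNorms F 1 Y = ENNReal.ofReal b :=
    ⟨(opNorms F 1 Y).toReal, ENNReal.toReal_pos hb0 hbt, (ENNReal.ofReal_toReal hbt).symm⟩
  have hY1 : opNorms F 1 (((b⁻¹ : ℝ) : ℂ) • Y) = 1 := by
    rw [dc_opNorms_smul _ _ _ (inv_pos.2 hb), hbY, ← ENNReal.ofReal_mul (inv_pos.2 hb).le,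
      inv_mul_cancel₀ hb.ne', ENNReal.ofReal_one]
  have hb2 : ENNReal.ofReal b⁻¹ ≤ cbNorm (opNorms F) N (u.symm : F →ₗ[ℂ] V) := by
    have h8 : (((b⁻¹ : ℝ) : ℂ) • Y).map (u.symm : F →ₗ[ℂ] V) = ((b⁻¹ : ℝ) : ℂ) • X' := by
      ext i j
      simp [hY]
    have h9 : N 1 ((((b⁻¹ : ℝ) : ℂ) • Y).map (u.symm : F →ₗ[ℂ] V)) = ENNReal.ofReal b⁻¹ := by
      rw [h8, hN _ (inv_pos.2 hb), hNX', mul_one]
    unfold cbNorm
    rw [← h9]
    exact le_iSup_of_le 1 (le_iSup_of_le (((b⁻¹ : ℝ) : ℂ) • Y) (le_iSup_of_le hY1.le le_rfl))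
  calc (1 : ℝ≥0∞) = ENNReal.ofReal b * ENNReal.ofReal b⁻¹ := by
        rw [← ENNReal.ofReal_mul hb.le, mul_inv_cancel₀ hb.ne', ENNReal.ofReal_one]
    _ ≤ _ := by
        refine mul_le_mul' ?_ hb2
        rw [← hbY]
        exact hb1

/-- the coordinates of the dual space -/
noncomputable def dcE {κ V : Type} [Fintype κ] [DecidableEq κ] [AddCommGroup V] [Module ℂ V]
    (e : (κ → ℂ) ≃ₗ[ℂ] V) : (κ → ℂ) ≃ₗ[ℂ] Module.Dual ℂ V :=
  ((Pi.basisFun ℂ κ).toDualEquiv).trans e.symm.dualMap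

theorem dcE_apply {κ V : Type} [Fintype κ] [DecidableEq κ] [AddCommGroup V] [Module ℂ V]
    (e : (κ → ℂ) ≃ₗ[ℂ] V) (a z : κ → ℂ) : dcE e a (e z) = ∑ k, a k * z k := by
  simp only [dcE, LinearEquiv.trans_apply, LinearEquiv.dualMap_apply, LinearEquiv.symm_apply_apply,
    Module.Basis.toDualEquiv_apply]
  have h1 : ((Pi.basisFun ℂ κ).toDual a) z =
      ∑ k, z k * ((Pi.basisFun ℂ κ).toDual a) (Pi.basisFun ℂ κ k) := by
    conv_lhs => rw [← (Pi.basisFun ℂ κ).sum_repr z]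
    simp
  rw [h1]
  refine Finset.sum_congr rfl fun k _ => ?_
  rw [Module.Basis.toDual_apply_left]
  simp [mul_comm]

/-- R2d: the dual norms in coordinates: the functional matrix with values `U k i j` on the basis
vector `e (Pi.single k 1)`. -/
theorem dual_coord {κ V : Type} [Fintype κ] [DecidableEq κ] [AddCommGroup V] [Module ℂ V]
    (N : MatNorms V) (e : (κ → ℂ) ≃ₗ[ℂ] V) :
    ∃ e' : (κ → ℂ) ≃ₗ[ℂ] Module.Dual ℂ V, ∀ (m : ℕ) (U : κ → Matrix (Fin m) (Fin m) ℂ),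
      dualNorms N m (Matrix.of fun i j => e' (fun k => U k i j)) =
        ⨆ (p : ℕ) (Z : κ → Matrix (Fin p) (Fin p) ℂ)
          (_ : N p (Matrix.of fun i j => e (fun k => Z k i j)) ≤ 1), ‖pair Z U‖ₑ := by
  refine ⟨dcE e, fun m U => ?_⟩
  have key : ∀ (p : ℕ) (Z : κ → Matrix (Fin p) (Fin p) ℂ),
      matNorms m p ((Matrix.of fun i j => e (fun k => Z k i j)).map
        (dualMap (Matrix.of fun i j => dcE e (fun k => U k i j)))) = ‖pair Z U‖ₑ := by
    intro p Z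
    unfold matNorms
    congr 1
    ext ⟨i, a⟩ ⟨j, b⟩
    simp only [Matrix.comp_apply, Matrix.map_apply, Matrix.of_apply, dualMap,
      LinearMap.coe_mk, AddHom.coe_mk, dcE_apply, pair, Matrix.sum_apply, Matrix.kroneckerMap_apply]
    exact Finset.sum_congr rfl fun k _ => mul_comm _ _
  unfold dualNorms cbNorm
  refine iSup_congr fun p => ?_
  apply le_antisymm
  · refine iSup_le fun X => iSup_le fun hX => ?_
    have hXe : X = Matrix.of fun i j => e (fun k => e.symm (X i j) k) := by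
      ext i j
      simp
    refine le_iSup_of_le (fun k => Matrix.of fun i j => e.symm (X i j) k) ?_
    have h2 : (Matrix.of fun i j => e (fun k => (Matrix.of fun i j => e.symm (X i j) k) i j)) = X := by
      ext i j
      simp
    refine le_iSup_of_le (by rw [h2]; exact hX) ?_
    rw [← key, h2]
  · refine iSup_le fun Z => iSup_le fun hZ => ?_
    rw [← key]
    exact le_iSup_of_le _ (le_iSup_of_le hZ le_rfl)

end Pool.Agent.H33.OS
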