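import Pool.Agent.H33.OS.DualCoord

/-!
# The dual matrix norms are homogeneous (helper19, for THEOREM OS)
-/

open scoped ENNReal
open scoped Matrix.Norms.L2Operator
open scoped Kronecker ComplexOrder

namespace Pool.Agent.H33.OS

open Matrix

theorem dualNorms_smul {V : Type*} [AddCommGroup V] [Module ℂ V] (N : MatNorms V) (m : ℕ)
    (c : ℝ) (hc : 0 < c) (F : Matrix (Fin m) (Fin m) (Module.Dual ℂ V)) :
    dualNorms N m ((c : ℂ) • F) = ENNReal.ofReal c * dualNorms N m F := by
  have key : ∀ (p : ℕ) (X : Matrix (Fin p) (Fin p) V),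
      matNorms m p (X.map (dualMap ((c : ℂ) • F))) =
        ENNReal.ofReal c * matNorms m p (X.map (dualMap F)) := by
    intro p X
    have h : Matrix.comp (Fin p) (Fin p) (Fin m) (Fin m) ℂ (X.map (dualMap ((c : ℂ) • F))) =
        (c : ℂ) • Matrix.comp (Fin p) (Fin p) (Fin m) (Fin m) ℂ (X.map (dualMap F)) := by
      ext ⟨i, a⟩ ⟨j, b⟩
      simp [Matrix.comp_apply, dualMap]
    unfold matNorms
    rw [h, ← ofReal_norm, ← ofReal_norm, norm_smul, Complex.norm_real,
      Real.norm_of_nonneg hc.le, ENNReal.ofReal_mul hc.le]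
  unfold dualNorms cbNorm
  simp only [key, ENNReal.mul_iSup]

end Pool.Agent.H33.OS
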