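import Pool.Agent.H33.OS.Base

/-!
# A linearly independent tuple of matrices spans a subspace of `K(ℓ₂)` (MP_f82f05_an)
-/

open scoped ENNReal
open scoped Matrix.Norms.L2Operator
open scoped Kronecker ComplexOrder

namespace Pool.Agent.H33.OS

open Matrix

namespace Embed

/-- The restriction of a sequence to its first `K` terms. -/
noncomputable def restr (K : ℕ) : Ell2 →ₗ[ℂ] EuclideanSpace ℂ (Fin K) where
  toFun f := WithLp.toLp 2 (fun a : Fin K => f a)
  map_add' f g := by ext a; simp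
  map_smul' c f := by ext a; simp

@[simp] lemma restr_apply (K : ℕ) (f : Ell2) (a : Fin K) : restr K f a = f a := rfl

/-- The extension by zero of a vector of `ℂ^K` to a sequence. -/
noncomputable def extd (K : ℕ) : EuclideanSpace ℂ (Fin K) →ₗ[ℂ] Ell2 where
  toFun v := ∑ a : Fin K, lp.single 2 (a : ℕ) (v a)
  map_add' v w := by
    rw [← Finset.sum_add_distrib]
    refine Finset.sum_congr rfl fun a _ => ?_
    simp [lp.single_add]
  map_smul' c v := by
    simp only [RingHom.id_apply, Finset.smul_sum]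
    refine Finset.sum_congr rfl fun a _ => ?_
    rw [← lp.single_smul]
    rfl

lemma extd_apply (K : ℕ) (v : EuclideanSpace ℂ (Fin K)) (a : Fin K) : extd K v (a : ℕ) = v a := by
  show ((∑ b : Fin K, lp.single 2 (b : ℕ) (v b) : Ell2) : ℕ → ℂ) a = v a
  rw [lp.coeFn_sum, Finset.sum_apply]
  rw [Finset.sum_eq_single a]
  · simp
  · intro b _ hb
    rw [lp.coeFn_single]
    have : (a : ℕ) ≠ b := fun h => hb (Fin.ext h.symm)
    exact Pi.single_eq_of_ne this _
  · intro h; exact absurd (Finset.mem_univ _) h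

lemma restr_extd (K : ℕ) (v : EuclideanSpace ℂ (Fin K)) : restr K (extd K v) = v := by
  ext a
  exact extd_apply K v a

lemma norm_restr_le (K : ℕ) (f : Ell2) : ‖restr K f‖ ≤ ‖f‖ := by
  have h2 : (0 : ℝ) < (2 : ℝ≥0∞).toReal := by norm_num
  have h := lp.sum_rpow_le_norm_rpow h2 f (Finset.range K)
  have h3 : ‖restr K f‖ ^ 2 ≤ ‖f‖ ^ 2 := by
    rw [EuclideanSpace.norm_sq_eq]
    simp only [ENNReal.toReal_ofNat, Real.rpow_ofNat] at h
    rw [← Fin.sum_univ_eq_sum_range (fun i => ‖f i‖ ^ 2) K] at h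
    exact h
  exact le_of_sq_le_sq h3 (norm_nonneg _)

lemma norm_extd (K : ℕ) (v : EuclideanSpace ℂ (Fin K)) : ‖extd K v‖ = ‖v‖ := by
  have h2 : (0 : ℝ) < (2 : ℝ≥0∞).toReal := by norm_num
  have h := lp.norm_sum_single (E := fun _ : ℕ => ℂ) h2
    (fun i => if h : i < K then v ⟨i, h⟩ else 0) (Finset.range K)
  simp only [ENNReal.toReal_ofNat, Real.rpow_ofNat] at h
  have e1 : (∑ i ∈ Finset.range K, lp.single (E := fun _ : ℕ => ℂ) 2 i
      (if h : i < K then v ⟨i, h⟩ else 0)) = extd K v := by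
    rw [← Fin.sum_univ_eq_sum_range (fun i => lp.single (E := fun _ : ℕ => ℂ) 2 i
      (if h : i < K then v ⟨i, h⟩ else 0)) K]
    show _ = ∑ a : Fin K, lp.single (E := fun _ : ℕ => ℂ) 2 (a : ℕ) (v a)
    refine Finset.sum_congr rfl fun a _ => ?_
    simp
  rw [e1] at h
  rw [← Fin.sum_univ_eq_sum_range (fun i => ‖(if h : i < K then v ⟨i, h⟩ else 0 : ℂ)‖ ^ 2) K] at h
  have h3 : ‖extd K v‖ ^ 2 = ‖v‖ ^ 2 := by
    rw [h, EuclideanSpace.norm_sq_eq]
    refine Finset.sum_congr rfl fun a _ => ?_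
    simp
  exact (sq_eq_sq₀ (norm_nonneg _) (norm_nonneg _)).1 h3

/-- The finite rank operator on `ℓ₂` with matrix `M`. -/
noncomputable def fr (K : ℕ) : Matrix (Fin K) (Fin K) ℂ →ₗ[ℂ] (Ell2 →L[ℂ] Ell2) where
  toFun M := ((extd K).toContinuousLinearMap) ∘L (toEuclideanCLM (n := Fin K) (𝕜 := ℂ) M) ∘L
    ((restr K).mkContinuous 1 (fun f => by simpa using norm_restr_le K f))
  map_add' M N := by
    ext1 f
    simp
  map_smul' c M := by
    ext1 f
    simp

lemma fr_apply (K : ℕ) (M : Matrix (Fin K) (Fin K) ℂ) (f : Ell2) :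
    fr K M f = extd K (toEuclideanCLM (n := Fin K) (𝕜 := ℂ) M (restr K f)) := rfl

lemma fr_injective (K : ℕ) : Function.Injective (fr K) := by
  intro M N h
  apply (toEuclideanCLM (n := Fin K) (𝕜 := ℂ)).injective
  ext1 v
  have h1 : fr K M (extd K v) = fr K N (extd K v) := by rw [h]
  rw [fr_apply, fr_apply, restr_extd] at h1
  have h2 := congrArg (restr K) h1
  rwa [restr_extd, restr_extd] at h2

lemma fr_compact (K : ℕ) (M : Matrix (Fin K) (Fin K) ℂ) : IsCompactOperator (fr K M) := by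
  have h : IsCompactOperator (toEuclideanCLM (n := Fin K) (𝕜 := ℂ) M) :=
    isCompactOperator_of_locallyCompactSpace_dom _
  exact (h.comp_clm ((restr K).mkContinuous 1
    (fun f => by simpa using norm_restr_le K f))).clm_comp ((extd K).toContinuousLinearMap)

/-- The restriction on `ℓ₂^m`. -/
noncomputable def restrM (K m : ℕ) (w : PiLp 2 (fun _ : Fin m => Ell2)) :
    EuclideanSpace ℂ (Fin m × Fin K) :=
  WithLp.toLp 2 (fun p => restr K (w p.1) p.2)

/-- The extension on `(ℂ^K)^m`. -/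
noncomputable def extdM (K m : ℕ) (w : EuclideanSpace ℂ (Fin m × Fin K)) :
    PiLp 2 (fun _ : Fin m => Ell2) :=
  WithLp.toLp 2 (fun i => extd K (WithLp.toLp 2 (fun a => w (i, a))))

lemma restrM_extdM (K m : ℕ) (w : EuclideanSpace ℂ (Fin m × Fin K)) :
    restrM K m (extdM K m w) = w := by
  ext p
  show restr K (extd K (WithLp.toLp 2 (fun a => w (p.1, a)))) p.2 = w p
  rw [restr_extd]

lemma norm_restrM_le (K m : ℕ) (w : PiLp 2 (fun _ : Fin m => Ell2)) :
    ‖restrM K m w‖ ≤ ‖w‖ := by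
  refine le_of_sq_le_sq ?_ (norm_nonneg _)
  rw [EuclideanSpace.norm_sq_eq, PiLp.norm_sq_eq_of_L2, Fintype.sum_prod_type]
  refine Finset.sum_le_sum fun i _ => ?_
  have h := norm_restr_le K (w i)
  have h2 : ‖restr K (w i)‖ ^ 2 ≤ ‖w i‖ ^ 2 := by gcongr
  rw [EuclideanSpace.norm_sq_eq] at h2
  exact h2

lemma norm_extdM (K m : ℕ) (w : EuclideanSpace ℂ (Fin m × Fin K)) :
    ‖extdM K m w‖ = ‖w‖ := by
  refine (sq_eq_sq₀ (norm_nonneg _) (norm_nonneg _)).1 ?_
  rw [EuclideanSpace.norm_sq_eq, PiLp.norm_sq_eq_of_L2, Fintype.sum_prod_type]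
  refine Finset.sum_congr rfl fun i _ => ?_
  have h := norm_extd K (WithLp.toLp 2 (fun a => w (i, a)))
  have h2 : ‖extd K (WithLp.toLp 2 (fun a => w (i, a)))‖ ^ 2 =
    ‖(WithLp.toLp 2 (fun a => w (i, a)) : EuclideanSpace ℂ (Fin K))‖ ^ 2 := by rw [h]
  rw [EuclideanSpace.norm_sq_eq] at h2
  exact h2

lemma opMat_apply {H : Type*} [NormedAddCommGroup H] [InnerProductSpace ℂ H] {m : ℕ}
    (T : Matrix (Fin m) (Fin m) (H →L[ℂ] H)) (w : PiLp 2 (fun _ : Fin m => H)) (i : Fin m) :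
    opMat T w i = ∑ j, T i j (w j) := by
  simp [opMat]

lemma opMat_fr (K m : ℕ) (M : Matrix (Fin m × Fin K) (Fin m × Fin K) ℂ)
    (w : PiLp 2 (fun _ : Fin m => Ell2)) :
    opMat (Matrix.of fun i j => fr K (Matrix.of fun a b => M (i, a) (j, b))) w =
      extdM K m (toEuclideanCLM (n := Fin m × Fin K) (𝕜 := ℂ) M (restrM K m w)) := by
  ext1 i
  rw [opMat_apply]
  show ∑ j, extd K (toEuclideanCLM (n := Fin K) (𝕜 := ℂ) (Matrix.of fun a b => M (i, a) (j, b))
    (restr K (w j))) = extd K (WithLp.toLp 2 (fun a => (M *ᵥ (fun p => restr K (w p.1) p.2)) (i, a)))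
  rw [← map_sum]
  congr 1
  ext a
  rw [WithLp.ofLp_sum, Finset.sum_apply]
  simp only [ofLp_toEuclideanCLM, mulVec, dotProduct, Fintype.sum_prod_type, Matrix.of_apply]

lemma norm_opMat_fr (K m : ℕ) (M : Matrix (Fin m × Fin K) (Fin m × Fin K) ℂ) :
    ‖opMat (Matrix.of fun i j => fr K (Matrix.of fun a b => M (i, a) (j, b)))‖ = ‖M‖ := by
  apply le_antisymm
  · refine ContinuousLinearMap.opNorm_le_bound _ (norm_nonneg _) fun w => ?_
    rw [opMat_fr, norm_extdM]
    calc _ ≤ ‖toEuclideanCLM (n := Fin m × Fin K) (𝕜 := ℂ) M‖ * ‖restrM K m w‖ :=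
          ContinuousLinearMap.le_opNorm _ _
      _ ≤ ‖M‖ * ‖w‖ := by
          rw [l2_opNorm_toEuclideanCLM]
          exact mul_le_mul_of_nonneg_left (norm_restrM_le K m w) (norm_nonneg _)
  · rw [← l2_opNorm_toEuclideanCLM M]
    refine ContinuousLinearMap.opNorm_le_bound _ (norm_nonneg _) fun v => ?_
    rw [← norm_extdM K m (toEuclideanCLM (n := Fin m × Fin K) (𝕜 := ℂ) M v)]
    nth_rewrite 1 [← restrM_extdM K m v]
    rw [← opMat_fr, ← norm_extdM K m v]
    exact ContinuousLinearMap.le_opNorm _ _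

end Embed

open Embed in
/-- R2a a linearly independent tuple of matrices spans a subspace of `K(ℓ₂)`. -/
theorem embed {κ : Type} [Fintype κ] {K : ℕ} (z : κ → Matrix (Fin K) (Fin K) ℂ)
    (hli : LinearIndependent ℂ z) :
    ∃ (F : Submodule ℂ (Ell2 →L[ℂ] Ell2)) (_ : ∀ T ∈ F, IsCompactOperator T)
      (f : (κ → ℂ) ≃ₗ[ℂ] F), ∀ (m : ℕ) (Z : κ → Matrix (Fin m) (Fin m) ℂ),
        opNorms F m (Matrix.of fun i j => f (fun k => Z k i j)) = ‖pair Z z‖ₑ := by
  classical
  set g : (κ → ℂ) →ₗ[ℂ] (Ell2 →L[ℂ] Ell2) := (fr K) ∘ₗ (Fintype.linearCombination ℂ z) with hg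
  have hinj : Function.Injective g := by
    rw [hg, LinearMap.coe_comp]
    refine (fr_injective K).comp ?_
    exact linearIndependent_iff_injective_fintypeLinearCombination.1 hli
  refine ⟨LinearMap.range g, ?_, LinearEquiv.ofInjective g hinj, ?_⟩
  · rintro T ⟨x, rfl⟩
    exact fr_compact K _
  · intro m Z
    rw [opNorms, ← ofReal_norm, ← ofReal_norm, ← norm_opMat_fr K m (pair Z z)]
    congr 3
    ext1 i j
    simp only [Matrix.map_apply, Matrix.of_apply, LinearEquiv.ofInjective_apply]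
    show fr K (Fintype.linearCombination ℂ z (fun k => Z k i j)) = _
    congr 1
    ext a b
    simp [Fintype.linearCombination_apply, pair, Matrix.sum_apply, kroneckerMap_apply]

/-- R2b (uses R2a) -/
theorem dSK_le {κ V : Type} [Fintype κ] [AddCommGroup V] [Module ℂ V] (N : MatNorms V)
    (e : (κ → ℂ) ≃ₗ[ℂ] V) {K : ℕ} (z : κ → Matrix (Fin K) (Fin K) ℂ)
    (hli : LinearIndependent ℂ z) (a : ℝ≥0∞)
    (h1 : ∀ (m : ℕ) (Z : κ → Matrix (Fin m) (Fin m) ℂ),
      ‖pair Z z‖ₑ ≤ N m (Matrix.of fun i j => e (fun k => Z k i j)))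
    (h2 : ∀ (m : ℕ) (Z : κ → Matrix (Fin m) (Fin m) ℂ),
      N m (Matrix.of fun i j => e (fun k => Z k i j)) ≤ a * ‖pair Z z‖ₑ) :
    dSK N ≤ a := by
  obtain ⟨F, hF, f, hf⟩ := embed z hli
  refine (iInf₂_le F hF).trans ?_
  refine (iInf_le _ (e.symm.trans f)).trans ?_
  have hA : cbNorm N (opNorms F) ((e.symm.trans f : V ≃ₗ[ℂ] F) : V →ₗ[ℂ] F) ≤ 1 := by
    refine iSup_le fun m => iSup_le fun X => iSup_le fun hX => ?_
    have h := hf m (fun k => Matrix.of fun i j => e.symm (X i j) k)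
    have e1 : (Matrix.of fun i j => f (fun k => (Matrix.of fun i j => e.symm (X i j) k) i j)) =
        X.map ((e.symm.trans f : V ≃ₗ[ℂ] F) : V →ₗ[ℂ] F) := by
      ext1 i j
      rfl
    rw [e1] at h
    rw [h]
    refine (h1 m _).trans ?_
    have e2 : (Matrix.of fun i j => e (fun k => (Matrix.of fun i j => e.symm (X i j) k) i j)) =
        X := by
      ext1 i j
      exact e.apply_symm_apply (X i j)
    rw [e2]
    exact hX
  have hB : cbNorm (opNorms F) N ((e.symm.trans f).symm : F →ₗ[ℂ] V) ≤ a := by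
    refine iSup_le fun m => iSup_le fun X => iSup_le fun hX => ?_
    have h := hf m (fun k => Matrix.of fun i j => f.symm (X i j) k)
    have e1 : (Matrix.of fun i j => f (fun k => (Matrix.of fun i j => f.symm (X i j) k) i j)) =
        X := by
      ext1 i j
      exact f.apply_symm_apply (X i j)
    rw [e1] at h
    have e2 : (Matrix.of fun i j => e (fun k => (Matrix.of fun i j => f.symm (X i j) k) i j)) =
        X.map ((e.symm.trans f).symm : F →ₗ[ℂ] V) := by
      ext1 i j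
      rfl
    have h3 := h2 m (fun k => Matrix.of fun i j => f.symm (X i j) k)
    rw [e2, ← h] at h3
    refine h3.trans ?_
    calc a * opNorms F m X ≤ a * 1 := by gcongr
      _ = a := mul_one a
  calc _ ≤ 1 * a := mul_le_mul' hA hB
    _ = a := one_mul a

end Pool.Agent.H33.OS
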