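import Pool.Agent.H33.OS.Seq

/-!
# The optimal test vector on the tree (MP_f82f05_an)
-/

open scoped ENNReal
open scoped Matrix.Norms.L2Operator
open scoped Kronecker ComplexOrder

namespace Pool.Agent.H33.OS

open Matrix

section energy

variable {κ : Type} [Fintype κ] {m : ℕ}

/-- The words of length `ℓ`. -/
def lvl (κ : Type) [Fintype κ] : ℕ → Finset (List κ)
  | 0 => {[]}
  | ℓ + 1 => (Finset.univ ×ˢ lvl κ ℓ).map
      ⟨fun p => p.1 :: p.2, fun p q h => by
        simp only [List.cons.injEq] at h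
        exact Prod.ext h.1 h.2⟩

theorem sum_lvl_succ {M : Type*} [AddCommMonoid M] (ℓ : ℕ) (f : List κ → M) :
    ∑ w ∈ lvl κ (ℓ + 1), f w = ∑ w ∈ lvl κ ℓ, ∑ a, f (a :: w) := by
  rw [lvl, Finset.sum_map, Finset.sum_product_right]
  rfl

theorem mem_lvl {ℓ : ℕ} {w : List κ} : w ∈ lvl κ ℓ ↔ w.length = ℓ := by
  induction ℓ generalizing w with
  | zero => simp [lvl, List.length_eq_zero_iff]
  | succ ℓ ih =>
    cases w with
    | nil => simp [lvl]
    | cons a w =>
      simp only [lvl, Finset.mem_map, Finset.mem_product, Finset.mem_univ, true_and, ih,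
        Prod.exists, List.length_cons, Nat.add_right_cancel_iff]
      constructor
      · rintro ⟨a', b, hb, h⟩
        have h' : a' :: b = a :: w := h
        rw [List.cons.injEq] at h'
        rw [← h'.2]; exact hb
      · intro h
        exact ⟨a, w, h, rfl⟩

/-- Parity of a word in the tree whose root has parity `s`. -/
def par (s : Bool) : List κ → Bool
  | [] => s
  | _ :: w => !(par s w)

variable (allow : Bool → Option κ → κ → Prop) (Z : Bool → κ → Matrix (Fin m) (Fin m) ℂ)

open Classical in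
/-- The optimal test vector. -/
noncomputable def val (k : ℕ) (s : Bool) (η : Fin m → ℂ) : List κ → (Fin m → ℂ)
  | [] => η
  | a :: w => if allow (par s w) w.head? a then
      - ((gap allow Z (k - (w.length + 1)) (!(par s w)) (some a))⁻¹ *ᵥ
        (Z (par s w) a *ᵥ val k s η w)) else 0

/-- The gap at a vertex. -/
noncomputable def vgap (k : ℕ) (s : Bool) (w : List κ) : Matrix (Fin m) (Fin m) ℂ :=
  gap allow Z (k - w.length) (par s w) w.head?

/-- One edge. -/
theorem edge_identity (k : ℕ) (s : Bool) (η : Fin m → ℂ) (w : List κ) (hw : w.length < k)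
    (hP : ∀ j < k, ∀ s t, (gap allow Z j s t).PosDef) (a : κ) (ha : allow (par s w) w.head? a) :
    2 * (star (val allow Z k s η (a :: w)) ⬝ᵥ (Z (par s w) a *ᵥ val allow Z k s η w)).re =
      - (star (val allow Z k s η (a :: w)) ⬝ᵥ
          (vgap allow Z k s (a :: w) *ᵥ val allow Z k s η (a :: w))).re
      - (star (val allow Z k s η w) ⬝ᵥ
          (eSeq allow Z (k - w.length) (par s w) a *ᵥ val allow Z k s η w)).re := by
  set v := val allow Z k s η w with hv
  set G := gap allow Z (k - (w.length + 1)) (!(par s w)) (some a) with hG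
  have hGP : G.PosDef := hP _ (by omega) _ _
  have hval : val allow Z k s η (a :: w) = - (G⁻¹ *ᵥ (Z (par s w) a *ᵥ v)) := by
    rw [val, if_pos ha]
  have hvg : vgap allow Z k s (a :: w) = G := by
    rw [vgap, hG]; simp [par]
  have hes : eSeq allow Z (k - w.length) (par s w) a =
      (Z (par s w) a)ᴴ * G⁻¹ * Z (par s w) a := by
    have : k - w.length = (k - (w.length + 1)) + 1 := by omega
    rw [this, eSeq_succ]
  have hGinv : G * G⁻¹ = 1 := Matrix.mul_nonsing_inv _ ((Matrix.isUnit_iff_isUnit_det _).mp hGP.isUnit)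
  have hGH : (G⁻¹)ᴴ = G⁻¹ := hGP.inv.isHermitian.eq
  set y := Z (par s w) a *ᵥ v with hy
  have e1 : vgap allow Z k s (a :: w) *ᵥ val allow Z k s η (a :: w) = - y := by
    rw [hvg, hval, Matrix.mulVec_neg, Matrix.mulVec_mulVec, hGinv, Matrix.one_mulVec]
  have e2 : star v ⬝ᵥ (eSeq allow Z (k - w.length) (par s w) a *ᵥ v) =
      star y ⬝ᵥ (G⁻¹ *ᵥ y) := by
    rw [hes, hy, ← Matrix.mulVec_mulVec, ← Matrix.mulVec_mulVec, Matrix.dotProduct_mulVec,
      Matrix.star_mulVec]
  have e3 : star (val allow Z k s η (a :: w)) ⬝ᵥ y = - (star y ⬝ᵥ (G⁻¹ *ᵥ y)) := by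
    rw [hval, star_neg, neg_dotProduct, Matrix.star_mulVec, hGH, ← Matrix.dotProduct_mulVec]
  rw [e1, e2, e3, dotProduct_neg, e3]
  simp only [Complex.neg_re, neg_neg]
  ring

open Classical in
/-- The edges going out of one vertex. -/
theorem vertex_identity (k : ℕ) (s : Bool) (η : Fin m → ℂ) (w : List κ) (hw : w.length < k)
    (hP : ∀ j < k, ∀ s t, (gap allow Z j s t).PosDef) :
    (∑ a, if allow (par s w) w.head? a then
      2 * (star (val allow Z k s η (a :: w)) ⬝ᵥ (Z (par s w) a *ᵥ val allow Z k s η w)).re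
      else 0) =
      - (∑ a, (star (val allow Z k s η (a :: w)) ⬝ᵥ
          (vgap allow Z k s (a :: w) *ᵥ val allow Z k s η (a :: w))).re)
      - ((star (val allow Z k s η w) ⬝ᵥ val allow Z k s η w).re -
        (star (val allow Z k s η w) ⬝ᵥ (vgap allow Z k s w *ᵥ val allow Z k s η w)).re) := by
  have h1 : vgap allow Z k s w *ᵥ val allow Z k s η w = val allow Z k s η w -
      ∑ a, if allow (par s w) w.head? a then
        eSeq allow Z (k - w.length) (par s w) a *ᵥ val allow Z k s η w else 0 := by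
    rw [vgap, gap, Matrix.sub_mulVec, Matrix.one_mulVec, Finset.sum_filter]
    congr 1
    rw [Matrix.sum_mulVec]
    refine Finset.sum_congr rfl (fun a _ => ?_)
    split_ifs <;> simp
  rw [h1, dotProduct_sub, Complex.sub_re, dotProduct_sum, Complex.re_sum]
  rw [show ∀ x y z : ℝ, -x - (y - (y - z)) = -x - z from fun x y z => by ring]
  rw [← Finset.sum_neg_distrib, ← Finset.sum_sub_distrib]
  refine Finset.sum_congr rfl (fun a _ => ?_)
  split_ifs with ha
  · exact edge_identity allow Z k s η w hw hP a ha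
  · have : val allow Z k s η (a :: w) = 0 := by rw [val, if_neg ha]
    rw [this]; simp

open Classical in
/-- The total energy of the test vector is the gap at the root. -/
theorem energy_identity (k : ℕ) (s : Bool) (η : Fin m → ℂ)
    (hP : ∀ j < k, ∀ s t, (gap allow Z j s t).PosDef) :
    (∑ ℓ ∈ Finset.range (k + 1), ∑ w ∈ lvl κ ℓ,
        (star (val allow Z k s η w) ⬝ᵥ val allow Z k s η w).re) +
      (∑ ℓ ∈ Finset.range k, ∑ w ∈ lvl κ ℓ, ∑ a, if allow (par s w) w.head? a then
        2 * (star (val allow Z k s η (a :: w)) ⬝ᵥ (Z (par s w) a *ᵥ val allow Z k s η w)).re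
        else 0) =
      (star η ⬝ᵥ (gap allow Z k s none *ᵥ η)).re := by
  set N : ℕ → ℝ := fun ℓ => ∑ w ∈ lvl κ ℓ,
        (star (val allow Z k s η w) ⬝ᵥ val allow Z k s η w).re with hN
  set P : ℕ → ℝ := fun ℓ => ∑ w ∈ lvl κ ℓ,
        (star (val allow Z k s η w) ⬝ᵥ (vgap allow Z k s w *ᵥ val allow Z k s η w)).re with hPdef
  have h1 : ∀ ℓ ∈ Finset.range k, (∑ w ∈ lvl κ ℓ, ∑ a, if allow (par s w) w.head? a then
        2 * (star (val allow Z k s η (a :: w)) ⬝ᵥ (Z (par s w) a *ᵥ val allow Z k s η w)).re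
        else 0) = - P (ℓ + 1) - (N ℓ - P ℓ) := by
    intro ℓ hℓ
    rw [Finset.mem_range] at hℓ
    have : P (ℓ + 1) = ∑ w ∈ lvl κ ℓ, ∑ a, (star (val allow Z k s η (a :: w)) ⬝ᵥ
          (vgap allow Z k s (a :: w) *ᵥ val allow Z k s η (a :: w))).re := by
      rw [hPdef]; exact sum_lvl_succ ℓ _
    rw [this, hN, hPdef]
    simp only
    rw [← Finset.sum_sub_distrib, ← Finset.sum_neg_distrib, ← Finset.sum_sub_distrib]
    refine Finset.sum_congr rfl (fun w hw => ?_)
    rw [mem_lvl] at hw
    exact vertex_identity allow Z k s η w (by omega) hP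
  rw [Finset.sum_congr rfl h1]
  have h2 : ∀ K, ∑ ℓ ∈ Finset.range K, (- P (ℓ + 1) - (N ℓ - P ℓ)) =
      P 0 - P K - ∑ ℓ ∈ Finset.range K, N ℓ := by
    intro K
    induction K with
    | zero => simp
    | succ K ih => rw [Finset.sum_range_succ, ih, Finset.sum_range_succ]; ring
  rw [h2, Finset.sum_range_succ]
  have h3 : P k = N k := by
    rw [hN, hPdef]
    refine Finset.sum_congr rfl (fun w hw => ?_)
    rw [mem_lvl] at hw
    rw [vgap, hw, Nat.sub_self, gap_zero, Matrix.one_mulVec]
  have h4 : P 0 = (star η ⬝ᵥ (gap allow Z k s none *ᵥ η)).re := by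
    rw [hPdef]
    simp [lvl, vgap, par, val]
  rw [h3, h4]
  ring

end energy

end Pool.Agent.H33.OS
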