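import Pool.Agent.H33.OS.Weak

/-!
# [H33 OS Facts] Elementary facts on the LMI sets (MP_f82f05_an)
-/

set_option autoImplicit false

open scoped ENNReal
open scoped Matrix.Norms.L2Operator
open scoped Kronecker ComplexOrder

namespace Pool.Agent.H33.OS

open Matrix

/-- the block matrix `[1, ζ; conj ζ, 1]` -/
private theorem facts_one {ι : Type} [Fintype ι] [DecidableEq ι] (ζ : ℂ) (hζ : ‖ζ‖ ≤ 1) :
    (fromBlocks (1 : Matrix ι ι ℂ) (ζ • 1) (ζ • (1 : Matrix ι ι ℂ))ᴴ 1).PosSemidef := by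
  have h1 : (1 : Matrix ι ι ℂ).PosDef := PosDef.one
  haveI : Invertible (1 : Matrix ι ι ℂ) := invertibleOne
  rw [PosDef.fromBlocks₁₁ _ _ h1]
  have h2 : (1 : Matrix ι ι ℂ) - (ζ • (1 : Matrix ι ι ℂ))ᴴ * (1 : Matrix ι ι ℂ)⁻¹ * (ζ • 1) =
      ((1 - ‖ζ‖ ^ 2 : ℝ) : ℂ) • 1 := by
    rw [inv_one, Matrix.mul_one, conjTranspose_smul, conjTranspose_one, smul_mul_smul_comm,
      Matrix.mul_one]
    have : star ζ * ζ = ((‖ζ‖ ^ 2 : ℝ) : ℂ) := by
      push_cast
      exact Complex.conj_mul' ζ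
    rw [this]
    push_cast
    rw [sub_smul, one_smul]
  rw [h2]
  apply PosSemidef.smul PosSemidef.one
  have h3 : 0 ≤ 1 - ‖ζ‖ ^ 2 := by nlinarith [norm_nonneg ζ]
  exact_mod_cast h3

/-- a block diagonal matrix with positive blocks -/
private theorem facts_diag {ι : Type} [Fintype ι] [DecidableEq ι] {X Y : Matrix ι ι ℂ}
    (hX : X.PosSemidef) (hY : Y.PosSemidef) :
    (fromBlocks X (0 : Matrix ι ι ℂ) (0 : Matrix ι ι ℂ)ᴴ Y).PosSemidef := by
  refine PosSemidef.of_dotProduct_mulVec_nonneg ?_ ?_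
  · rw [IsHermitian, fromBlocks_conjTranspose, hX.1.eq, hY.1.eq]
    simp
  · intro v
    have h1 := hX.dotProduct_mulVec_nonneg (v ∘ Sum.inl)
    have h2 := hY.dotProduct_mulVec_nonneg (v ∘ Sum.inr)
    have h3 : star v ⬝ᵥ (fromBlocks X (0 : Matrix ι ι ℂ) (0 : Matrix ι ι ℂ)ᴴ Y *ᵥ v) =
        star (v ∘ Sum.inl) ⬝ᵥ (X *ᵥ (v ∘ Sum.inl)) + star (v ∘ Sum.inr) ⬝ᵥ (Y *ᵥ (v ∘ Sum.inr)) := by
      rw [fromBlocks_mulVec]
      have e3 : star v = Sum.elim (star (v ∘ Sum.inl)) (star (v ∘ Sum.inr)) := by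
        ext i
        rcases i with i | i <;> rfl
      rw [e3, sumElim_dotProduct_sumElim]
      simp
    rw [h3]
    exact add_nonneg h1 h2

private theorem facts_zo {I ι : Type} [Fintype I] [Fintype ι] [DecidableEq ι] [DecidableEq I] (i : I)
    (p : I → Prop) [DecidablePred p] :
    (1 - ∑ i' ∈ Finset.univ.filter p, (if i' = i then (1 : Matrix ι ι ℂ) else 0)).PosSemidef := by
  rw [Finset.sum_filter]
  by_cases hp : p i
  · have : ∑ i', (if p i' then (if i' = i then (1 : Matrix ι ι ℂ) else 0) else 0) = 1 := by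
      rw [Finset.sum_eq_single i]
      · simp [hp]
      · intro b _ hb
        simp [hb]
      · simp
    rw [this, sub_self]
    exact PosSemidef.zero
  · have : ∑ i', (if p i' then (if i' = i then (1 : Matrix ι ι ℂ) else 0) else 0) = 0 := by
      apply Finset.sum_eq_zero
      intro b _
      by_cases hb : b = i
      · subst hb; simp [hp]
      · simp [hb]
    rw [this, sub_zero]
    exact PosSemidef.one

private theorem facts_not {I ι : Type} [Fintype I] [Fintype ι] [DecidableEq ι] [DecidableEq I] (i : I)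
    (p : I → Prop) [DecidablePred p] (hp : ¬ p i) :
    (1 - ∑ i' ∈ Finset.univ.filter p, (if i' = i then (1 : Matrix ι ι ℂ) else 0)) = 1 := by
  rw [Finset.sum_filter]
  have : ∑ i', (if p i' then (if i' = i then (1 : Matrix ι ι ℂ) else 0) else 0) = 0 := by
    apply Finset.sum_eq_zero
    intro b _
    by_cases hb : b = i
    · subst hb; simp [hp]
    · simp [hb]
  rw [this, sub_zero]

private theorem facts_ite {I ι : Type} [Fintype ι] [DecidableEq ι] [DecidableEq I] (i i' : I) :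
    (if i' = i then (1 : Matrix ι ι ℂ) else 0).PosSemidef := by
  split_ifs
  · exact PosSemidef.one
  · exact PosSemidef.zero

private theorem facts_all {I ι : Type} [Fintype I] [Fintype ι] [DecidableEq ι] [DecidableEq I]
    (i : I) : (1 - ∑ i', (if i' = i then (1 : Matrix ι ι ℂ) else 0)).PosSemidef := by
  rw [Finset.sum_ite_eq' Finset.univ i]
  simp only [Finset.mem_univ, if_true, sub_self]
  exact PosSemidef.zero

/-- F1: scalars. If `A i j`, then `(x_j, y_i) ↦ (1, ζ)` is in `Dom A`. -/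
theorem dom_pair {I J : Type} [Fintype I] [Fintype J] [DecidableEq I] [DecidableEq J]
    (A : I → J → Prop) (i : I) (j : J)
    (h : A i j) (ζ : ℂ) (hζ : ‖ζ‖ ≤ 1) :
    Dom A (fun k : J ⊕ I => Sum.elim (fun j' => if j' = j then (1 : Matrix (Fin 1) (Fin 1) ℂ) else 0)
      (fun i' => if i' = i then ζ • (1 : Matrix (Fin 1) (Fin 1) ℂ) else 0) k) := by
  classical
  refine ⟨fun i' => if i' = i then 1 else 0, fun j' => if j' = j then 1 else 0,
    fun i' => facts_ite i i', fun j' => facts_ite j j', facts_all i, facts_all j, ?_, ?_⟩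
  · intro j'
    simp only [Sum.elim_inl]
    by_cases hj : j' = j
    · subst hj
      rw [facts_not i _ (fun h' => h' h)]
      simp only [if_true]
      have := facts_one (ι := Fin 1) 1 (by simp)
      rw [one_smul] at this
      exact this
    · simp only [hj, if_false]
      exact facts_diag (facts_zo i _) PosSemidef.zero
  · intro i'
    simp only [Sum.elim_inr]
    by_cases hi : i' = i
    · subst hi
      rw [facts_not j _ (fun h' => h' h)]
      simp only [if_true]
      exact facts_one (ι := Fin 1) ζ hζ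
    · simp only [hi, if_false]
      exact facts_diag PosSemidef.zero (facts_zo j _)

/-- F2: scalars, one coordinate. -/
theorem dom_single {I J : Type} [Fintype I] [Fintype J] [DecidableEq I] [DecidableEq J]
    (A : I → J → Prop) (k : J ⊕ I) :
    Dom A (Pi.single k (1 : Matrix (Fin 1) (Fin 1) ℂ) : J ⊕ I → Matrix (Fin 1) (Fin 1) ℂ) := by
  classical
  have h11 := facts_one (ι := Fin 1) 1 (by simp)
  rw [one_smul] at h11
  rcases k with j | i
  · refine ⟨fun _ => 0, fun j' => if j' = j then 1 else 0,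
      fun i' => PosSemidef.zero, fun j' => facts_ite j j', ?_, facts_all j, ?_, ?_⟩
    · rw [Finset.sum_const_zero, sub_zero]
      exact PosSemidef.one
    · intro j'
      rw [Finset.sum_const_zero, sub_zero]
      by_cases hj : j' = j
      · subst hj
        simp only [Pi.single_eq_same, if_true]
        exact h11
      · have : (Sum.inl j' : J ⊕ I) ≠ Sum.inl j := fun h' => hj (Sum.inl.inj h')
        rw [Pi.single_eq_of_ne this]
        simp only [hj, if_false]
        exact facts_diag PosSemidef.one PosSemidef.zero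
    · intro i'
      have : (Sum.inr i' : J ⊕ I) ≠ Sum.inl j := by simp
      rw [Pi.single_eq_of_ne this]
      exact facts_diag PosSemidef.zero (facts_zo j _)
  · refine ⟨fun i' => if i' = i then 1 else 0, fun _ => 0,
      fun i' => facts_ite i i', fun j' => PosSemidef.zero, facts_all i, ?_, ?_, ?_⟩
    · rw [Finset.sum_const_zero, sub_zero]
      exact PosSemidef.one
    · intro j'
      have : (Sum.inl j' : J ⊕ I) ≠ Sum.inr i := by simp
      rw [Pi.single_eq_of_ne this]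
      exact facts_diag (facts_zo i _) PosSemidef.zero
    · intro i'
      rw [Finset.sum_const_zero, sub_zero]
      by_cases hi : i' = i
      · subst hi
        simp only [Pi.single_eq_same, if_true]
        exact h11
      · have : (Sum.inr i' : J ⊕ I) ≠ Sum.inr i := fun h' => hi (Sum.inr.inj h')
        rw [Pi.single_eq_of_ne this]
        simp only [hi, if_false]
        exact facts_diag PosSemidef.zero PosSemidef.one

private theorem pair_smul {κ ι ι' : Type} [Fintype κ] (a : ℂ) (Z : κ → Matrix ι ι ℂ)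
    (z : κ → Matrix ι' ι' ℂ) : pair (fun k => a • Z k) z = a • pair Z z := by
  unfold pair
  rw [Finset.smul_sum]
  apply Finset.sum_congr rfl
  intro k _
  rw [smul_kronecker]

/-- F3: the matrices `z` are almost norming. -/
theorem pair_le {I J : Type} [Fintype I] [Fintype J] (A : I → J → Prop) (r : ℝ) (hr : 0 < r) {K : ℕ}
    (z : J ⊕ I → Matrix (Fin K) (Fin K) ℂ)
    (h2 : ∀ (m : ℕ) (Z : J ⊕ I → Matrix (Fin m) (Fin m) ℂ), ‖pair Z z‖ < 1 →
        Dom A (fun k => ((r⁻¹ : ℝ) : ℂ) • Z k))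
    {ι' : Type} [Fintype ι'] [DecidableEq ι'] (z' : J ⊕ I → Matrix ι' ι' ℂ)
    (hz' : Dom (fun i j => ¬ A i j) (fun k => (z' k)ᵀ)) (m : ℕ)
    (Z : J ⊕ I → Matrix (Fin m) (Fin m) ℂ) :
    ‖pair Z z'‖ ≤ r * ‖pair Z z‖ := by
  have key : ∀ ρ : ℝ, ‖pair Z z‖ < ρ → ‖pair Z z'‖ ≤ r * ρ := by
    intro ρ hρ
    have hρ0 : 0 < ρ := lt_of_le_of_lt (norm_nonneg _) hρ
    have h1 : ‖pair (fun k => ((ρ⁻¹ : ℝ) : ℂ) • Z k) z‖ < 1 := by
      rw [pair_smul, norm_smul, Complex.norm_real, Real.norm_eq_abs, abs_of_pos (inv_pos.2 hρ0)]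
      rw [inv_mul_lt_iff₀ hρ0, mul_one]
      exact hρ
    have h3 := weak A _ z' (h2 m _ h1) hz'
    rw [pair_smul, pair_smul, norm_smul, norm_smul, Complex.norm_real, Complex.norm_real,
      Real.norm_eq_abs, Real.norm_eq_abs, abs_of_pos (inv_pos.2 hρ0), abs_of_pos (inv_pos.2 hr)] at h3
    rw [inv_mul_le_iff₀ hr, inv_mul_le_iff₀ hρ0] at h3
    linarith
  by_contra hcon
  push Not at hcon
  have h4 : ‖pair Z z‖ < ‖pair Z z'‖ / r := by
    rw [lt_div_iff₀ hr]; linarith
  obtain ⟨ρ, h5, h6⟩ := exists_between h4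
  have h7 := key ρ h5
  rw [lt_div_iff₀ hr] at h6
  linarith

/-- F4 -/
theorem linearIndependent_of_tree {I J : Type} [Fintype I] [Fintype J] (A : I → J → Prop) (r : ℝ)
    (hr : 0 < r) {K : ℕ} (z : J ⊕ I → Matrix (Fin K) (Fin K) ℂ)
    (h2 : ∀ (m : ℕ) (Z : J ⊕ I → Matrix (Fin m) (Fin m) ℂ), ‖pair Z z‖ < 1 →
        Dom A (fun k => ((r⁻¹ : ℝ) : ℂ) • Z k)) :
    LinearIndependent ℂ z := by
  classical
  rw [Fintype.linearIndependent_iff]
  intro g hg k
  set Z : J ⊕ I → Matrix (Fin 1) (Fin 1) ℂ := fun k => g k • 1 with hZ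
  have h1 : pair Z z = 0 := by
    have : pair Z z = (1 : Matrix (Fin 1) (Fin 1) ℂ) ⊗ₖ (∑ k, g k • z k) := by
      unfold pair
      ext ⟨a, b⟩ ⟨a', b'⟩
      rw [Matrix.sum_apply, kroneckerMap_apply, Matrix.sum_apply, Finset.mul_sum]
      apply Finset.sum_congr rfl
      intro k _
      have e : Z k = g k • 1 := rfl
      rw [kroneckerMap_apply, e, Matrix.smul_apply, Matrix.smul_apply, smul_eq_mul, smul_eq_mul]
      ring
    rw [this, hg, kronecker_zero]
  set z' : J ⊕ I → Matrix (Fin 1) (Fin 1) ℂ := Pi.single k 1 with hz'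
  have h3 : Dom (fun i j => ¬ A i j) (fun k => (z' k)ᵀ) := by
    have h4 := dom_single (fun i j => ¬ A i j) k
    have h5 : (fun k => (z' k)ᵀ) = z' := by
      funext k'
      rw [hz']
      by_cases hk : k' = k
      · subst hk; simp
      · rw [Pi.single_eq_of_ne hk]; simp
    rw [h5]
    exact h4
  have h4 := pair_le A r hr z h2 z' h3 1 Z
  rw [h1, norm_zero, mul_zero] at h4
  have h5 : pair Z z' = 0 := norm_le_zero_iff.1 h4
  have h6 := congrFun (congrFun h5 (0, 0)) (0, 0)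
  unfold pair at h6
  rw [Matrix.sum_apply, Finset.sum_eq_single k] at h6
  · have e : Z k = g k • 1 := rfl
    rw [kroneckerMap_apply, e, hz', Pi.single_eq_same, Matrix.smul_apply] at h6
    simpa using h6
  · intro b _ hb
    rw [kroneckerMap_apply, hz', Pi.single_eq_of_ne hb]
    simp
  · simp

private theorem facts_norm {κ : Type} [Fintype κ] [DecidableEq κ] {X W Y : Matrix κ κ ℂ}
    (h : (fromBlocks X W Wᴴ Y).PosSemidef) (hX : (1 - X).PosSemidef) (hY : (1 - Y).PosSemidef) :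
    ‖W‖ ≤ 1 := by
  have key : ∀ v : κ → ℂ, star (W *ᵥ v) ⬝ᵥ (W *ᵥ v) ≤ star v ⬝ᵥ v := by
    intro v
    set u : κ → ℂ := W *ᵥ v with hu
    have h1 := h.dotProduct_mulVec_nonneg (Sum.elim (-u) v)
    have h2 := hX.dotProduct_mulVec_nonneg u
    have h3 := hY.dotProduct_mulVec_nonneg v
    rw [fromBlocks_mulVec] at h1
    have e1 : (Sum.elim (-u) v ∘ Sum.inl : κ → ℂ) = -u := rfl
    have e2 : (Sum.elim (-u) v ∘ Sum.inr : κ → ℂ) = v := rfl
    rw [e1, e2] at h1
    have e3 : star (Sum.elim (-u) v) = Sum.elim (star (-u)) (star v) := by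
      ext i
      rcases i with i | i <;> rfl
    rw [e3, sumElim_dotProduct_sumElim] at h1
    have e4 : star v ⬝ᵥ (Wᴴ *ᵥ u) = star u ⬝ᵥ u := by
      rw [hu, dotProduct_mulVec, star_mulVec]
    rw [sub_mulVec, one_mulVec, dotProduct_sub] at h2 h3
    have e5 : star (-u) ⬝ᵥ (X *ᵥ -u + W *ᵥ v) + star v ⬝ᵥ (Wᴴ *ᵥ -u + Y *ᵥ v)
        = star u ⬝ᵥ (X *ᵥ u) - star u ⬝ᵥ u - star u ⬝ᵥ u + star v ⬝ᵥ (Y *ᵥ v) := by
      rw [mulVec_neg, mulVec_neg, dotProduct_add, dotProduct_add, dotProduct_neg, dotProduct_neg,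
        e4, star_neg, neg_dotProduct, neg_dotProduct, ← hu]
      ring
    rw [e5] at h1
    have h4 : 0 ≤ star v ⬝ᵥ v - star u ⬝ᵥ u := by
      have h5 := add_nonneg (add_nonneg h1 h2) h3
      have h6 : star u ⬝ᵥ (X *ᵥ u) - star u ⬝ᵥ u - star u ⬝ᵥ u + star v ⬝ᵥ (Y *ᵥ v)
          + (star u ⬝ᵥ u - star u ⬝ᵥ (X *ᵥ u)) + (star v ⬝ᵥ v - star v ⬝ᵥ (Y *ᵥ v))
          = star v ⬝ᵥ v - star u ⬝ᵥ u := by ring
      rwa [h6] at h5
    exact sub_nonneg.1 h4
  rw [l2_opNorm_def]
  refine ContinuousLinearMap.opNorm_le_bound _ zero_le_one fun x => ?_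
  rw [one_mul]
  have hsq : ∀ y : EuclideanSpace ℂ κ, ((‖y‖ ^ 2 : ℝ) : ℂ) = star (y.ofLp) ⬝ᵥ y.ofLp := by
    intro y
    rw [EuclideanSpace.norm_sq_eq, dotProduct]
    push_cast
    apply Finset.sum_congr rfl
    intro i _
    exact (Complex.conj_mul' (y.ofLp i)).symm
  have h1 := key x.ofLp
  have h2 : ((toEuclideanLin.trans LinearMap.toContinuousLinearMap W) x).ofLp = W *ᵥ x.ofLp := rfl
  rw [← h2, ← hsq, ← hsq] at h1
  have h3 := Complex.real_le_real.1 h1
  exact le_of_sq_le_sq h3 (norm_nonneg _)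

private theorem facts_sub {I ι : Type} [Fintype I] [Fintype ι] [DecidableEq ι]
    (c : I → Matrix ι ι ℂ) (hc : ∀ i, (c i).PosSemidef) (hC : (1 - ∑ i, c i).PosSemidef) (i : I) :
    (1 - c i).PosSemidef := by
  classical
  have h1 : 1 - c i = (1 - ∑ i, c i) + ∑ i' ∈ Finset.univ.erase i, c i' := by
    rw [← Finset.add_sum_erase Finset.univ c (Finset.mem_univ i)]
    abel
  rw [h1]
  exact hC.add (posSemidef_sum _ fun i' _ => hc i')

/-- F5 -/
theorem norm_le_one_of_dom {I J : Type} [Fintype I] [Fintype J] (A : I → J → Prop) {ι : Type}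
    [Fintype ι] [DecidableEq ι] (Z : J ⊕ I → Matrix ι ι ℂ) (hZ : Dom A Z) (k : J ⊕ I) :
    ‖Z k‖ ≤ 1 := by
  classical
  obtain ⟨c, d, hc, hd, hC, hD, hj, hi⟩ := hZ
  rcases k with j | i
  · refine facts_norm (hj j) ?_ (facts_sub d hd hD j)
    rw [sub_sub_cancel]
    exact posSemidef_sum _ fun i' _ => hc i'
  · refine facts_norm (hi i) (facts_sub c hc hC i) ?_
    rw [sub_sub_cancel]
    exact posSemidef_sum _ fun i' _ => hd i'

end Pool.Agent.H33.OS
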