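import Pool.Agent.H33.OS.Base

/-!
# Block diagonal realisation on a direct sum of the spaces `ℓ₂^(K L)` (MP_f82f05_an)
-/

open scoped ENNReal
open scoped Matrix.Norms.L2Operator
open scoped Kronecker ComplexOrder

namespace Pool.Agent.H33.OS

open Matrix

namespace Realize

/-- The `ℓ₂`-direct sum of the spaces `ℂ^(K L)`. -/
noncomputable abbrev Hs (K : ℕ → ℕ) : Type := lp (fun L : ℕ => EuclideanSpace ℂ (Fin (K L))) 2

variable {K : ℕ → ℕ}

private lemma hasSum_sq (f : Hs K) : HasSum (fun L => ‖f L‖ ^ 2) (‖f‖ ^ 2) := by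
  have h2 : (0 : ℝ) < (2 : ℝ≥0∞).toReal := by norm_num
  have h := lp.hasSum_norm h2 f
  simpa using h

private lemma memblock (A : ∀ L, Matrix (Fin (K L)) (Fin (K L)) ℂ) (hA : ∀ L, ‖A L‖ ≤ 1)
    (f : Hs K) :
    Memℓp (fun L => toEuclideanCLM (n := Fin (K L)) (𝕜 := ℂ) (A L) (f L)) 2 := by
  apply memℓp_gen
  simp only [ENNReal.toReal_ofNat, Real.rpow_ofNat]
  refine Summable.of_nonneg_of_le (fun L => by positivity) (fun L => ?_) (hasSum_sq f).summable
  have h1 : ‖toEuclideanCLM (n := Fin (K L)) (𝕜 := ℂ) (A L) (f L)‖ ≤ ‖f L‖ := by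
    refine (ContinuousLinearMap.le_opNorm _ _).trans ?_
    rw [l2_opNorm_toEuclideanCLM]
    exact mul_le_of_le_one_left (norm_nonneg _) (hA L)
  gcongr

/-- The block diagonal operator. -/
private noncomputable def blk (A : ∀ L, Matrix (Fin (K L)) (Fin (K L)) ℂ) (hA : ∀ L, ‖A L‖ ≤ 1) :
    Hs K →L[ℂ] Hs K :=
  LinearMap.mkContinuous
    { toFun := fun f => ⟨fun L => toEuclideanCLM (n := Fin (K L)) (𝕜 := ℂ) (A L) (f L),
        memblock A hA f⟩
      map_add' := fun f g => by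
        ext L a
        simp
      map_smul' := fun c f => by
        ext L a
        simp } 1 (fun f => by
      rw [one_mul]
      refine le_of_sq_le_sq ?_ (norm_nonneg _)
      refine hasSum_le (fun L => ?_) (hasSum_sq _) (hasSum_sq f)
      have h1 : ‖toEuclideanCLM (n := Fin (K L)) (𝕜 := ℂ) (A L) (f L)‖ ≤ ‖f L‖ := by
        refine (ContinuousLinearMap.le_opNorm _ _).trans ?_
        rw [l2_opNorm_toEuclideanCLM]
        exact mul_le_of_le_one_left (norm_nonneg _) (hA L)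
      show ‖toEuclideanCLM (n := Fin (K L)) (𝕜 := ℂ) (A L) (f L)‖ ^ 2 ≤ ‖f L‖ ^ 2
      gcongr)

private lemma blk_apply (A : ∀ L, Matrix (Fin (K L)) (Fin (K L)) ℂ) (hA : ∀ L, ‖A L‖ ≤ 1)
    (f : Hs K) (L : ℕ) :
    (blk A hA f) L = toEuclideanCLM (n := Fin (K L)) (𝕜 := ℂ) (A L) (f L) := rfl

/-- The block `L` of a vector of `H^m`. -/
private noncomputable def bl (m L : ℕ) (w : PiLp 2 (fun _ : Fin m => Hs K)) :
    EuclideanSpace ℂ (Fin m × Fin (K L)) :=
  WithLp.toLp 2 (fun p => (w p.1) L p.2)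

private lemma norm_bl_sq (m L : ℕ) (w : PiLp 2 (fun _ : Fin m => Hs K)) :
    ‖bl m L w‖ ^ 2 = ∑ i, ‖(w i) L‖ ^ 2 := by
  rw [EuclideanSpace.norm_sq_eq, Fintype.sum_prod_type]
  refine Finset.sum_congr rfl fun i _ => ?_
  rw [EuclideanSpace.norm_sq_eq]
  rfl

private lemma hasSum_bl (m : ℕ) (w : PiLp 2 (fun _ : Fin m => Hs K)) :
    HasSum (fun L => ‖bl m L w‖ ^ 2) (‖w‖ ^ 2) := by
  simp only [norm_bl_sq]
  rw [PiLp.norm_sq_eq_of_L2]
  exact hasSum_sum fun i _ => hasSum_sq (w i)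

private lemma norm_bl_le (m L : ℕ) (w : PiLp 2 (fun _ : Fin m => Hs K)) : ‖bl m L w‖ ≤ ‖w‖ := by
  refine le_of_sq_le_sq ?_ (norm_nonneg _)
  exact le_hasSum (hasSum_bl m w) L (fun j _ => by positivity)

/-- The vector of `H^m` with one block. -/
private noncomputable def sg (m L : ℕ) (v : EuclideanSpace ℂ (Fin m × Fin (K L))) :
    PiLp 2 (fun _ : Fin m => Hs K) :=
  WithLp.toLp 2 (fun i => lp.single 2 L (WithLp.toLp 2 (fun a => v (i, a))))

private lemma bl_sg (m L : ℕ) (v : EuclideanSpace ℂ (Fin m × Fin (K L))) :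
    bl m L (sg m L v) = v := by
  ext p
  show (lp.single (E := fun L : ℕ => EuclideanSpace ℂ (Fin (K L))) 2 L
    (WithLp.toLp 2 (fun a => v (p.1, a))) : Hs K) L p.2 = v p
  rw [lp.single_apply_self]

private lemma norm_sg (m L : ℕ) (v : EuclideanSpace ℂ (Fin m × Fin (K L))) :
    ‖sg m L v‖ = ‖v‖ := by
  refine (sq_eq_sq₀ (norm_nonneg _) (norm_nonneg _)).1 ?_
  rw [EuclideanSpace.norm_sq_eq, PiLp.norm_sq_eq_of_L2, Fintype.sum_prod_type]
  refine Finset.sum_congr rfl fun i _ => ?_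
  show ‖(lp.single (E := fun L : ℕ => EuclideanSpace ℂ (Fin (K L))) 2 L
    (WithLp.toLp 2 (fun a => v (i, a))) : Hs K)‖ ^ 2 = _
  rw [lp.norm_single (by norm_num), EuclideanSpace.norm_sq_eq]

private lemma opMat_apply' {H : Type*} [NormedAddCommGroup H] [InnerProductSpace ℂ H] {m : ℕ}
    (T : Matrix (Fin m) (Fin m) (H →L[ℂ] H)) (w : PiLp 2 (fun _ : Fin m => H)) (i : Fin m) :
    opMat T w i = ∑ j, T i j (w j) := by
  simp [opMat]

end Realize

open Realize in
/-- R1 block diagonal realisation on a direct sum of the spaces `ℓ₂^(K L)`. -/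
theorem realize {κ : Type} [Fintype κ] (K : ℕ → ℕ)
    (z : ∀ L, κ → Matrix (Fin (K L)) (Fin (K L)) ℂ) (hz : ∀ L k, ‖z L k‖ ≤ 1)
    (L₀ : ℕ) (hli : LinearIndependent ℂ (z L₀)) :
    ∃ (H : Type) (_ : NormedAddCommGroup H) (_ : InnerProductSpace ℂ H) (_ : CompleteSpace H)
      (E : Submodule ℂ (H →L[ℂ] H)) (e : (κ → ℂ) ≃ₗ[ℂ] E),
      ∀ (m : ℕ) (Z : κ → Matrix (Fin m) (Fin m) ℂ),
        opNorms E m (Matrix.of fun i j => e (fun k => Z k i j)) = ⨆ L, ‖pair Z (z L)‖ₑ := by
  classical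
  set g : (κ → ℂ) →ₗ[ℂ] (Hs K →L[ℂ] Hs K) :=
    Fintype.linearCombination ℂ (fun k => blk (fun L => z L k) (fun L => hz L k)) with hg
  have hgap : ∀ (x : κ → ℂ) (f : Hs K) (L : ℕ),
      (g x f) L = toEuclideanCLM (n := Fin (K L)) (𝕜 := ℂ) (∑ k, x k • z L k) (f L) := by
    intro x f L
    rw [hg, Fintype.linearCombination_apply, ContinuousLinearMap.sum_apply, lp.coeFn_sum,
      Finset.sum_apply, map_sum, ContinuousLinearMap.sum_apply]
    refine Finset.sum_congr rfl fun k _ => ?_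
    rw [map_smul]
    rfl
  have hinj : Function.Injective g := by
    intro x y hxy
    have h1 : (∑ k, x k • z L₀ k) = ∑ k, y k • z L₀ k := by
      apply (toEuclideanCLM (n := Fin (K L₀)) (𝕜 := ℂ)).injective
      ext1 v
      have h2 := hgap x (lp.single 2 L₀ v) L₀
      rw [hxy, hgap y (lp.single 2 L₀ v) L₀, lp.single_apply_self] at h2
      exact h2.symm
    have h3 := linearIndependent_iff_injective_fintypeLinearCombination.1 hli
    apply h3
    rw [Fintype.linearCombination_apply, Fintype.linearCombination_apply, h1]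
  refine ⟨Hs K, inferInstance, inferInstance, inferInstance, LinearMap.range g,
    LinearEquiv.ofInjective g hinj, ?_⟩
  intro m Z
  set T : Matrix (Fin m) (Fin m) (Hs K →L[ℂ] Hs K) := Matrix.of fun i j => g (fun k => Z k i j)
    with hT
  have hTE : (Matrix.of fun i j => (LinearEquiv.ofInjective g hinj) (fun k => Z k i j)).map
      (fun T : LinearMap.range g => (T : Hs K →L[ℂ] Hs K)) = T := by
    ext1 i j
    rfl
  have hbl : ∀ (w : PiLp 2 (fun _ : Fin m => Hs K)) (L : ℕ),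
      bl m L (opMat T w) =
        toEuclideanCLM (n := Fin m × Fin (K L)) (𝕜 := ℂ) (pair Z (z L)) (bl m L w) := by
    intro w L
    ext p
    obtain ⟨i, a⟩ := p
    show (opMat T w i) L a = ((pair Z (z L)) *ᵥ (fun p => (w p.1) L p.2)) (i, a)
    rw [opMat_apply', lp.coeFn_sum, Finset.sum_apply, WithLp.ofLp_sum, Finset.sum_apply]
    simp only [mulVec, dotProduct, Fintype.sum_prod_type]
    refine Finset.sum_congr rfl fun j _ => ?_
    show (g (fun k => Z k i j) (w j)) L a = _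
    rw [hgap, ofLp_toEuclideanCLM]
    simp only [mulVec, dotProduct]
    refine Finset.sum_congr rfl fun b _ => ?_
    congr 1
    simp [pair, Matrix.sum_apply, kroneckerMap_apply]
  show ‖opMat ((Matrix.of fun i j => (LinearEquiv.ofInjective g hinj) (fun k => Z k i j)).map
      (fun T : LinearMap.range g => (T : Hs K →L[ℂ] Hs K)))‖ₑ = _
  rw [hTE]
  apply le_antisymm
  · by_cases hs : (⨆ L, ‖pair Z (z L)‖ₑ) = ∞
    · rw [hs]; exact le_top
    · set S := (⨆ L, ‖pair Z (z L)‖ₑ).toReal with hS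
      have hSL : ∀ L, ‖pair Z (z L)‖ ≤ S := by
        intro L
        have h1 : ‖pair Z (z L)‖ₑ ≤ ⨆ L, ‖pair Z (z L)‖ₑ := le_iSup (fun L => ‖pair Z (z L)‖ₑ) L
        have h2 := ENNReal.toReal_mono hs h1
        rwa [toReal_enorm] at h2
      have hS0 : 0 ≤ S := ENNReal.toReal_nonneg
      have hn : ‖opMat T‖ ≤ S := by
        refine ContinuousLinearMap.opNorm_le_bound _ hS0 fun w => ?_
        refine le_of_sq_le_sq ?_ (by positivity)
        rw [mul_pow]
        refine hasSum_le (fun L => ?_) (hasSum_bl m (opMat T w)) ((hasSum_bl m w).mul_left (S ^ 2))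
        rw [hbl, ← mul_pow]
        have h1 : ‖toEuclideanCLM (n := Fin m × Fin (K L)) (𝕜 := ℂ) (pair Z (z L)) (bl m L w)‖ ≤
            S * ‖bl m L w‖ := by
          refine (ContinuousLinearMap.le_opNorm _ _).trans ?_
          rw [l2_opNorm_toEuclideanCLM]
          exact mul_le_mul_of_nonneg_right (hSL L) (norm_nonneg _)
        gcongr
      rw [← ofReal_norm, ← ENNReal.ofReal_toReal hs]
      exact ENNReal.ofReal_le_ofReal hn
  · refine iSup_le fun L => ?_
    rw [← ofReal_norm, ← ofReal_norm]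
    refine ENNReal.ofReal_le_ofReal ?_
    rw [← l2_opNorm_toEuclideanCLM (pair Z (z L))]
    refine ContinuousLinearMap.opNorm_le_bound _ (norm_nonneg _) fun v => ?_
    have h1 := hbl (sg m L v) L
    rw [bl_sg] at h1
    rw [← h1, ← norm_sg m L v]
    exact (norm_bl_le m L _).trans (ContinuousLinearMap.le_opNorm _ _)

end Pool.Agent.H33.OS
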