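import Pool.Agent.H33.OS.Tree
import Pool.Agent.H33.OS.Facts
import Pool.Agent.H33.OS.Realize
import Pool.Agent.H33.OS.Chain
import Pool.Agent.H33.OS.DualCoord
import Pool.Agent.H33.OS.Embed

/-!
# Assembly: the operator space of the relation `A` (MP_f82f05_an)
-/

open scoped ENNReal
open scoped Matrix.Norms.L2Operator
open scoped Kronecker ComplexOrder

namespace Pool.Agent.H33.OS

open Matrix

section final

theorem enorm_le_mul {α β : Type*} [SeminormedAddGroup α] [SeminormedAddGroup β] {a : α} {b : β}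
    {r : ℝ} (hr : 0 ≤ r) (h : ‖a‖ ≤ r * ‖b‖) : ‖a‖ₑ ≤ ENNReal.ofReal r * ‖b‖ₑ := by
  rw [← ofReal_norm, ← ofReal_norm, ← ENNReal.ofReal_mul hr]
  exact ENNReal.ofReal_le_ofReal h

/-- The factors. -/
noncomputable def rr (L : ℕ) : ℝ := 1 + 1 / ((L : ℝ) + 1)

theorem rr_pos (L : ℕ) : 0 < rr L := by unfold rr; positivity

theorem le_of_rr {a b : ℝ≥0∞} (h : ∀ L : ℕ, a ≤ ENNReal.ofReal (rr L) * b) : a ≤ b := by
  have h1 : Filter.Tendsto (fun L : ℕ => rr L) Filter.atTop (nhds 1) := by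
    have := (tendsto_one_div_add_atTop_nhds_zero_nat (𝕜 := ℝ)).const_add 1
    rw [add_zero] at this
    exact this
  have h2 : Filter.Tendsto (fun L : ℕ => ENNReal.ofReal (rr L)) Filter.atTop (nhds 1) := by
    have := ENNReal.tendsto_ofReal h1
    rwa [ENNReal.ofReal_one] at this
  have h3 : Filter.Tendsto (fun L : ℕ => ENNReal.ofReal (rr L) * b) Filter.atTop (nhds (1 * b)) :=
    ENNReal.Tendsto.mul_const h2 (Or.inl one_ne_zero)
  rw [one_mul] at h3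
  exact ge_of_tendsto' h3 h

variable {I J : Type} [Fintype I] [Fintype J]

/-- A sequence of detecting tuples. -/
structure Trees (A : I → J → Prop) where
  K : ℕ → ℕ
  z : ∀ L, J ⊕ I → Matrix (Fin (K L)) (Fin (K L)) ℂ
  dom : ∀ L, Dom (fun i j => ¬ A i j) (fun k => (z L k)ᵀ)
  det : ∀ (L m : ℕ) (Z : J ⊕ I → Matrix (Fin m) (Fin m) ℂ), ‖pair Z (z L)‖ < 1 →
    Dom A (fun k => (((rr L)⁻¹ : ℝ) : ℂ) • Z k)

theorem exists_trees (A : I → J → Prop) : Nonempty (Trees A) := by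
  have h := fun L : ℕ => tree A (L + 1) (Nat.succ_pos L)
  choose K z h1 h2 using h
  refine ⟨⟨K, z, h1, fun L m Z hZ => ?_⟩⟩
  have h3 := h2 L m Z hZ
  have : rr L = 1 + 1 / ((L + 1 : ℕ) : ℝ) := by unfold rr; push_cast; ring
  rw [this]
  exact h3

variable {A : I → J → Prop}

/-- The norm of the direct sum. -/
noncomputable def nrm (T : Trees A) (m : ℕ) (Z : J ⊕ I → Matrix (Fin m) (Fin m) ℂ) : ℝ≥0∞ :=
  ⨆ L, ‖pair Z (T.z L)‖ₑ

theorem nrm_le_one (T : Trees A) (m : ℕ) (Z : J ⊕ I → Matrix (Fin m) (Fin m) ℂ) (hZ : Dom A Z) :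
    nrm T m Z ≤ 1 := by
  refine iSup_le (fun L => ?_)
  have h := weak A Z (T.z L) hZ (T.dom L)
  rw [← ofReal_norm, ← ENNReal.ofReal_one]
  exact ENNReal.ofReal_le_ofReal h

theorem pair_le_rr (T : Trees A) {ι' : Type} [Fintype ι'] [DecidableEq ι']
    (z' : J ⊕ I → Matrix ι' ι' ℂ)
    (hz' : Dom (fun i j => ¬ A i j) (fun k => (z' k)ᵀ)) (m : ℕ)
    (Z : J ⊕ I → Matrix (Fin m) (Fin m) ℂ) (L : ℕ) :
    ‖pair Z z'‖ₑ ≤ ENNReal.ofReal (rr L) * ‖pair Z (T.z L)‖ₑ :=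
  enorm_le_mul (rr_pos L).le (pair_le A (rr L) (rr_pos L) (T.z L) (T.det L) z' hz' m Z)

theorem pair_le_nrm (T : Trees A) {ι' : Type} [Fintype ι'] [DecidableEq ι']
    (z' : J ⊕ I → Matrix ι' ι' ℂ)
    (hz' : Dom (fun i j => ¬ A i j) (fun k => (z' k)ᵀ)) (m : ℕ)
    (Z : J ⊕ I → Matrix (Fin m) (Fin m) ℂ) : ‖pair Z z'‖ₑ ≤ nrm T m Z := by
  refine le_of_rr (fun L => (pair_le_rr T z' hz' m Z L).trans ?_)
  gcongr
  exact le_iSup (fun L => ‖pair Z (T.z L)‖ₑ) L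

theorem nrm_le_rr (T : Trees A) (m : ℕ) (Z : J ⊕ I → Matrix (Fin m) (Fin m) ℂ) (L : ℕ) :
    nrm T m Z ≤ ENNReal.ofReal (rr L) * ‖pair Z (T.z L)‖ₑ :=
  iSup_le (fun L' => pair_le_rr T (T.z L') (T.dom L') m Z L)

/-- `d_SK ≤ 1` for the space. -/
theorem dSK_primal (T : Trees A) {V : Type} [AddCommGroup V] [Module ℂ V] (N : MatNorms V)
    (e : (J ⊕ I → ℂ) ≃ₗ[ℂ] V)
    (hN : ∀ (m : ℕ) (Z : J ⊕ I → Matrix (Fin m) (Fin m) ℂ),
      N m (Matrix.of fun i j => e (fun k => Z k i j)) = nrm T m Z) : dSK N ≤ 1 := by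
  refine le_of_rr (fun L => ?_)
  rw [mul_one]
  refine dSK_le N e (T.z L) (linearIndependent_of_tree A (rr L) (rr_pos L) (T.z L) (T.det L))
    (ENNReal.ofReal (rr L)) (fun m Z => ?_) (fun m Z => ?_)
  · rw [hN]; exact le_iSup (fun L => ‖pair Z (T.z L)‖ₑ) L
  · rw [hN]; exact nrm_le_rr T m Z L

/-- The dual norm in coordinates. -/
noncomputable def dnrm (T : Trees A) (m : ℕ) (U : J ⊕ I → Matrix (Fin m) (Fin m) ℂ) : ℝ≥0∞ :=
  ⨆ (p : ℕ) (Z : J ⊕ I → Matrix (Fin p) (Fin p) ℂ) (_ : nrm T p Z ≤ 1), ‖pair Z U‖ₑ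

theorem dnrm_le_one (T : Trees A) (m : ℕ) (U : J ⊕ I → Matrix (Fin m) (Fin m) ℂ)
    (hU : Dom (fun i j => ¬ A i j) (fun k => (U k)ᵀ)) : dnrm T m U ≤ 1 :=
  iSup_le (fun p => iSup_le (fun Z => iSup_le (fun hZ => (pair_le_nrm T U hU p Z).trans hZ)))

theorem pair_le_dnrm (T : Trees A) (m : ℕ) (U : J ⊕ I → Matrix (Fin m) (Fin m) ℂ) {p : ℕ}
    (Z : J ⊕ I → Matrix (Fin p) (Fin p) ℂ) (hZ : Dom A Z) : ‖pair U Z‖ₑ ≤ dnrm T m U := by
  have h1 : ‖pair Z U‖ₑ ≤ dnrm T m U :=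
    le_iSup_of_le p (le_iSup_of_le Z (le_iSup_of_le (nrm_le_one T p Z hZ) le_rfl))
  rw [← ofReal_norm, norm_pair_comm Z U, ofReal_norm]
  exact h1

/-- `d_SK ≤ 1` for the dual. -/
theorem dSK_dual (T : Trees A) (T' : Trees (fun i j => ¬ A i j))
    {V : Type} [AddCommGroup V] [Module ℂ V] (N : MatNorms V)
    (e : (J ⊕ I → ℂ) ≃ₗ[ℂ] V)
    (hN : ∀ (m : ℕ) (U : J ⊕ I → Matrix (Fin m) (Fin m) ℂ),
      N m (Matrix.of fun i j => e (fun k => U k i j)) = dnrm T m U) : dSK N ≤ 1 := by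
  refine le_of_rr (fun L => ?_)
  rw [mul_one]
  have hdom : Dom A (fun k => (T'.z L k)ᵀ) := by
    have h := T'.dom L
    have hA : (fun i j => ¬ ¬ A i j) = A := by
      ext i j; exact not_not
    rwa [hA] at h
  have hli : LinearIndependent ℂ (fun k => (T'.z L k)ᵀ) := by
    have h := linearIndependent_of_tree _ (rr L) (rr_pos L) (T'.z L) (T'.det L)
    have h2 := h.map' (Matrix.transposeLinearEquiv (Fin (T'.K L)) (Fin (T'.K L)) ℂ ℂ).toLinearMap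
      (LinearEquiv.ker _)
    exact h2
  refine dSK_le N e (fun k => (T'.z L k)ᵀ) hli
    (ENNReal.ofReal (rr L)) (fun m U => ?_) (fun m U => ?_)
  · rw [hN]; exact pair_le_dnrm T m U _ hdom
  · rw [hN]
    refine iSup_le (fun p => iSup_le (fun Z => iSup_le (fun hZ => ?_)))
    refine enorm_le_mul (rr_pos L).le ?_
    have hkey : ∀ ρ : ℝ, ‖pair U (fun k => (T'.z L k)ᵀ)‖ < ρ → ‖pair Z U‖ ≤ rr L * ρ := by
      intro ρ hρ
      have hρ0 : 0 < ρ := (norm_nonneg _).trans_lt hρ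
      have h1 : ‖pair (fun k => ((ρ⁻¹ : ℝ) : ℂ) • (U k)ᵀ) (T'.z L)‖ < 1 := by
        have h2 : pair (fun k => ((ρ⁻¹ : ℝ) : ℂ) • (U k)ᵀ) (T'.z L) =
            ((ρ⁻¹ : ℝ) : ℂ) • pair (fun k => (U k)ᵀ) (T'.z L) := by
          simp only [pair, smul_kronecker, Finset.smul_sum]
        have h3 : ‖pair (fun k => (U k)ᵀ) (T'.z L)‖ = ‖pair U (fun k => (T'.z L k)ᵀ)‖ := by
          have h4 := norm_pair_transpose U (fun k => (T'.z L k)ᵀ)
          simp only [transpose_transpose] at h4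
          exact h4
        rw [h2, norm_smul, h3, Complex.norm_real, Real.norm_of_nonneg (by positivity)]
        rw [inv_mul_lt_iff₀ hρ0, mul_one]
        exact hρ
      have h5 := T'.det L m _ h1
      have h6 : Dom (fun i j => ¬ A i j) (fun k => ((((rr L)⁻¹ * ρ⁻¹ : ℝ) : ℂ) • U k)ᵀ) := by
        convert h5 using 2 with k
        rw [transpose_smul, smul_smul]
        push_cast
        rfl
      have h7 := (pair_le_nrm T _ h6 p Z).trans hZ
      have h8 : pair Z (fun k => (((rr L)⁻¹ * ρ⁻¹ : ℝ) : ℂ) • U k) =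
          (((rr L)⁻¹ * ρ⁻¹ : ℝ) : ℂ) • pair Z U := by
        simp only [pair, kronecker_smul, Finset.smul_sum]
      have h9 : ‖pair Z (fun k => (((rr L)⁻¹ * ρ⁻¹ : ℝ) : ℂ) • U k)‖ ≤ 1 := by
        rw [← ofReal_norm, ← ENNReal.ofReal_one] at h7
        exact (ENNReal.ofReal_le_ofReal_iff zero_le_one).mp h7
      have hr := rr_pos L
      rw [h8, norm_smul, Complex.norm_real, Real.norm_of_nonneg (by positivity),
        ← mul_inv, inv_mul_le_iff₀ (by positivity), mul_one] at h9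
      exact h9
    have hr := rr_pos L
    refine le_of_forall_pos_le_add (fun ε hε => ?_)
    have h1 := hkey (‖pair U (fun k => (T'.z L k)ᵀ)‖ + ε / rr L) (by
      have : 0 < ε / rr L := by positivity
      linarith)
    rw [mul_add, mul_div_cancel₀ _ hr.ne'] at h1
    exact h1

end final

end Pool.Agent.H33.OS
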