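import Pool.Agent.H33.OS.PubMain
import Pool.Agent.H33.OS.Cycle

/-!
# Operator spaces at distance exactly two (MP_f82f05_an)
-/

open scoped ENNReal
open scoped Matrix.Norms.L2Operator
open scoped Kronecker ComplexOrder

namespace Pool.Agent.H33.OS

open Matrix

section blocks

/-- the block matrix `[1, z; conj z, t]` of size two, `‖z‖² ≤ t` -/
theorem four_block (z : ℂ) (t : ℝ) (h : ‖z‖ ^ 2 ≤ t) :
    (fromBlocks (1 : Matrix (Fin 1) (Fin 1) ℂ) (z • 1) (z • (1 : Matrix (Fin 1) (Fin 1) ℂ))ᴴ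
      (((t : ℝ) : ℂ) • 1)).PosSemidef := by
  have h1 : (1 : Matrix (Fin 1) (Fin 1) ℂ).PosDef := PosDef.one
  haveI : Invertible (1 : Matrix (Fin 1) (Fin 1) ℂ) := invertibleOne
  rw [PosDef.fromBlocks₁₁ _ _ h1]
  have h2 : (((t : ℝ) : ℂ) • 1 : Matrix (Fin 1) (Fin 1) ℂ) -
      (z • (1 : Matrix (Fin 1) (Fin 1) ℂ))ᴴ * (1 : Matrix (Fin 1) (Fin 1) ℂ)⁻¹ * (z • 1) =
      ((t - ‖z‖ ^ 2 : ℝ) : ℂ) • 1 := by
    rw [inv_one, Matrix.mul_one, conjTranspose_smul, conjTranspose_one, smul_mul_smul_comm,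
      Matrix.mul_one]
    have : star z * z = ((‖z‖ ^ 2 : ℝ) : ℂ) := by
      push_cast
      exact Complex.conj_mul' z
    rw [this]
    push_cast
    rw [sub_smul]
  rw [h2]
  apply PosSemidef.smul PosSemidef.one
  have h3 : 0 ≤ t - ‖z‖ ^ 2 := by linarith
  exact_mod_cast h3

/-- the block matrix `[t, z; conj z, 1]` of size two, `‖z‖² ≤ t` -/
theorem four_block' (z : ℂ) (t : ℝ) (h : ‖z‖ ^ 2 ≤ t) :
    (fromBlocks (((t : ℝ) : ℂ) • 1) (z • 1) (z • (1 : Matrix (Fin 1) (Fin 1) ℂ))ᴴ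
      (1 : Matrix (Fin 1) (Fin 1) ℂ)).PosSemidef := by
  have h1 : (1 : Matrix (Fin 1) (Fin 1) ℂ).PosDef := PosDef.one
  haveI : Invertible (1 : Matrix (Fin 1) (Fin 1) ℂ) := invertibleOne
  rw [PosDef.fromBlocks₂₂ _ _ h1]
  have h2 : (((t : ℝ) : ℂ) • 1 : Matrix (Fin 1) (Fin 1) ℂ) -
      (z • (1 : Matrix (Fin 1) (Fin 1) ℂ)) * (1 : Matrix (Fin 1) (Fin 1) ℂ)⁻¹ * (z • 1)ᴴ =
      ((t - ‖z‖ ^ 2 : ℝ) : ℂ) • 1 := by
    rw [inv_one, Matrix.mul_one, conjTranspose_smul, conjTranspose_one, smul_mul_smul_comm,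
      Matrix.mul_one]
    have : z * star z = ((‖z‖ ^ 2 : ℝ) : ℂ) := by
      push_cast
      exact Complex.mul_conj' z
    rw [this]
    push_cast
    rw [sub_smul]
  rw [h2]
  apply PosSemidef.smul PosSemidef.one
  have h3 : 0 ≤ t - ‖z‖ ^ 2 := by linarith
  exact_mod_cast h3

theorem four_diag {X Y : Matrix (Fin 1) (Fin 1) ℂ} (hX : X.PosSemidef) (hY : Y.PosSemidef) :
    (fromBlocks X (0 : Matrix (Fin 1) (Fin 1) ℂ) (0 : Matrix (Fin 1) (Fin 1) ℂ)ᴴ Y).PosSemidef := by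
  refine PosSemidef.of_dotProduct_mulVec_nonneg ?_ ?_
  · rw [IsHermitian, fromBlocks_conjTranspose, hX.1.eq, hY.1.eq]
    simp
  · intro v
    have h1 := hX.dotProduct_mulVec_nonneg (v ∘ Sum.inl)
    have h2 := hY.dotProduct_mulVec_nonneg (v ∘ Sum.inr)
    have h3 : star v ⬝ᵥ (fromBlocks X (0 : Matrix (Fin 1) (Fin 1) ℂ)
        (0 : Matrix (Fin 1) (Fin 1) ℂ)ᴴ Y *ᵥ v) =
        star (v ∘ Sum.inl) ⬝ᵥ (X *ᵥ (v ∘ Sum.inl)) + star (v ∘ Sum.inr) ⬝ᵥ (Y *ᵥ (v ∘ Sum.inr)) := by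
      rw [fromBlocks_mulVec]
      have e3 : star v = Sum.elim (star (v ∘ Sum.inl)) (star (v ∘ Sum.inr)) := by
        ext i
        rcases i with i | i <;> rfl
      rw [e3, sumElim_dotProduct_sumElim]
      simp
    rw [h3]
    exact add_nonneg h1 h2

theorem four_scalar {t : ℝ} (h : 0 ≤ t) :
    ((((t : ℝ) : ℂ) • 1 : Matrix (Fin 1) (Fin 1) ℂ)).PosSemidef := by
  apply PosSemidef.smul PosSemidef.one
  exact_mod_cast h

theorem four_one_sub {κ : Type} (s : Finset κ) (f : κ → ℝ) :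
    (1 - ∑ k ∈ s, (((f k : ℝ) : ℂ) • 1 : Matrix (Fin 1) (Fin 1) ℂ)) =
      ((1 - ∑ k ∈ s, f k : ℝ) : ℂ) • 1 := by
  push_cast
  rw [← Finset.sum_smul, sub_smul, one_smul]

theorem sc_eq {κ : Type} (v : κ → ℂ) (k : κ) :
    sc v k = v k • (1 : Matrix (Fin 1) (Fin 1) ℂ) := by
  ext p q
  have hpq : p = q := Subsingleton.elim _ _
  subst hpq
  simp [sc]

end blocks

variable {I J : Type} [Fintype I] [Fintype J]

theorem dom_left (A : I → J → Prop) (v : J ⊕ I → ℂ) (hv : ∀ i, v (Sum.inr i) = 0)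
    (h : ∑ j, ‖v (Sum.inl j)‖ ^ 2 ≤ 1) : Dom A (sc v) := by
  classical
  refine ⟨fun _ => 0, fun j => ((‖v (Sum.inl j)‖ ^ 2 : ℝ) : ℂ) • 1,
    fun i => PosSemidef.zero, fun j => four_scalar (sq_nonneg _), ?_, ?_, ?_, ?_⟩
  · rw [Finset.sum_const_zero, sub_zero]
    exact PosSemidef.one
  · rw [four_one_sub]
    exact four_scalar (by linarith)
  · intro j
    rw [Finset.sum_const_zero, sub_zero, sc_eq]
    exact four_block _ _ le_rfl
  · intro i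
    rw [sc_eq, hv, zero_smul, four_one_sub]
    refine four_diag PosSemidef.zero (four_scalar ?_)
    have h1 : ∑ j ∈ Finset.univ.filter (fun j => ¬ A i j), ‖v (Sum.inl j)‖ ^ 2 ≤
        ∑ j, ‖v (Sum.inl j)‖ ^ 2 :=
      Finset.sum_le_sum_of_subset_of_nonneg (Finset.filter_subset _ _) (fun j _ _ => sq_nonneg _)
    linarith

theorem dom_right (A : I → J → Prop) (v : J ⊕ I → ℂ) (hv : ∀ j, v (Sum.inl j) = 0)
    (h : ∑ i, ‖v (Sum.inr i)‖ ^ 2 ≤ 1) : Dom A (sc v) := by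
  classical
  refine ⟨fun i => ((‖v (Sum.inr i)‖ ^ 2 : ℝ) : ℂ) • 1, fun _ => 0,
    fun i => four_scalar (sq_nonneg _), fun j => PosSemidef.zero, ?_, ?_, ?_, ?_⟩
  · rw [four_one_sub]
    exact four_scalar (by linarith)
  · rw [Finset.sum_const_zero, sub_zero]
    exact PosSemidef.one
  · intro j
    rw [sc_eq, hv, zero_smul, four_one_sub]
    refine four_diag (four_scalar ?_) PosSemidef.zero
    have h1 : ∑ i ∈ Finset.univ.filter (fun i => ¬ A i j), ‖v (Sum.inr i)‖ ^ 2 ≤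
        ∑ i, ‖v (Sum.inr i)‖ ^ 2 :=
      Finset.sum_le_sum_of_subset_of_nonneg (Finset.filter_subset _ _) (fun j _ _ => sq_nonneg _)
    linarith
  · intro i
    rw [Finset.sum_const_zero, sub_zero, sc_eq]
    exact four_block' _ _ le_rfl

variable [DecidableEq I] [DecidableEq J]

/-- The operator space of a relation `A`, with the comparison of its norm and the two LMI sets. -/
theorem exists_space_dom (A : I → J → Prop) [Nonempty (J ⊕ I)] :
    ∃ (H : Type) (_ : NormedAddCommGroup H) (_ : InnerProductSpace ℂ H) (_ : CompleteSpace H)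
      (E : Submodule ℂ (H →L[ℂ] H)) (e : (J ⊕ I → ℂ) ≃ₗ[ℂ] E),
      dSK (opNorms E) = 1 ∧ dSK (dualNorms (opNorms E)) = 1 ∧
      (∀ v : J ⊕ I → ℂ, Dom A (sc v) → ‖e v‖ ≤ 1) ∧
      (∀ v u : J ⊕ I → ℂ, Dom (fun i j => ¬ A i j) (sc u) → ‖∑ k, v k * u k‖ ≤ ‖e v‖) := by
  obtain ⟨T⟩ := exists_trees A
  obtain ⟨T'⟩ := exists_trees (fun i j => ¬ A i j)
  have hz : ∀ L k, ‖T.z L k‖ ≤ 1 := by
    intro L k
    rw [← Reidx.norm_transpose]
    exact norm_le_one_of_dom _ _ (T.dom L) k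
  have hli : LinearIndependent ℂ (T.z 0) :=
    linearIndependent_of_tree A (rr 0) (rr_pos 0) (T.z 0) (T.det 0)
  obtain ⟨H, i1, i2, i3, E, e, he⟩ := realize T.K T.z hz 0 hli
  refine ⟨H, i1, i2, i3, E, e, ?_⟩
  have hN : ∀ (m : ℕ) (Z : J ⊕ I → Matrix (Fin m) (Fin m) ℂ),
      opNorms E m (Matrix.of fun i j => e (fun k => Z k i j)) = nrm T m Z := he
  have hnorm : ∀ v : J ⊕ I → ℂ, ‖e v‖ₑ = nrm T 1 (sc v) := by
    intro v
    exact (opNorms_one E (e v)).symm.trans (hN 1 (sc v))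
  have hle : ∀ v : J ⊕ I → ℂ, Dom A (sc v) → ‖e v‖ ≤ 1 := by
    intro v hv
    have h := nrm_le_one T 1 (sc v) hv
    rw [← hnorm, ← ofReal_norm, ← ENNReal.ofReal_one] at h
    exact (ENNReal.ofReal_le_ofReal_iff zero_le_one).mp h
  have hge : ∀ v u : J ⊕ I → ℂ, Dom (fun i j => ¬ A i j) (sc u) → ‖∑ k, v k * u k‖ ≤ ‖e v‖ := by
    intro v u hu
    have h := le_nrm_sc T v u hu
    rw [← hnorm, ← ofReal_norm, ← ofReal_norm] at h
    exact (ENNReal.ofReal_le_ofReal_iff (norm_nonneg _)).mp h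
  obtain ⟨k₀⟩ := (inferInstance : Nonempty (J ⊕ I))
  obtain ⟨e', he'⟩ := dual_coord (opNorms E) e
  have hN' : ∀ (m : ℕ) (U : J ⊕ I → Matrix (Fin m) (Fin m) ℂ),
      dualNorms (opNorms E) m (Matrix.of fun i j => e' (fun k => U k i j)) = dnrm T m U := by
    intro m U
    rw [he', dnrm]
    simp only [hN]
  refine ⟨?_, ?_, hle, hge⟩
  · refine le_antisymm (dSK_primal T _ e hN) ?_
    have h1 := hN 1 (sc (Pi.single k₀ 1))
    rw [nrm_single] at h1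
    refine one_le_dSK _ (fun c hc X => dc_opNorms_smul E 1 c hc X)
      (Matrix.of fun i j => e (fun k => sc (Pi.single k₀ 1) k i j)) ?_ ?_
    · rw [h1]; exact one_ne_zero
    · rw [h1]; exact ENNReal.one_ne_top
  · refine le_antisymm (dSK_dual T T' _ e' hN') ?_
    have h1 := hN' 1 (sc (Pi.single k₀ 1))
    rw [dnrm_single] at h1
    refine one_le_dSK _ (fun c hc X => dualNorms_smul (opNorms E) 1 c hc X)
      (Matrix.of fun i j => e' (fun k => sc (Pi.single k₀ 1) k i j)) ?_ ?_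
    · rw [h1]; exact one_ne_zero
    · rw [h1]; exact ENNReal.one_ne_top

/-- the Euclidean norm of the row type coordinates -/
noncomputable def nJ (v : J ⊕ I → ℂ) : ℝ := Real.sqrt (∑ j, ‖v (Sum.inl j)‖ ^ 2)

/-- the Euclidean norm of the column type coordinates -/
noncomputable def nI (v : J ⊕ I → ℂ) : ℝ := Real.sqrt (∑ i, ‖v (Sum.inr i)‖ ^ 2)

omit [DecidableEq I] [DecidableEq J] in
theorem nJ_sq (v : J ⊕ I → ℂ) : nJ v ^ 2 = ∑ j, ‖v (Sum.inl j)‖ ^ 2 :=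
  Real.sq_sqrt (Finset.sum_nonneg fun _ _ => sq_nonneg _)

omit [DecidableEq I] [DecidableEq J] in
theorem nI_sq (v : J ⊕ I → ℂ) : nI v ^ 2 = ∑ i, ‖v (Sum.inr i)‖ ^ 2 :=
  Real.sq_sqrt (Finset.sum_nonneg fun _ _ => sq_nonneg _)

section subm

variable {H : Type} [NormedAddCommGroup H] [InnerProductSpace ℂ H]
  {E : Submodule ℂ (H →L[ℂ] H)}

theorem sub_smul_norm (c : ℂ) (x : E) : ‖c • x‖ = ‖c‖ * ‖x‖ := norm_smul c (x : H →L[ℂ] H)

theorem sub_zero_norm : ‖(0 : E)‖ = 0 := norm_zero (E := H →L[ℂ] H)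

theorem sub_add_norm (x y : E) : ‖x + y‖ ≤ ‖x‖ + ‖y‖ :=
  norm_add_le (x : H →L[ℂ] H) (y : H →L[ℂ] H)

theorem sub_norm_nonneg (x : E) : 0 ≤ ‖x‖ := norm_nonneg (x : H →L[ℂ] H)

end subm

section bounds

variable {A : I → J → Prop} {H : Type} [NormedAddCommGroup H] [InnerProductSpace ℂ H]
  [CompleteSpace H] {E : Submodule ℂ (H →L[ℂ] H)} (e : (J ⊕ I → ℂ) ≃ₗ[ℂ] E)

omit [DecidableEq I] [DecidableEq J] [CompleteSpace H] in
theorem upper_left (hle : ∀ v : J ⊕ I → ℂ, Dom A (sc v) → ‖e v‖ ≤ 1) (v : J ⊕ I → ℂ)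
    (hv : ∀ i, v (Sum.inr i) = 0) : ‖e v‖ ≤ nJ v := by
  have h0 : 0 ≤ nJ v := Real.sqrt_nonneg _
  rcases h0.eq_or_lt with h1 | h1
  · have h2 : ∑ j, ‖v (Sum.inl j)‖ ^ 2 = 0 := by rw [← nJ_sq, ← h1]; norm_num
    have h3 : v = 0 := by
      ext k
      rcases k with j | i
      · have := (Finset.sum_eq_zero_iff_of_nonneg (fun j _ => sq_nonneg ‖v (Sum.inl j)‖)).1 h2 j
          (Finset.mem_univ _)
        simpa using this
      · exact hv i
    rw [h3, map_zero, sub_zero_norm]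
    rw [h3] at h0
    exact h0
  · have h2 := hle ((((nJ v)⁻¹ : ℝ) : ℂ) • v) (dom_left A _ (fun i => by simp [hv]) ?_)
    · rw [map_smul] at h2
      have h3 : ‖(((nJ v)⁻¹ : ℝ) : ℂ) • e v‖ = (nJ v)⁻¹ * ‖e v‖ := by
        rw [sub_smul_norm, Complex.norm_real, Real.norm_of_nonneg (inv_nonneg.2 h1.le)]
      rw [h3, inv_mul_le_iff₀ h1, mul_one] at h2
      exact h2
    · have h3 : ∀ j, ‖((((nJ v)⁻¹ : ℝ) : ℂ) • v) (Sum.inl j)‖ ^ 2 =
          ((nJ v) ^ 2)⁻¹ * ‖v (Sum.inl j)‖ ^ 2 := by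
        intro j
        rw [Pi.smul_apply, smul_eq_mul, norm_mul, Complex.norm_real,
          Real.norm_of_nonneg (inv_nonneg.2 h1.le), mul_pow, inv_pow]
      simp only [h3]
      rw [← Finset.mul_sum, ← nJ_sq, inv_mul_cancel₀ (pow_ne_zero 2 h1.ne')]

omit [DecidableEq I] [DecidableEq J] [CompleteSpace H] in
theorem upper_right (hle : ∀ v : J ⊕ I → ℂ, Dom A (sc v) → ‖e v‖ ≤ 1) (v : J ⊕ I → ℂ)
    (hv : ∀ j, v (Sum.inl j) = 0) : ‖e v‖ ≤ nI v := by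
  have h0 : 0 ≤ nI v := Real.sqrt_nonneg _
  rcases h0.eq_or_lt with h1 | h1
  · have h2 : ∑ i, ‖v (Sum.inr i)‖ ^ 2 = 0 := by rw [← nI_sq, ← h1]; norm_num
    have h3 : v = 0 := by
      ext k
      rcases k with j | i
      · exact hv j
      · have := (Finset.sum_eq_zero_iff_of_nonneg (fun j _ => sq_nonneg ‖v (Sum.inr j)‖)).1 h2 i
          (Finset.mem_univ _)
        simpa using this
    rw [h3, map_zero, sub_zero_norm]
    rw [h3] at h0
    exact h0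
  · have h2 := hle ((((nI v)⁻¹ : ℝ) : ℂ) • v) (dom_right A _ (fun i => by simp [hv]) ?_)
    · rw [map_smul] at h2
      have h3 : ‖(((nI v)⁻¹ : ℝ) : ℂ) • e v‖ = (nI v)⁻¹ * ‖e v‖ := by
        rw [sub_smul_norm, Complex.norm_real, Real.norm_of_nonneg (inv_nonneg.2 h1.le)]
      rw [h3, inv_mul_le_iff₀ h1, mul_one] at h2
      exact h2
    · have h3 : ∀ j, ‖((((nI v)⁻¹ : ℝ) : ℂ) • v) (Sum.inr j)‖ ^ 2 =
          ((nI v) ^ 2)⁻¹ * ‖v (Sum.inr j)‖ ^ 2 := by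
        intro j
        rw [Pi.smul_apply, smul_eq_mul, norm_mul, Complex.norm_real,
          Real.norm_of_nonneg (inv_nonneg.2 h1.le), mul_pow, inv_pow]
      simp only [h3]
      rw [← Finset.mul_sum, ← nI_sq, inv_mul_cancel₀ (pow_ne_zero 2 h1.ne')]

omit [DecidableEq I] [DecidableEq J] [CompleteSpace H] in
theorem norm_le_add (hle : ∀ v : J ⊕ I → ℂ, Dom A (sc v) → ‖e v‖ ≤ 1) (v : J ⊕ I → ℂ) :
    ‖e v‖ ≤ nJ v + nI v := by
  have h1 : v = Sum.elim (fun j => v (Sum.inl j)) (fun _ => 0) +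
      Sum.elim (fun _ => 0) (fun i => v (Sum.inr i)) := by
    ext k
    rcases k with j | i <;> simp
  have h2 := upper_left e hle (Sum.elim (fun j => v (Sum.inl j)) (fun _ => 0)) (fun i => rfl)
  have h3 := upper_right e hle (Sum.elim (fun _ => 0) (fun i => v (Sum.inr i))) (fun i => rfl)
  calc ‖e v‖ = ‖e (Sum.elim (fun j => v (Sum.inl j)) (fun _ => 0)) +
      e (Sum.elim (fun _ => 0) (fun i => v (Sum.inr i)))‖ := by rw [← map_add, ← h1]
    _ ≤ ‖e (Sum.elim (fun j => v (Sum.inl j)) (fun _ => 0))‖ +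
      ‖e (Sum.elim (fun _ => 0) (fun i => v (Sum.inr i)))‖ := sub_add_norm _ _
    _ ≤ nJ v + nI v := add_le_add h2 h3

omit [DecidableEq I] [DecidableEq J] [CompleteSpace H] in
theorem nJ_le (hge : ∀ v u : J ⊕ I → ℂ, Dom (fun i j => ¬ A i j) (sc u) →
    ‖∑ k, v k * u k‖ ≤ ‖e v‖) (v : J ⊕ I → ℂ) : nJ v ≤ ‖e v‖ := by
  have h0 : 0 ≤ nJ v := Real.sqrt_nonneg _
  rcases h0.eq_or_lt with h1 | h1
  · rw [← h1]; exact sub_norm_nonneg _
  · have h2 := hge v (Sum.elim (fun j => ((nJ v : ℝ) : ℂ)⁻¹ * star (v (Sum.inl j))) (fun _ => 0))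
      (dom_left _ _ (fun i => rfl) ?_)
    · have h3 : ∑ k, v k * (Sum.elim (fun j => ((nJ v : ℝ) : ℂ)⁻¹ * star (v (Sum.inl j)))
          (fun _ => 0) : J ⊕ I → ℂ) k = ((nJ v : ℝ) : ℂ) := by
        rw [Fintype.sum_sum_type]
        simp only [Sum.elim_inl, Sum.elim_inr, mul_zero, Finset.sum_const_zero, add_zero]
        have h4 : ∀ j, v (Sum.inl j) * (((nJ v : ℝ) : ℂ)⁻¹ * star (v (Sum.inl j))) =
            ((nJ v : ℝ) : ℂ)⁻¹ * ((‖v (Sum.inl j)‖ ^ 2 : ℝ) : ℂ) := by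
          intro j
          have h5 : v (Sum.inl j) * star (v (Sum.inl j)) = ((‖v (Sum.inl j)‖ ^ 2 : ℝ) : ℂ) := by
            push_cast
            exact Complex.mul_conj' _
          rw [← h5]; ring
        simp only [h4]
        rw [← Finset.mul_sum, ← Complex.ofReal_sum, ← nJ_sq]
        have h6 : ((nJ v : ℝ) : ℂ) ≠ 0 := by exact_mod_cast h1.ne'
        push_cast
        field_simp
      rw [h3, Complex.norm_real, Real.norm_of_nonneg h0] at h2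
      exact h2
    · have h3 : ∀ j, ‖(Sum.elim (fun j => ((nJ v : ℝ) : ℂ)⁻¹ * star (v (Sum.inl j)))
          (fun _ => 0) : J ⊕ I → ℂ) (Sum.inl j)‖ ^ 2 = ((nJ v) ^ 2)⁻¹ * ‖v (Sum.inl j)‖ ^ 2 := by
        intro j
        rw [Sum.elim_inl, norm_mul, norm_inv, Complex.norm_real, Real.norm_of_nonneg h0, norm_star,
          mul_pow, inv_pow]
      simp only [h3]
      rw [← Finset.mul_sum, ← nJ_sq, inv_mul_cancel₀ (pow_ne_zero 2 h1.ne')]

omit [DecidableEq I] [DecidableEq J] [CompleteSpace H] in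
theorem nI_le (hge : ∀ v u : J ⊕ I → ℂ, Dom (fun i j => ¬ A i j) (sc u) →
    ‖∑ k, v k * u k‖ ≤ ‖e v‖) (v : J ⊕ I → ℂ) : nI v ≤ ‖e v‖ := by
  have h0 : 0 ≤ nI v := Real.sqrt_nonneg _
  rcases h0.eq_or_lt with h1 | h1
  · rw [← h1]; exact sub_norm_nonneg _
  · have h2 := hge v (Sum.elim (fun _ => 0) (fun i => ((nI v : ℝ) : ℂ)⁻¹ * star (v (Sum.inr i))))
      (dom_right _ _ (fun i => rfl) ?_)
    · have h3 : ∑ k, v k * (Sum.elim (fun _ => 0)
          (fun i => ((nI v : ℝ) : ℂ)⁻¹ * star (v (Sum.inr i))) : J ⊕ I → ℂ) k =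
          ((nI v : ℝ) : ℂ) := by
        rw [Fintype.sum_sum_type]
        simp only [Sum.elim_inl, Sum.elim_inr, mul_zero, Finset.sum_const_zero, zero_add]
        have h4 : ∀ j, v (Sum.inr j) * (((nI v : ℝ) : ℂ)⁻¹ * star (v (Sum.inr j))) =
            ((nI v : ℝ) : ℂ)⁻¹ * ((‖v (Sum.inr j)‖ ^ 2 : ℝ) : ℂ) := by
          intro j
          have h5 : v (Sum.inr j) * star (v (Sum.inr j)) = ((‖v (Sum.inr j)‖ ^ 2 : ℝ) : ℂ) := by
            push_cast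
            exact Complex.mul_conj' _
          rw [← h5]; ring
        simp only [h4]
        rw [← Finset.mul_sum, ← Complex.ofReal_sum, ← nI_sq]
        have h6 : ((nI v : ℝ) : ℂ) ≠ 0 := by exact_mod_cast h1.ne'
        push_cast
        field_simp
      rw [h3, Complex.norm_real, Real.norm_of_nonneg h0] at h2
      exact h2
    · have h3 : ∀ j, ‖(Sum.elim (fun _ => 0) (fun i => ((nI v : ℝ) : ℂ)⁻¹ * star (v (Sum.inr i))) :
          J ⊕ I → ℂ) (Sum.inr j)‖ ^ 2 = ((nI v) ^ 2)⁻¹ * ‖v (Sum.inr j)‖ ^ 2 := by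
        intro j
        rw [Sum.elim_inr, norm_mul, norm_inv, Complex.norm_real, Real.norm_of_nonneg h0, norm_star,
          mul_pow, inv_pow]
      simp only [h3]
      rw [← Finset.mul_sum, ← nI_sq, inv_mul_cancel₀ (pow_ne_zero 2 h1.ne')]

end bounds

end Pool.Agent.H33.OS
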