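import Pool.Agent.H33.OS.Four

/-!
# Operator spaces at distance exactly two, in every dimension `N ≥ 4` (MP_f82f05_an)
-/

open scoped ENNReal
open scoped Matrix.Norms.L2Operator

namespace Pool.Agent.H33.OS

open Matrix

section upper

variable {I J : Type} [Fintype I] [Fintype J]
variable {A : I → J → Prop} {H : Type} [NormedAddCommGroup H] [InnerProductSpace ℂ H]
  {E : Submodule ℂ (H →L[ℂ] H)} (e : (J ⊕ I → ℂ) ≃ₗ[ℂ] E)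

theorem sum_sq_eq (w : J ⊕ I → ℂ) : ∑ k, ‖w k‖ ^ 2 = nJ w ^ 2 + nI w ^ 2 := by
  rw [Fintype.sum_sum_type, nJ_sq, nI_sq]

theorem upper_two {n : ℕ} (φ : J ⊕ I ≃ Fin n)
    (h1 : ∀ v : J ⊕ I → ℂ, ‖e v‖ ≤ nJ v + nI v) (h2 : ∀ v : J ⊕ I → ℂ, nJ v ≤ ‖e v‖)
    (h3 : ∀ v : J ⊕ I → ℂ, nI v ≤ ‖e v‖) :
    (⨅ u : E ≃ₗ[ℂ] (Fin n → ℂ),
    (⨆ (x : E) (_ : ‖x‖ₑ ≤ 1), ENNReal.ofReal (Real.sqrt (∑ i, ‖u x i‖ ^ 2))) *
    (⨆ (y : Fin n → ℂ) (_ : ∑ i, ‖y i‖ ^ 2 ≤ 1), ‖u.symm y‖ₑ)) ≤ 2 := by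
  refine iInf_le_of_le (e.symm.trans (LinearEquiv.funCongrLeft ℂ ℂ φ.symm)) ?_
  have h2r : (2 : ℝ≥0∞) = ENNReal.ofReal (Real.sqrt 2) * ENNReal.ofReal (Real.sqrt 2) := by
    rw [← ENNReal.ofReal_mul (Real.sqrt_nonneg _), Real.mul_self_sqrt (by norm_num)]
    norm_num
  rw [h2r]
  refine mul_le_mul' ?_ ?_
  · refine iSup_le fun x => iSup_le fun hx => ENNReal.ofReal_le_ofReal (Real.sqrt_le_sqrt ?_)
    have hx' : ‖x‖ ≤ 1 := by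
      rw [← ofReal_norm] at hx
      exact ENNReal.ofReal_le_one.1 hx
    have h5 : ∑ i, ‖(e.symm.trans (LinearEquiv.funCongrLeft ℂ ℂ φ.symm)) x i‖ ^ 2 =
        ∑ k, ‖(e.symm x) k‖ ^ 2 := by
      rw [← Equiv.sum_comp φ]
      refine Finset.sum_congr rfl fun k _ => ?_
      simp [LinearEquiv.funCongrLeft]
    rw [h5, sum_sq_eq]
    have h6 := h2 (e.symm x)
    have h7 := h3 (e.symm x)
    rw [LinearEquiv.apply_symm_apply] at h6 h7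
    have h8 : 0 ≤ nJ (e.symm x) := Real.sqrt_nonneg _
    have h9 : 0 ≤ nI (e.symm x) := Real.sqrt_nonneg _
    have h10 : nJ (e.symm x) ≤ 1 := h6.trans hx'
    have h11 : nI (e.symm x) ≤ 1 := h7.trans hx'
    nlinarith
  · refine iSup_le fun y => iSup_le fun hy => ?_
    have h5 : (e.symm.trans (LinearEquiv.funCongrLeft ℂ ℂ φ.symm)).symm y = e (fun k => y (φ k)) := by
      rfl
    rw [h5]
    have h6 : ∑ k, ‖y (φ k)‖ ^ 2 ≤ 1 := by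
      rw [Equiv.sum_comp φ (fun i => ‖y i‖ ^ 2)]
      exact hy
    rw [sum_sq_eq] at h6
    have h7 := h1 (fun k => y (φ k))
    set a := nJ (fun k => y (φ k)) with ha
    set b := nI (fun k => y (φ k)) with hb
    have h8 : a + b ≤ Real.sqrt 2 := by
      refine Real.le_sqrt_of_sq_le ?_
      nlinarith [sq_nonneg (a - b)]
    rw [← ofReal_norm]
    exact ENNReal.ofReal_le_ofReal (h7.trans h8)

end upper

/-- The four basis vectors of the cycle. -/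
theorem space_two (M : ℕ) (hM : 2 ≤ M) :
    ∃ (H : Type) (_ : NormedAddCommGroup H) (_ : InnerProductSpace ℂ H) (_ : CompleteSpace H)
      (E : Submodule ℂ (H →L[ℂ] H)), FiniteDimensional ℂ E ∧ Module.finrank ℂ E = M + 2 ∧
      dSK (opNorms E) = 1 ∧ dSK (dualNorms (opNorms E)) = 1 ∧
      2 ≤ distHilbert E ∧
      (⨅ u : E ≃ₗ[ℂ] (Fin (M + 2) → ℂ),
        (⨆ (x : E) (_ : ‖x‖ₑ ≤ 1), ENNReal.ofReal (Real.sqrt (∑ i, ‖u x i‖ ^ 2))) *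
        (⨆ (y : Fin (M + 2) → ℂ) (_ : ∑ i, ‖y i‖ ^ 2 ≤ 1), ‖u.symm y‖ₑ)) ≤ 2 := by
  have hne : Nonempty (Fin M ⊕ Fin 2) := ⟨Sum.inr 0⟩
  obtain ⟨H, i1, i2, i3, E, e, h1, h2, hle, hge⟩ :=
    exists_space_dom (I := Fin 2) (J := Fin M) (fun i j => ((i : ℕ) = 0 ↔ (j : ℕ) = 0))
  refine ⟨H, i1, i2, i3, E, LinearEquiv.finiteDimensional e, ?_, h1, h2, ?_, ?_⟩
  · rw [← LinearEquiv.finrank_eq e]
    simp
  · have hA : ∀ (i : Fin 2) (j : Fin M), ((i : ℕ) = 0 ↔ (j : ℕ) = 0) → ∀ ζ : ℂ, ‖ζ‖ ≤ 1 →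
        ‖e (Pi.single (Sum.inl j) 1) + ζ • e (Pi.single (Sum.inr i) 1)‖ ≤ 1 := by
      intro i j hij ζ hζ
      have h4 : e (Pi.single (Sum.inl j) 1) + ζ • e (Pi.single (Sum.inr i) 1) =
          e (tw i j 1 ζ) := by
        rw [tw_eq, map_add, map_smul, map_smul, one_smul]
      rw [h4]
      exact hle _ (dom_tw (fun (i : Fin 2) (j : Fin M) => ((i : ℕ) = 0 ↔ (j : ℕ) = 0)) i j hij ζ hζ)
    have hB : ∀ (i : Fin 2) (j : Fin M), ¬ ((i : ℕ) = 0 ↔ (j : ℕ) = 0) → ∀ s t ζ : ℂ, ‖ζ‖ ≤ 1 →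
        ‖s + ζ * t‖ ≤ ‖s • e (Pi.single (Sum.inl j) 1) + t • e (Pi.single (Sum.inr i) 1)‖ := by
      intro i j hij s t ζ hζ
      have h4 : s • e (Pi.single (Sum.inl j) 1) + t • e (Pi.single (Sum.inr i) 1) =
          e (tw i j s t) := by
        rw [tw_eq, map_add, map_smul, map_smul]
      rw [h4]
      have h5 := hge (tw i j s t) (tw i j 1 ζ)
        (dom_tw (fun (i : Fin 2) (j : Fin M) => ¬ ((i : ℕ) = 0 ↔ (j : ℕ) = 0)) i j hij ζ hζ)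
      rw [sum_tw, mul_one, mul_comm t ζ] at h5
      exact h5
    have hA' : ∀ (i : Fin 2) (j : Fin M), ((i : ℕ) = 0 ↔ (j : ℕ) = 0) →
        ‖e (Pi.single (Sum.inl j) 1) + e (Pi.single (Sum.inr i) 1)‖ ≤ 1 ∧
        ‖e (Pi.single (Sum.inl j) 1) - e (Pi.single (Sum.inr i) 1)‖ ≤ 1 := by
      intro i j hij
      have h4 := hA i j hij 1 (by simp)
      have h5 := hA i j hij (-1) (by simp)
      have e1 : e (Pi.single (Sum.inl j) 1) + (-1 : ℂ) • e (Pi.single (Sum.inr i) 1) =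
          e (Pi.single (Sum.inl j) 1) - e (Pi.single (Sum.inr i) 1) := by module
      rw [one_smul] at h4
      rw [e1] at h5
      exact ⟨h4, h5⟩
    have hB' : ∀ (i : Fin 2) (j : Fin M), ¬ ((i : ℕ) = 0 ↔ (j : ℕ) = 0) →
        2 ≤ ‖e (Pi.single (Sum.inl j) 1) + e (Pi.single (Sum.inr i) 1)‖ ∧
        2 ≤ ‖e (Pi.single (Sum.inl j) 1) - e (Pi.single (Sum.inr i) 1)‖ := by
      intro i j hij
      have h4 := hB i j hij 1 1 1 (by simp)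
      have h5 := hB i j hij 1 (-1) (-1) (by simp)
      have h6 : ‖(1 : ℂ) + 1 * 1‖ = 2 := by norm_num
      have h7 : ‖(1 : ℂ) + (-1) * (-1)‖ = 2 := by norm_num
      have e1 : (1 : ℂ) • e (Pi.single (Sum.inl j) 1) + (-1 : ℂ) • e (Pi.single (Sum.inr i) 1) =
          e (Pi.single (Sum.inl j) 1) - e (Pi.single (Sum.inr i) 1) := by module
      rw [h6, one_smul, one_smul] at h4
      rw [h7, e1] at h5
      exact ⟨h4, h5⟩
    refine cycle E (e (Pi.single (Sum.inl ⟨0, by omega⟩) 1)) (e (Pi.single (Sum.inl ⟨1, by omega⟩) 1))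
      (e (Pi.single (Sum.inr 0) 1)) (e (Pi.single (Sum.inr 1) 1)) ?_ ?_ ?_ ?_
    · exact hA' 0 ⟨0, by omega⟩ (by simp)
    · exact hA' 1 ⟨1, by omega⟩ (by simp)
    · exact hB' 1 ⟨0, by omega⟩ (by simp)
    · exact hB' 0 ⟨1, by omega⟩ (by simp)
  · exact upper_two e finSumFinEquiv (norm_le_add e hle) (nJ_le e hge) (nI_le e hge)

theorem pub_two (N : ℕ) (hN : 4 ≤ N) :
    ∃ X : Pub.OpSpace N, X.sk = 1 ∧ X.skDual = 1 ∧ X.dist = 2 := by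
  obtain ⟨M, rfl⟩ : ∃ M, N = M + 2 := ⟨N - 2, by omega⟩
  obtain ⟨H, i1, i2, i3, E, hfin, hdim, h1, h2, h3, h3'⟩ := space_two M (by omega)
  let X : Pub.OpSpace (M + 2) := ⟨⟨H⟩, E, hfin, hdim⟩
  have hE : @Eq (MatNorms E) (Pub.norms (H := ⟨H⟩) E) (opNorms E) := pub_norms_eq E
  have h4 : ∀ x : E, opNorms E 1 (Matrix.of fun _ _ => x) = ‖x‖ₑ := opNorms_one E
  have h5 : ∀ x : E, (Pub.norms (H := ⟨H⟩) E) 1 (Matrix.of fun _ _ => x) = ‖x‖ₑ := by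
    intro x
    rw [← h4]
    exact congrFun (congrFun hE 1) _
  have h6 : X.dist = (⨅ u : E ≃ₗ[ℂ] (Fin (M + 2) → ℂ),
      (⨆ (x : E) (_ : ‖x‖ₑ ≤ 1), ENNReal.ofReal (Real.sqrt (∑ i, ‖u x i‖ ^ 2))) *
      (⨆ (y : Fin (M + 2) → ℂ) (_ : ∑ i, ‖y i‖ ^ 2 ≤ 1), ‖u.symm y‖ₑ)) := by
    show (⨅ u : E ≃ₗ[ℂ] (Fin (M + 2) → ℂ),
      (⨆ (x : E) (_ : (Pub.norms (H := ⟨H⟩) E) 1 (Matrix.of fun _ _ => x) ≤ 1),
        ENNReal.ofReal (Real.sqrt (∑ i, ‖u x i‖ ^ 2))) *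
      (⨆ (y : Fin (M + 2) → ℂ) (_ : ∑ i, ‖y i‖ ^ 2 ≤ 1),
        (Pub.norms (H := ⟨H⟩) E) 1 (Matrix.of fun _ _ => u.symm y))) = _
    simp only [h5]
  refine ⟨X, ?_, ?_, ?_⟩
  · show Pub.dSK (Pub.norms (H := ⟨H⟩) E) = 1
    rw [← h1]
    refine (pub_dSK_eq _).trans ?_
    exact congrArg (dSK (V := E)) hE
  · show Pub.dSK (Pub.dualNorms (Pub.norms (H := ⟨H⟩) E)) = 1
    rw [← h2]
    refine (pub_dSK_eq _).trans ?_
    refine congrArg (dSK (V := Module.Dual ℂ E)) ?_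
    refine (pub_dualNorms_eq _).trans ?_
    exact congrArg (dualNorms (V := E)) hE
  · rw [h6]
    exact le_antisymm h3' (h3.trans (dist_le E (M + 2) hdim))

end Pool.Agent.H33.OS
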