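import Pool.Agent.H33.OS.Seq

/-!
# From the recursion to the LMI: averages (MP_f82f05_an)
-/

open scoped ENNReal
open scoped Matrix.Norms.L2Operator
open scoped Kronecker ComplexOrder

namespace Pool.Agent.H33.OS

open Matrix

section lmi

variable {I J : Type} [Fintype I] [Fintype J]

/-- Which letters may follow a vertex of parity `s` (true = domain) with last letter `t`. -/
def allowA (A : I → J → Prop) : Bool → Option (J ⊕ I) → (J ⊕ I) → Prop
  | true, some (Sum.inr i), Sum.inl j => ¬ A i j
  | true, _, Sum.inl _ => True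
  | true, _, Sum.inr _ => False
  | false, some (Sum.inl j), Sum.inr i => ¬ A i j
  | false, _, Sum.inr _ => True
  | false, _, Sum.inl _ => False

/-- The edge matrices. -/
def edgeA {m : ℕ} (Z : J ⊕ I → Matrix (Fin m) (Fin m) ℂ) :
    Bool → J ⊕ I → Matrix (Fin m) (Fin m) ℂ
  | true, k => Z k
  | false, k => (Z k)ᴴ

omit [Fintype I] [Fintype J] in
theorem allowA_none (A : I → J → Prop) (s : Bool) (t a : J ⊕ I)
    (h : allowA A s (some t) a) : allowA A s none a := by
  cases s <;> cases t <;> cases a <;> simp_all [allowA]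

open Classical in
theorem sum_allow {M : Type*} [AddCommMonoid M] (A : I → J → Prop) (s : Bool)
    (t : Option (J ⊕ I)) (f : J ⊕ I → M) :
    ∑ b ∈ Finset.univ.filter (fun b => allowA A s t b), f b =
      (∑ j, if allowA A s t (Sum.inl j) then f (Sum.inl j) else 0) +
        ∑ i, if allowA A s t (Sum.inr i) then f (Sum.inr i) else 0 := by
  rw [Finset.sum_filter, Fintype.sum_sum_type]

theorem posSemidef_block₁ {m : ℕ} {P : Matrix (Fin m) (Fin m) ℂ} (hP : P.PosSemidef) :
    (fromBlocks P 0 0 (0 : Matrix (Fin m) (Fin m) ℂ)).PosSemidef := by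
  have h := hP.conjTranspose_mul_mul_same
    (Matrix.fromCols 1 0 : Matrix (Fin m) (Fin m ⊕ Fin m) ℂ)
  convert h using 1
  rw [conjTranspose_fromCols_eq_fromRows_conjTranspose, fromRows_mul, fromRows_mul_fromCols]
  simp

theorem posSemidef_block₂ {m : ℕ} {P : Matrix (Fin m) (Fin m) ℂ} (hP : P.PosSemidef) :
    (fromBlocks (0 : Matrix (Fin m) (Fin m) ℂ) 0 0 P).PosSemidef := by
  have h := hP.conjTranspose_mul_mul_same
    (Matrix.fromCols 0 1 : Matrix (Fin m) (Fin m ⊕ Fin m) ℂ)
  convert h using 1
  rw [conjTranspose_fromCols_eq_fromRows_conjTranspose, fromRows_mul, fromRows_mul_fromCols]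
  simp

theorem sum_fromBlocks {ι m n : Type*} (S : Finset ι) (P : ι → Matrix m m ℂ)
    (Q : ι → Matrix m n ℂ) (R : ι → Matrix n m ℂ) (T : ι → Matrix n n ℂ) :
    ∑ k ∈ S, fromBlocks (P k) (Q k) (R k) (T k) =
      fromBlocks (∑ k ∈ S, P k) (∑ k ∈ S, Q k) (∑ k ∈ S, R k) (∑ k ∈ S, T k) := by
  classical
  induction S using Finset.induction_on with
  | empty => simp
  | insert a S ha ih =>
    rw [Finset.sum_insert ha, ih, fromBlocks_add, Finset.sum_insert ha, Finset.sum_insert ha,
      Finset.sum_insert ha, Finset.sum_insert ha]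

open Classical in
theorem dom_of_gap (A : I → J → Prop) {m : ℕ} (Z : J ⊕ I → Matrix (Fin m) (Fin m) ℂ) (L : ℕ)
    (hL : 0 < L) (δ : ℝ) (hδ : 0 < δ)
    (hg : ∀ k ≤ L, ∀ s, (gap (allowA A) (edgeA Z) k s none - (δ : ℂ) • 1).PosSemidef) :
    Dom A (fun k => (((1 + 1 / (L : ℝ))⁻¹ : ℝ) : ℂ) • Z k) := by
  set e := eSeq (allowA A) (edgeA Z) with he
  set g := gap (allowA A) (edgeA Z) with hgdef
  -- positivity of all contributions
  have hpos : ∀ k ≤ L, (∀ s a, (e k s a).PosSemidef) ∧ (∀ s t, (g k s t).PosDef) := by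
    intro k
    induction k with
    | zero =>
      intro _
      have h0 : ∀ s a, (e 0 s a).PosSemidef := fun s a => by
        rw [he, eSeq_zero]; exact Matrix.PosSemidef.zero
      exact ⟨h0, fun s t => gap_posDef _ _ (allowA_none A) hδ h0 (hg 0 (Nat.zero_le _)) s t⟩
    | succ k ih =>
      intro hk
      have h1 := ih (by omega)
      have h2 : ∀ s a, (e (k + 1) s a).PosSemidef := fun s a =>
        eSeq_posSemidef_succ _ _ h1.2 s a
      exact ⟨h2, fun s t => gap_posDef _ _ (allowA_none A) hδ h2 (hg (k + 1) hk) s t⟩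
  set r : ℝ := (1 + 1 / (L : ℝ))⁻¹ with hr
  have hLpos : (0 : ℝ) < L := by exact_mod_cast hL
  have hrpos : 0 < r := by rw [hr]; positivity
  have hrL : 1 - r = r / L := by
    rw [hr]; field_simp; ring
  have hq : 0 ≤ r / L := by positivity
  have hqC : (0 : ℂ) ≤ ((r / L : ℝ) : ℂ) := by exact_mod_cast hq
  -- the four gap formulas
  have gF : ∀ k j, g k false (some (Sum.inl j)) =
      1 - ∑ i ∈ Finset.univ.filter (fun i => ¬ A i j), e k false (Sum.inr i) := by
    intro k j
    rw [hgdef, gap, sum_allow, Finset.sum_filter]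
    have h0 : ∀ x : J, (if allowA A false (some (Sum.inl j)) (Sum.inl x) then
        eSeq (allowA A) (edgeA Z) k false (Sum.inl x) else 0) = 0 := fun x => if_neg (fun h => h)
    rw [Finset.sum_congr rfl (fun x _ => h0 x), Finset.sum_const_zero, zero_add]
    congr 1
    refine Finset.sum_congr rfl (fun i _ => ?_)
    by_cases h : A i j <;> simp [h, allowA, he]
  have gT : ∀ k i, g k true (some (Sum.inr i)) =
      1 - ∑ j ∈ Finset.univ.filter (fun j => ¬ A i j), e k true (Sum.inl j) := by
    intro k i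
    rw [hgdef, gap, sum_allow, Finset.sum_filter]
    have h0 : ∀ x : I, (if allowA A true (some (Sum.inr i)) (Sum.inr x) then
        eSeq (allowA A) (edgeA Z) k true (Sum.inr x) else 0) = 0 := fun x => if_neg (fun h => h)
    rw [Finset.sum_congr rfl (fun x _ => h0 x), Finset.sum_const_zero, add_zero]
    congr 1
    refine Finset.sum_congr rfl (fun j _ => ?_)
    by_cases h : A i j <;> simp [h, allowA, he]
  have gF0 : ∀ k, g k false none = 1 - ∑ i, e k false (Sum.inr i) := by
    intro k
    rw [hgdef, gap, sum_allow]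
    simp [allowA, he]
  have gT0 : ∀ k, g k true none = 1 - ∑ j, e k true (Sum.inl j) := by
    intro k
    rw [hgdef, gap, sum_allow]
    simp [allowA, he]
  -- telescoping
  have tel : ∀ s a, ∑ k ∈ Finset.range L, e (k + 1) s a =
      ∑ k ∈ Finset.range L, e k s a + e L s a := by
    intro s a
    have h1 := Finset.sum_range_succ' (fun k => e k s a) L
    have h2 := Finset.sum_range_succ (fun k => e k s a) L
    rw [h2] at h1
    rw [h1]
    simp [he, eSeq_zero]
  let c : I → Matrix (Fin m) (Fin m) ℂ := fun i =>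
    ((r / L : ℝ) : ℂ) • ∑ k ∈ Finset.range L, e (k + 1) false (Sum.inr i)
  let d : J → Matrix (Fin m) (Fin m) ℂ := fun j =>
    ((r / L : ℝ) : ℂ) • ∑ k ∈ Finset.range L, e (k + 1) true (Sum.inl j)
  have h1r : (1 : Matrix (Fin m) (Fin m) ℂ) = ((r / L : ℝ) : ℂ) • ((L : ℂ) • 1) +
      ((r / L : ℝ) : ℂ) • 1 := by
    rw [smul_smul, ← add_smul]
    have : ((r / L : ℝ) : ℂ) * (L : ℂ) + ((r / L : ℝ) : ℂ) = 1 := by
      have h2 : (r / L : ℝ) * L + r / L = 1 := by
        have : r / L * L = r := by field_simp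
        rw [this]
        linarith [hrL]
      exact_mod_cast h2
    rw [this, one_smul]
  -- partial sums of c over a finset
  have csum : ∀ S : Finset I, ∑ i ∈ S, c i =
      ((r / L : ℝ) : ℂ) • ∑ k ∈ Finset.range L, ∑ i ∈ S, e (k + 1) false (Sum.inr i) := by
    intro S
    simp only [c]
    rw [← Finset.smul_sum, Finset.sum_comm]
  have dsum : ∀ S : Finset J, ∑ j ∈ S, d j =
      ((r / L : ℝ) : ℂ) • ∑ k ∈ Finset.range L, ∑ j ∈ S, e (k + 1) true (Sum.inl j) := by
    intro S
    simp only [d]
    rw [← Finset.smul_sum, Finset.sum_comm]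
  have hone : ∀ f : ℕ → Matrix (Fin m) (Fin m) ℂ,
      (L : ℂ) • (1 : Matrix (Fin m) (Fin m) ℂ) - ∑ k ∈ Finset.range L, f k =
        ∑ k ∈ Finset.range L, (1 - f k) := by
    intro f
    rw [Finset.sum_sub_distrib, Finset.sum_const, Finset.card_range,
      ← Nat.cast_smul_eq_nsmul ℂ]
  refine ⟨c, d, ?_, ?_, ?_, ?_, ?_, ?_⟩
  · intro i
    exact (Matrix.posSemidef_sum _ (fun k hk => (hpos (k + 1)
      (by rw [Finset.mem_range] at hk; omega)).1 _ _)).smul hqC
  · intro j
    exact (Matrix.posSemidef_sum _ (fun k hk => (hpos (k + 1)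
      (by rw [Finset.mem_range] at hk; omega)).1 _ _)).smul hqC
  · rw [csum]
    have : (1 : Matrix (Fin m) (Fin m) ℂ) - ((r / L : ℝ) : ℂ) • ∑ k ∈ Finset.range L,
        ∑ i, e (k + 1) false (Sum.inr i) = ((r / L : ℝ) : ℂ) • (∑ k ∈ Finset.range L,
          g (k + 1) false none + 1) := by
      conv_lhs => rw [h1r]
      simp only [gF0]
      rw [← hone, smul_add, smul_sub]
      abel
    rw [this]
    exact ((Matrix.posSemidef_sum _ (fun k hk => ((hpos (k + 1)
      (by rw [Finset.mem_range] at hk; omega)).2 _ _).posSemidef)).add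
        Matrix.PosSemidef.one).smul hqC
  · rw [dsum]
    have : (1 : Matrix (Fin m) (Fin m) ℂ) - ((r / L : ℝ) : ℂ) • ∑ k ∈ Finset.range L,
        ∑ j, e (k + 1) true (Sum.inl j) = ((r / L : ℝ) : ℂ) • (∑ k ∈ Finset.range L,
          g (k + 1) true none + 1) := by
      conv_lhs => rw [h1r]
      simp only [gT0]
      rw [← hone, smul_add, smul_sub]
      abel
    rw [this]
    exact ((Matrix.posSemidef_sum _ (fun k hk => ((hpos (k + 1)
      (by rw [Finset.mem_range] at hk; omega)).2 _ _).posSemidef)).add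
        Matrix.PosSemidef.one).smul hqC
  · intro j
    have hblk : ∀ k < L, (fromBlocks (g k false (some (Sum.inl j))) (Z (Sum.inl j))
        (Z (Sum.inl j))ᴴ (e (k + 1) true (Sum.inl j))).PosSemidef := by
      intro k hk
      have hP := (hpos k hk.le).2 false (some (Sum.inl j))
      let _ : Invertible (g k false (some (Sum.inl j))) := hP.isUnit.invertible
      rw [Matrix.PosDef.fromBlocks₁₁ _ _ hP]
      have : e (k + 1) true (Sum.inl j) =
          (Z (Sum.inl j))ᴴ * (g k false (some (Sum.inl j)))⁻¹ * Z (Sum.inl j) := by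
        rw [he, eSeq_succ]; rfl
      rw [this, sub_self]
      exact Matrix.PosSemidef.zero
    have hsum := (Matrix.posSemidef_sum (Finset.range L)
      (fun k hk => hblk k (Finset.mem_range.mp hk))).smul hqC
    have h2 := posSemidef_block₁ (((hpos L le_rfl).2 false (some (Sum.inl j))).posSemidef.smul hqC)
    have h5 := hsum.add h2
    convert h5 using 1
    rw [sum_fromBlocks, fromBlocks_smul, fromBlocks_add]
    simp only [add_zero, conjTranspose_smul]
    have hconst : ∀ W : Matrix (Fin m) (Fin m) ℂ, ((r / L : ℝ) : ℂ) • ∑ k ∈ Finset.range L, W =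
        (r : ℂ) • W := by
      intro W
      rw [Finset.sum_const, Finset.card_range, ← Nat.cast_smul_eq_nsmul ℂ, smul_smul]
      congr 1
      push_cast
      field_simp
    congr 1
    · rw [csum]
      conv_lhs => rw [h1r]
      simp only [gF]
      rw [← hone]
      have : ∑ k ∈ Finset.range L, ∑ i ∈ Finset.univ.filter (fun i => ¬ A i j),
          e (k + 1) false (Sum.inr i) = ∑ k ∈ Finset.range L,
          ∑ i ∈ Finset.univ.filter (fun i => ¬ A i j), e k false (Sum.inr i) +
          ∑ i ∈ Finset.univ.filter (fun i => ¬ A i j), e L false (Sum.inr i) := by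
        rw [Finset.sum_comm]
        simp only [tel]
        rw [Finset.sum_add_distrib, Finset.sum_comm]
      rw [this, smul_sub, smul_sub, smul_add]
      abel
    · rw [hconst]
    · rw [hconst]
      simp
  · intro i
    have hblk : ∀ k < L, (fromBlocks (e (k + 1) false (Sum.inr i)) (Z (Sum.inr i))
        (Z (Sum.inr i))ᴴ (g k true (some (Sum.inr i)))).PosSemidef := by
      intro k hk
      have hP := (hpos k hk.le).2 true (some (Sum.inr i))
      let _ : Invertible (g k true (some (Sum.inr i))) := hP.isUnit.invertible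
      rw [Matrix.PosDef.fromBlocks₂₂ _ _ hP]
      have : e (k + 1) false (Sum.inr i) =
          Z (Sum.inr i) * (g k true (some (Sum.inr i)))⁻¹ * (Z (Sum.inr i))ᴴ := by
        rw [he, eSeq_succ]
        simp only [edgeA, conjTranspose_conjTranspose]
        rfl
      rw [this, sub_self]
      exact Matrix.PosSemidef.zero
    have hsum := (Matrix.posSemidef_sum (Finset.range L)
      (fun k hk => hblk k (Finset.mem_range.mp hk))).smul hqC
    have h2 := posSemidef_block₂ (((hpos L le_rfl).2 true (some (Sum.inr i))).posSemidef.smul hqC)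
    have h5 := hsum.add h2
    convert h5 using 1
    rw [sum_fromBlocks, fromBlocks_smul, fromBlocks_add]
    simp only [add_zero, conjTranspose_smul]
    have hconst : ∀ W : Matrix (Fin m) (Fin m) ℂ, ((r / L : ℝ) : ℂ) • ∑ k ∈ Finset.range L, W =
        (r : ℂ) • W := by
      intro W
      rw [Finset.sum_const, Finset.card_range, ← Nat.cast_smul_eq_nsmul ℂ, smul_smul]
      congr 1
      push_cast
      field_simp
    congr 1
    · rw [hconst]
    · rw [hconst]
      simp
    · rw [dsum]
      conv_lhs => rw [h1r]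
      simp only [gT]
      rw [← hone]
      have : ∑ k ∈ Finset.range L, ∑ j ∈ Finset.univ.filter (fun j => ¬ A i j),
          e (k + 1) true (Sum.inl j) = ∑ k ∈ Finset.range L,
          ∑ j ∈ Finset.univ.filter (fun j => ¬ A i j), e k true (Sum.inl j) +
          ∑ j ∈ Finset.univ.filter (fun j => ¬ A i j), e L true (Sum.inl j) := by
        rw [Finset.sum_comm]
        simp only [tel]
        rw [Finset.sum_add_distrib, Finset.sum_comm]
      rw [this, smul_sub, smul_sub, smul_add]
      abel

end lmi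

end Pool.Agent.H33.OS
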