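import Pool.Agent.H33.OS.Final
import Pool.Agent.H33.OS.DualHom

/-!
# The family of operator spaces and the lower bound for `c*` (MP_f82f05_an)
-/

open scoped ENNReal
open scoped Matrix.Norms.L2Operator
open scoped Kronecker ComplexOrder

namespace Pool.Agent.H33.OS

open Matrix

section scalars

/-- The matrix norm of a `1 × 1` matrix is the norm of its entry. -/
theorem opNorms_one {H : Type*} [NormedAddCommGroup H] [InnerProductSpace ℂ H]
    (E : Submodule ℂ (H →L[ℂ] H)) (x : E) :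
    opNorms E 1 (Matrix.of fun _ _ => x) = ‖x‖ₑ := by
  have hnorm : ∀ v : PiLp 2 (fun _ : Fin 1 => H), ‖v‖ = ‖v 0‖ := by
    intro v
    rw [PiLp.norm_eq_of_L2, Fin.sum_univ_one, Real.sqrt_sq (norm_nonneg _)]
  have happ : ∀ v : PiLp 2 (fun _ : Fin 1 => H),
      ‖opMat ((Matrix.of fun _ _ => x : Matrix (Fin 1) (Fin 1) E).map
        (fun T : E => (T : H →L[ℂ] H))) v‖ = ‖(x : H →L[ℂ] H) (v 0)‖ := by
    intro v
    rw [hnorm, dc_opMat_apply, Fin.sum_univ_one]
    rfl
  have h1 : ‖opMat ((Matrix.of fun _ _ => x : Matrix (Fin 1) (Fin 1) E).map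
        (fun T : E => (T : H →L[ℂ] H)))‖ = ‖(x : H →L[ℂ] H)‖ := by
    refine le_antisymm ?_ ?_
    · refine ContinuousLinearMap.opNorm_le_bound _ (norm_nonneg _) (fun v => ?_)
      rw [happ, hnorm]
      exact ContinuousLinearMap.le_opNorm _ _
    · refine ContinuousLinearMap.opNorm_le_bound _ (ContinuousLinearMap.opNorm_nonneg _)
        (fun h => ?_)
      have h2 := ContinuousLinearMap.le_opNorm (opMat ((Matrix.of fun _ _ => x :
        Matrix (Fin 1) (Fin 1) E).map (fun T : E => (T : H →L[ℂ] H))))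
        (WithLp.toLp 2 (fun _ => h))
      rw [happ, hnorm] at h2
      exact h2
  rw [opNorms, ← ofReal_norm, h1, ← ofReal_norm]
  rfl

variable {I J : Type}

/-- A tuple of scalars as a tuple of `1 × 1` matrices. -/
def sc {κ : Type} (v : κ → ℂ) : κ → Matrix (Fin 1) (Fin 1) ℂ := fun k => Matrix.of fun _ _ => v k

theorem sc_transpose {κ : Type} (v : κ → ℂ) : (fun k => (sc v k)ᵀ) = sc v := by
  ext k i j; rfl

theorem norm_pair_sc {κ : Type} [Fintype κ] (v u : κ → ℂ) :
    ‖pair (sc v) (sc u)‖ = ‖∑ k, v k * u k‖ := by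
  have h : pair (sc v) (sc u) = (∑ k, v k * u k) • (1 : Matrix (Fin 1 × Fin 1) (Fin 1 × Fin 1) ℂ) := by
    ext p q
    rw [pair, Matrix.sum_apply, Matrix.smul_apply, smul_eq_mul]
    have hpq : p = q := Subsingleton.elim _ _
    subst hpq
    rw [Matrix.one_apply_eq, mul_one]
    rfl
  rw [h, norm_smul, norm_one, mul_one]

variable [DecidableEq I] [DecidableEq J]

/-- Two coordinates. -/
def tw (i : I) (j : J) (s t : ℂ) : J ⊕ I → ℂ :=
  Sum.elim (fun j' => if j' = j then s else 0) (fun i' => if i' = i then t else 0)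

theorem tw_eq (i : I) (j : J) (s t : ℂ) :
    tw i j s t = s • (Pi.single (Sum.inl j) 1 : J ⊕ I → ℂ) + t • Pi.single (Sum.inr i) 1 := by
  ext k
  cases k with
  | inl j' =>
    by_cases h : j' = j
    · subst h; simp [tw]
    · simp [tw, h]
  | inr i' =>
    by_cases h : i' = i
    · subst h; simp [tw]
    · simp [tw, h]

theorem sum_tw [Fintype I] [Fintype J] (i : I) (j : J) (s t s' t' : ℂ) :
    ∑ k, tw i j s t k * tw i j s' t' k = s * s' + t * t' := by
  rw [Fintype.sum_sum_type]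
  congr 1
  · rw [Finset.sum_eq_single j]
    · simp [tw]
    · intro j' _ h; simp [tw, h]
    · simp
  · rw [Finset.sum_eq_single i]
    · simp [tw]
    · intro i' _ h; simp [tw, h]
    · simp

theorem dom_tw [Fintype I] [Fintype J] (A : I → J → Prop) (i : I) (j : J) (h : A i j) (ζ : ℂ)
    (hζ : ‖ζ‖ ≤ 1) : Dom A (sc (tw i j 1 ζ)) := by
  have h1 := dom_pair A i j h ζ hζ
  convert h1 using 2 with k
  cases k with
  | inl j' =>
    ext p q
    have hpq : p = q := Subsingleton.elim _ _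
    subst hpq
    by_cases hj : j' = j <;> simp [sc, tw, hj]
  | inr i' =>
    ext p q
    have hpq : p = q := Subsingleton.elim _ _
    subst hpq
    by_cases hi : i' = i <;> simp [sc, tw, hi]

theorem dom_sc_single [Fintype I] [Fintype J] (A : I → J → Prop) (k : J ⊕ I) :
    Dom A (sc (Pi.single k 1)) := by
  have h1 := dom_single A k
  convert h1 using 1
  ext k' p q
  have hpq : p = q := Subsingleton.elim _ _
  subst hpq
  by_cases hk : k' = k
  · subst hk; simp [sc]
  · simp [sc, hk]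

end scalars

section main

variable {I J : Type} [Fintype I] [Fintype J] [DecidableEq I] [DecidableEq J] {A : I → J → Prop}

omit [DecidableEq I] [DecidableEq J] in
theorem le_nrm_sc (T : Trees A) (v u : J ⊕ I → ℂ) (hu : Dom (fun i j => ¬ A i j) (sc u)) :
    ‖∑ k, v k * u k‖ₑ ≤ nrm T 1 (sc v) := by
  have h := pair_le_nrm T (sc u) (by rw [sc_transpose]; exact hu) 1 (sc v)
  rw [← ofReal_norm, norm_pair_sc, ofReal_norm] at h
  exact h

theorem nrm_single (T : Trees A) (k : J ⊕ I) : nrm T 1 (sc (Pi.single k 1)) = 1 := by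
  refine le_antisymm (nrm_le_one T 1 _ (dom_sc_single A k)) ?_
  have h := le_nrm_sc T (Pi.single k 1) (Pi.single k 1) (dom_sc_single _ k)
  have h2 : ∑ k', (Pi.single k 1 : J ⊕ I → ℂ) k' * (Pi.single k 1 : J ⊕ I → ℂ) k' = 1 := by
    rw [Finset.sum_eq_single k]
    · simp
    · intro k' _ hk; simp [hk]
    · simp
  rw [h2] at h
  simpa using h

theorem dnrm_single (T : Trees A) (k : J ⊕ I) : dnrm T 1 (sc (Pi.single k 1)) = 1 := by
  refine le_antisymm (dnrm_le_one T 1 _ (by rw [sc_transpose]; exact dom_sc_single _ k)) ?_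
  have h := pair_le_dnrm T 1 (sc (Pi.single k 1)) (sc (Pi.single k 1)) (dom_sc_single A k)
  have h2 : ∑ k', (Pi.single k 1 : J ⊕ I → ℂ) k' * (Pi.single k 1 : J ⊕ I → ℂ) k' = 1 := by
    rw [Finset.sum_eq_single k]
    · simp
    · intro k' _ hk; simp [hk]
    · simp
  rw [← ofReal_norm, norm_pair_sc, h2] at h
  simpa using h

/-- The operator space of a relation `A`. -/
theorem exists_space (A : I → J → Prop) [Nonempty (J ⊕ I)] :
    ∃ (H : Type) (_ : NormedAddCommGroup H) (_ : InnerProductSpace ℂ H) (_ : CompleteSpace H)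
      (E : Submodule ℂ (H →L[ℂ] H)) (e : (J ⊕ I → ℂ) ≃ₗ[ℂ] E),
      dSK (opNorms E) = 1 ∧ dSK (dualNorms (opNorms E)) = 1 ∧
      (∀ k, ‖e (Pi.single k 1)‖ = 1) ∧
      (∀ i j, A i j → ∀ ζ : ℂ, ‖ζ‖ ≤ 1 →
        ‖e (Pi.single (Sum.inl j) 1) + ζ • e (Pi.single (Sum.inr i) 1)‖ ≤ 1) ∧
      (∀ i j, ¬ A i j → ∀ s t ζ : ℂ, ‖ζ‖ ≤ 1 → ‖s + ζ * t‖ ≤
        ‖s • e (Pi.single (Sum.inl j) 1) + t • e (Pi.single (Sum.inr i) 1)‖) := by
  obtain ⟨T⟩ := exists_trees A
  obtain ⟨T'⟩ := exists_trees (fun i j => ¬ A i j)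
  have hz : ∀ L k, ‖T.z L k‖ ≤ 1 := by
    intro L k
    rw [← Reidx.norm_transpose]
    exact norm_le_one_of_dom _ _ (T.dom L) k
  have hli : LinearIndependent ℂ (T.z 0) :=
    linearIndependent_of_tree A (rr 0) (rr_pos 0) (T.z 0) (T.det 0)
  obtain ⟨H, i1, i2, i3, E, e, he⟩ := realize T.K T.z hz 0 hli
  refine ⟨H, i1, i2, i3, E, e, ?_⟩
  have hN : ∀ (m : ℕ) (Z : J ⊕ I → Matrix (Fin m) (Fin m) ℂ),
      opNorms E m (Matrix.of fun i j => e (fun k => Z k i j)) = nrm T m Z := he
  have hnorm : ∀ v : J ⊕ I → ℂ, ‖e v‖ₑ = nrm T 1 (sc v) := by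
    intro v
    exact (opNorms_one E (e v)).symm.trans (hN 1 (sc v))
  have hle : ∀ v : J ⊕ I → ℂ, Dom A (sc v) → ‖e v‖ ≤ 1 := by
    intro v hv
    have h := nrm_le_one T 1 (sc v) hv
    rw [← hnorm, ← ofReal_norm, ← ENNReal.ofReal_one] at h
    exact (ENNReal.ofReal_le_ofReal_iff zero_le_one).mp h
  have hge : ∀ v u : J ⊕ I → ℂ, Dom (fun i j => ¬ A i j) (sc u) → ‖∑ k, v k * u k‖ ≤ ‖e v‖ := by
    intro v u hu
    have h := le_nrm_sc T v u hu
    rw [← hnorm, ← ofReal_norm, ← ofReal_norm] at h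
    exact (ENNReal.ofReal_le_ofReal_iff (norm_nonneg _)).mp h
  obtain ⟨k₀⟩ := (inferInstance : Nonempty (J ⊕ I))
  obtain ⟨e', he'⟩ := dual_coord (opNorms E) e
  have hN' : ∀ (m : ℕ) (U : J ⊕ I → Matrix (Fin m) (Fin m) ℂ),
      dualNorms (opNorms E) m (Matrix.of fun i j => e' (fun k => U k i j)) = dnrm T m U := by
    intro m U
    rw [he', dnrm]
    simp only [hN]
  refine ⟨?_, ?_, ?_, ?_, ?_⟩
  · refine le_antisymm (dSK_primal T _ e hN) ?_
    have h1 := hN 1 (sc (Pi.single k₀ 1))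
    rw [nrm_single] at h1
    refine one_le_dSK _ (fun c hc X => dc_opNorms_smul E 1 c hc X)
      (Matrix.of fun i j => e (fun k => sc (Pi.single k₀ 1) k i j)) ?_ ?_
    · rw [h1]; exact one_ne_zero
    · rw [h1]; exact ENNReal.one_ne_top
  · refine le_antisymm (dSK_dual T T' _ e' hN') ?_
    have h1 := hN' 1 (sc (Pi.single k₀ 1))
    rw [dnrm_single] at h1
    refine one_le_dSK _ (fun c hc X => dualNorms_smul (opNorms E) 1 c hc X)
      (Matrix.of fun i j => e' (fun k => sc (Pi.single k₀ 1) k i j)) ?_ ?_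
    · rw [h1]; exact one_ne_zero
    · rw [h1]; exact ENNReal.one_ne_top
  · intro k
    refine le_antisymm (hle _ (dom_sc_single A k)) ?_
    have h := hge (Pi.single k 1) (Pi.single k 1) (dom_sc_single _ k)
    have h2 : ∑ k', (Pi.single k 1 : J ⊕ I → ℂ) k' * (Pi.single k 1 : J ⊕ I → ℂ) k' = 1 := by
      rw [Finset.sum_eq_single k]
      · simp
      · intro k' _ hk; simp [hk]
      · simp
    rw [h2, norm_one] at h
    exact h
  · intro i j hij ζ hζ
    have h1 : e (Pi.single (Sum.inl j) 1) + ζ • e (Pi.single (Sum.inr i) 1) = e (tw i j 1 ζ) := by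
      rw [tw_eq, map_add, map_smul, map_smul, one_smul]
    rw [h1]
    exact hle _ (dom_tw A i j hij ζ hζ)
  · intro i j hij s t ζ hζ
    have h1 : s • e (Pi.single (Sum.inl j) 1) + t • e (Pi.single (Sum.inr i) 1) =
        e (tw i j s t) := by
      rw [tw_eq, map_add, map_smul, map_smul]
    rw [h1]
    have h2 := hge (tw i j s t) (tw i j 1 ζ) (dom_tw _ i j hij ζ hζ)
    rw [sum_tw, mul_one, mul_comm t ζ] at h2
    exact h2

end main

section family

/-- For `a = b` or `a = b + 1` there is an `(a + b)`-dimensional operator space, 1-exact with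
1-exact dual, at Banach-Mazur distance at least `2 cos (π / (a + b + 2))` from `ℓ₂`. -/
theorem family_ab (a b : ℕ) (hab : a = b ∨ a = b + 1) (ha : 0 < a) :
    ∃ (H : Type) (_ : NormedAddCommGroup H) (_ : InnerProductSpace ℂ H) (_ : CompleteSpace H)
      (E : Submodule ℂ (H →L[ℂ] H)), FiniteDimensional ℂ E ∧ Module.finrank ℂ E = a + b ∧
      dSK (opNorms E) = 1 ∧ dSK (dualNorms (opNorms E)) = 1 ∧
      ENNReal.ofReal (2 * Real.cos (Real.pi / ((a + b : ℕ) + 2))) ≤ distHilbert E := by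
  have hne : Nonempty (Fin a ⊕ Fin b) := ⟨Sum.inl ⟨0, ha⟩⟩
  obtain ⟨H, i1, i2, i3, E, e, h1, h2, h3, h4, h5⟩ :=
    exists_space (I := Fin b) (J := Fin a) (fun i j => (j : ℕ) ≤ (i : ℕ))
  refine ⟨H, i1, i2, i3, E, ?_, ?_, h1, h2, ?_⟩
  · exact LinearEquiv.finiteDimensional e
  · rw [← LinearEquiv.finrank_eq e]
    simp
  · refine chain E a b hab ha (fun j => e (Pi.single (Sum.inl j) 1))
      (fun i => e (Pi.single (Sum.inr i) 1)) (fun j => (h3 _).ge) (fun i => (h3 _).ge)
      (fun j => (h3 _).le) (fun i => (h3 _).le) ?_ ?_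
    · intro i j hij
      refine ⟨?_, ?_⟩
      · have h := h4 i j hij 1 (by simp)
        have h6 : e (Pi.single (Sum.inl j) 1) + (1 : ℂ) • e (Pi.single (Sum.inr i) 1) =
            e (Pi.single (Sum.inl j) 1) + e (Pi.single (Sum.inr i) 1) := by module
        rw [h6] at h
        exact h
      · have h := h4 i j hij (-1) (by simp)
        have h6 : e (Pi.single (Sum.inl j) 1) + (-1 : ℂ) • e (Pi.single (Sum.inr i) 1) =
            e (Pi.single (Sum.inl j) 1) - e (Pi.single (Sum.inr i) 1) := by module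
        rw [h6] at h
        exact h
    · intro i j hij s t hs ht
      have hst : ‖((s : ℂ) + 1 * (t : ℂ))‖ = s + t := by
        rw [one_mul, ← Complex.ofReal_add, Complex.norm_real, Real.norm_of_nonneg (by positivity)]
      refine ⟨?_, ?_⟩
      · have := h5 i j (by simpa using hij) s t 1 (by simp)
        rwa [hst] at this
      · have h := h5 i j (by simpa using hij) s (-t) (-1) (by simp)
        have h6 : (s : ℂ) • e (Pi.single (Sum.inl j) 1) + (-(t : ℂ)) • e (Pi.single (Sum.inr i) 1) =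
            (s : ℂ) • e (Pi.single (Sum.inl j) 1) - (t : ℂ) • e (Pi.single (Sum.inr i) 1) := by
          module
        rw [neg_mul_neg, hst, h6] at h
        exact h

theorem family_N (N : ℕ) (hN : 0 < N) :
    ∃ (H : Type) (_ : NormedAddCommGroup H) (_ : InnerProductSpace ℂ H) (_ : CompleteSpace H)
      (E : Submodule ℂ (H →L[ℂ] H)), FiniteDimensional ℂ E ∧ Module.finrank ℂ E = N ∧
      dSK (opNorms E) = 1 ∧ dSK (dualNorms (opNorms E)) = 1 ∧
      ENNReal.ofReal (2 * Real.cos (Real.pi / (N + 2))) ≤ distHilbert E := by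
  rcases Nat.even_or_odd' N with ⟨n, h | h⟩
  · have h1 := family_ab n n (Or.inl rfl) (by omega)
    have h2 : n + n = N := by omega
    rw [h2] at h1
    exact h1
  · have h1 := family_ab (n + 1) n (Or.inr rfl) (by omega)
    have h2 : n + 1 + n = N := by omega
    rw [h2] at h1
    exact h1

theorem two_le_cStar : 2 ≤ cStar := by
  have h1 : ∀ N : ℕ, ENNReal.ofReal (2 * Real.cos (Real.pi / ((N : ℝ) + 1 + 2))) ≤ cStar := by
    intro N
    obtain ⟨H, i1, i2, i3, E, hfin, _, h2, h3, h4⟩ := family_N (N + 1) (Nat.succ_pos N)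
    have h5 : ENNReal.ofReal (2 * Real.cos (Real.pi / ((N : ℝ) + 1 + 2))) ≤ distHilbert E := by
      rw [Nat.cast_add, Nat.cast_one] at h4
      exact h4
    refine h5.trans ?_
    unfold cStar
    exact le_iSup_of_le H (le_iSup_of_le i1 (le_iSup_of_le i2 (le_iSup_of_le i3
      (le_iSup_of_le E (le_iSup_of_le hfin (le_iSup_of_le h2 (le_iSup_of_le h3 le_rfl)))))))
  have h2 : Filter.Tendsto (fun N : ℕ => ENNReal.ofReal (2 * Real.cos (Real.pi / ((N : ℝ) + 1 + 2))))
      Filter.atTop (nhds (ENNReal.ofReal 2)) := by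
    refine ENNReal.tendsto_ofReal ?_
    have h3 : Filter.Tendsto (fun N : ℕ => Real.pi / ((N : ℝ) + 1 + 2)) Filter.atTop (nhds 0) := by
      refine Filter.Tendsto.div_atTop tendsto_const_nhds ?_
      have : Filter.Tendsto (fun N : ℕ => (N : ℝ)) Filter.atTop Filter.atTop :=
        tendsto_natCast_atTop_atTop
      exact Filter.tendsto_atTop_add_const_right _ _ (Filter.tendsto_atTop_add_const_right _ _ this)
    have h4 := ((Real.continuous_cos.tendsto 0).comp h3).const_mul 2
    rw [Real.cos_zero, mul_one] at h4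
    exact h4
  have h3 : ENNReal.ofReal 2 ≤ cStar := le_of_tendsto' h2 h1
  simpa using h3

end family

end Pool.Agent.H33.OS
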