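import Mathlib

/-!
# Operator spaces: the definitions used in the statement (MP_f82f05_an)
-/

open scoped ENNReal

namespace Pool.Agent.H33.OS.Pub

/-- A complex Hilbert space. -/
structure Hilb where
  V : Type
  [grp : NormedAddCommGroup V]
  [inn : InnerProductSpace ℂ V]
  [cpl : CompleteSpace V]

attribute [instance] Hilb.grp Hilb.inn Hilb.cpl

/-- A complex normed space. -/
structure Nrm where
  V : Type
  [grp : NormedAddCommGroup V]
  [spc : NormedSpace ℂ V]

attribute [instance] Nrm.grp Nrm.spc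

/-- The Hilbert space `ℓ₂`. -/
noncomputable def L2 : Hilb := ⟨lp (fun _ : ℕ => ℂ) 2⟩

/-- The normed space of the bounded operators on a Hilbert space. -/
noncomputable def B (H : Hilb) : Nrm := ⟨H.V →L[ℂ] H.V⟩

/-- Value of an operator at a vector. -/
def app {H : Hilb} (T : (B H).V) (v : H.V) : H.V := (show H.V →L[ℂ] H.V from T) v

/-- A system of matrix norms on a vector space `V`: one function on `M_m(V)` for each `m`, with
values in `[0, ∞]`. -/
abbrev MatNorms (V : Type) := ∀ m : ℕ, Matrix (Fin m) (Fin m) V → ℝ≥0∞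

/-- The norm of a matrix `(T i j)` of operators on `H`, as an operator on the ℓ₂-sum `H^m`. -/
noncomputable def opNorm {H : Hilb} (m : ℕ) (T : Fin m → Fin m → (B H).V) : ℝ≥0∞ :=
  ⨆ (v : Fin m → H.V) (_ : ∑ j, ‖v j‖ ^ 2 ≤ 1),
    ENNReal.ofReal (Real.sqrt (∑ i, ‖∑ j, app (T i j) (v j)‖ ^ 2))

/-- The matrix norms of a concrete operator space `E ⊆ B(H)`. -/
noncomputable def norms {H : Hilb} (E : Submodule ℂ (B H).V) : MatNorms E :=
  fun m X => opNorm m (fun i j => (X i j : (B H).V))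

/-- The norm of a matrix with entries in `M_n`, as a complex matrix of size `mn`. -/
noncomputable def matNorms (n : ℕ) : MatNorms (Matrix (Fin n) (Fin n) ℂ) :=
  fun m X => ⨆ (v : Fin m → Fin n → ℂ) (_ : ∑ j, ∑ b, ‖v j b‖ ^ 2 ≤ 1),
    ENNReal.ofReal (Real.sqrt (∑ i, ∑ a, ‖∑ j, ∑ b, X i j a b * v j b‖ ^ 2))

/-- The completely bounded norm of a linear map (in `[0, ∞]`). -/
noncomputable def cbNorm {V W : Type} [AddCommGroup V] [Module ℂ V] [AddCommGroup W] [Module ℂ W]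
    (N : MatNorms V) (N' : MatNorms W) (u : V →ₗ[ℂ] W) : ℝ≥0∞ :=
  ⨆ (m : ℕ) (X : Matrix (Fin m) (Fin m) V) (_ : N m X ≤ 1), N' m (X.map u)

/-- A matrix of functionals, as a linear map into `M_m`. -/
def dualMap {V : Type} [AddCommGroup V] [Module ℂ V] {m : ℕ}
    (F : Matrix (Fin m) (Fin m) (Module.Dual ℂ V)) : V →ₗ[ℂ] Matrix (Fin m) (Fin m) ℂ where
  toFun x := Matrix.of fun i j => F i j x
  map_add' x y := by ext i j; simp
  map_smul' c x := by ext i j; simp

/-- The matrix norms of the operator space dual `E*`: `M_m(E*) = CB(E, M_m)`. -/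
noncomputable def dualNorms {V : Type} [AddCommGroup V] [Module ℂ V] (N : MatNorms V) :
    MatNorms (Module.Dual ℂ V) :=
  fun m F => cbNorm N (matNorms m) (dualMap F)

/-- The completely bounded Banach-Mazur distance. -/
noncomputable def dcb {V W : Type} [AddCommGroup V] [Module ℂ V] [AddCommGroup W] [Module ℂ W]
    (N : MatNorms V) (N' : MatNorms W) : ℝ≥0∞ :=
  ⨅ u : V ≃ₗ[ℂ] W, cbNorm N N' (u : V →ₗ[ℂ] W) * cbNorm N' N (u.symm : W →ₗ[ℂ] V)

/-- `d_{SK}(E)`: the infimum of `d_cb(E, F)` over the subspaces `F` of `K(ℓ₂)`. -/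
noncomputable def dSK {V : Type} [AddCommGroup V] [Module ℂ V] (N : MatNorms V) : ℝ≥0∞ :=
  ⨅ (F : Submodule ℂ (B L2).V) (_ : ∀ T ∈ F, IsCompactOperator (app T)), dcb N (norms F)

/-- The Banach-Mazur distance to the Hilbert space `ℓ₂ⁿ`; the norm of `x` is its norm as a
`1 × 1` matrix. -/
noncomputable def distHilbert {V : Type} [AddCommGroup V] [Module ℂ V] (N : MatNorms V) (n : ℕ) :
    ℝ≥0∞ :=
  ⨅ u : V ≃ₗ[ℂ] (Fin n → ℂ),
    (⨆ (x : V) (_ : N 1 (Matrix.of fun _ _ => x) ≤ 1),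
      ENNReal.ofReal (Real.sqrt (∑ i, ‖u x i‖ ^ 2))) *
    (⨆ (y : Fin n → ℂ) (_ : ∑ i, ‖y i‖ ^ 2 ≤ 1), N 1 (Matrix.of fun _ _ => u.symm y))

/-- An operator space of dimension `n`: an `n`-dimensional subspace of some `B(H)`. -/
structure OpSpace (n : ℕ) where
  H : Hilb
  E : Submodule ℂ (B H).V
  fin : FiniteDimensional ℂ E
  dim : Module.finrank ℂ E = n

/-- `d_{SK}(E)`. -/
noncomputable def OpSpace.sk {n : ℕ} (X : OpSpace n) : ℝ≥0∞ := dSK (norms X.E)

/-- `d_{SK}(E*)`. -/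
noncomputable def OpSpace.skDual {n : ℕ} (X : OpSpace n) : ℝ≥0∞ := dSK (dualNorms (norms X.E))

/-- `d(E, ℓ₂ⁿ)`. -/
noncomputable def OpSpace.dist {n : ℕ} (X : OpSpace n) : ℝ≥0∞ := distHilbert (norms X.E) n

end Pool.Agent.H33.OS.Pub
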