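import Pool.Agent.H33.OS.Defs

/-!
# Module P3 of THEOREM OS: the Banach-Mazur distance with plain vectors
-/

open scoped ENNReal
open scoped Matrix.Norms.L2Operator

namespace Pool.Agent.H33.OS

/-- P3: the right side is the formula of `Pub.distHilbert`. -/
theorem dist_le {H : Type} [NormedAddCommGroup H] [InnerProductSpace ℂ H]
    (E : Submodule ℂ (H →L[ℂ] H)) (n : ℕ) (hn : Module.finrank ℂ E = n) :
    distHilbert E ≤ ⨅ u : E ≃ₗ[ℂ] (Fin n → ℂ),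
    (⨆ (x : E) (_ : ‖x‖ₑ ≤ 1), ENNReal.ofReal (Real.sqrt (∑ i, ‖u x i‖ ^ 2))) *
    (⨆ (y : Fin n → ℂ) (_ : ∑ i, ‖y i‖ ^ 2 ≤ 1), ‖u.symm y‖ₑ) := by
  subst hn
  refine le_iInf fun u => ?_
  refine iInf_le_of_le (u.trans (WithLp.linearEquiv 2 ℂ (Fin (Module.finrank ℂ E) → ℂ)).symm) ?_
  refine mul_le_mul' ?_ ?_
  · refine iSup_le fun x => iSup_le fun hx => ?_
    have hx' : ‖x‖ₑ ≤ 1 := by
      rw [← ofReal_norm]
      exact ENNReal.ofReal_le_one.2 hx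
    refine le_trans (le_of_eq ?_) (le_iSup₂ (f := fun (x : E) (_ : ‖x‖ₑ ≤ 1) =>
      ENNReal.ofReal (Real.sqrt (∑ i, ‖u x i‖ ^ 2))) x hx')
    rw [← ofReal_norm, EuclideanSpace.norm_eq]
    rfl
  · refine iSup_le fun y => iSup_le fun hy => ?_
    have hy' : ∑ i, ‖(WithLp.linearEquiv 2 ℂ (Fin (Module.finrank ℂ E) → ℂ)) y i‖ ^ 2 ≤ 1 := by
      have h := EuclideanSpace.norm_sq_eq y
      have h2 : ‖y‖ ^ 2 ≤ 1 := pow_le_one₀ (norm_nonneg _) hy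
      rw [h] at h2
      exact h2
    exact le_trans (le_of_eq rfl) (le_iSup₂ (f := fun (y : Fin (Module.finrank ℂ E) → ℂ)
      (_ : ∑ i, ‖y i‖ ^ 2 ≤ 1) => ‖u.symm y‖ₑ)
        ((WithLp.linearEquiv 2 ℂ (Fin (Module.finrank ℂ E) → ℂ)) y) hy')

end Pool.Agent.H33.OS
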