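import Pool.Agent.H33.OS.Pub
import Pool.Agent.H33.OS.Defs

/-!
# Bridge P2: the public matrix norms of `M_n` are the L2 operator norms
-/

open scoped ENNReal
open scoped Matrix.Norms.L2Operator

namespace Pool.Agent.H33.OS

open Matrix

private lemma p2_norm (n m : ℕ) (X : Matrix (Fin m) (Fin m) (Matrix (Fin n) (Fin n) ℂ))
    (w : EuclideanSpace ℂ (Fin m × Fin n)) :
    Real.sqrt (∑ i, ∑ a, ‖∑ j, ∑ b, X i j a b * w (j, b)‖ ^ 2) =
      ‖WithLp.toLp 2 ((Matrix.comp (Fin m) (Fin m) (Fin n) (Fin n) ℂ X) *ᵥ (WithLp.ofLp w))‖ := by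
  rw [EuclideanSpace.norm_eq]
  congr 1
  rw [Fintype.sum_prod_type]
  refine Finset.sum_congr rfl fun i _ => Finset.sum_congr rfl fun a _ => ?_
  congr 2
  simp only [Matrix.mulVec, dotProduct]
  rw [Fintype.sum_prod_type]
  rfl

theorem matNorms_eq (n m : ℕ) (X : Matrix (Fin m) (Fin m) (Matrix (Fin n) (Fin n) ℂ)) :
    Pub.matNorms n m X = matNorms n m X := by
  set A : Matrix (Fin m × Fin n) (Fin m × Fin n) ℂ :=
    Matrix.comp (Fin m) (Fin m) (Fin n) (Fin n) ℂ X with hA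
  have hR : matNorms n m X = ‖A‖ₑ := rfl
  have hle : Pub.matNorms n m X ≤ ‖A‖ₑ := by
    refine iSup₂_le fun v hv => ?_
    have h1 := p2_norm n m X (WithLp.toLp 2 (fun p : Fin m × Fin n => v p.1 p.2))
    have h2 : Real.sqrt (∑ i, ∑ a, ‖∑ j, ∑ b, X i j a b * v j b‖ ^ 2) ≤ ‖A‖ := by
      refine (le_of_eq h1).trans ?_
      refine (Matrix.l2_opNorm_mulVec A _).trans ?_
      have h3 : ‖(WithLp.toLp 2 (fun p : Fin m × Fin n => v p.1 p.2) : EuclideanSpace ℂ (Fin m × Fin n))‖ ≤ 1 := by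
        rw [EuclideanSpace.norm_eq, Real.sqrt_le_one, Fintype.sum_prod_type]
        exact hv
      calc ‖A‖ * _ ≤ ‖A‖ * 1 := mul_le_mul_of_nonneg_left h3 (norm_nonneg _)
        _ = ‖A‖ := mul_one _
    rw [← ofReal_norm]
    exact ENNReal.ofReal_le_ofReal h2
  rw [hR]
  refine le_antisymm hle ?_
  have hfin : Pub.matNorms n m X ≠ ⊤ := ne_top_of_le_ne_top (by simp) hle
  have hreal : ‖A‖ ≤ (Pub.matNorms n m X).toReal := by
    rw [Matrix.l2_opNorm_def]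
    refine ContinuousLinearMap.opNorm_le_bound _ ENNReal.toReal_nonneg fun w => ?_
    have hAw : ‖(((Matrix.toEuclideanLin (𝕜 := ℂ) (m := Fin m × Fin n) (n := Fin m × Fin n)).trans
        LinearMap.toContinuousLinearMap) A) w‖ =
        Real.sqrt (∑ i, ∑ a, ‖∑ j, ∑ b, X i j a b * w (j, b)‖ ^ 2) := by
      rw [p2_norm]
      rfl
    rw [hAw]
    rcases eq_or_ne w 0 with h0 | h0
    · subst h0
      simp
    · have hc : 0 < ‖w‖ := norm_pos_iff.mpr h0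
      have hv : ∑ j, ∑ b, ‖((‖w‖⁻¹ : ℝ) : ℂ) * w (j, b)‖ ^ 2 ≤ 1 := by
        have h4 : ∑ j, ∑ b, ‖w (j, b)‖ ^ 2 = ‖w‖ ^ 2 := by
          rw [EuclideanSpace.norm_eq, Real.sq_sqrt (Finset.sum_nonneg fun _ _ => by positivity), Fintype.sum_prod_type]
        have h5 : ∀ j b, ‖((‖w‖⁻¹ : ℝ) : ℂ) * w (j, b)‖ ^ 2 = (‖w‖⁻¹) ^ 2 * ‖w (j, b)‖ ^ 2 := by
          intro j b
          rw [norm_mul, mul_pow, Complex.norm_real, Real.norm_of_nonneg (by positivity)]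
        simp_rw [h5]
        simp_rw [← Finset.mul_sum]
        rw [h4, ← mul_pow, inv_mul_cancel₀ hc.ne', one_pow]
      have h6 : ENNReal.ofReal (Real.sqrt (∑ i, ∑ a, ‖∑ j, ∑ b, X i j a b * (((‖w‖⁻¹ : ℝ) : ℂ) * w (j, b))‖ ^ 2)) ≤
          Pub.matNorms n m X :=
        le_iSup₂_of_le (f := fun (v : Fin m → Fin n → ℂ) (_ : ∑ j, ∑ b, ‖v j b‖ ^ 2 ≤ 1) =>
          ENNReal.ofReal (Real.sqrt (∑ i, ∑ a, ‖∑ j, ∑ b, X i j a b * v j b‖ ^ 2)))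
          (fun j b => ((‖w‖⁻¹ : ℝ) : ℂ) * w (j, b)) hv le_rfl
      have h7 : Real.sqrt (∑ i, ∑ a, ‖∑ j, ∑ b, X i j a b * (((‖w‖⁻¹ : ℝ) : ℂ) * w (j, b))‖ ^ 2) ≤
          (Pub.matNorms n m X).toReal := by
        rw [ENNReal.ofReal_le_iff_le_toReal hfin] at h6
        exact h6
      have h8 : ∀ i a, ∑ j, ∑ b, X i j a b * (((‖w‖⁻¹ : ℝ) : ℂ) * w (j, b)) =
          ((‖w‖⁻¹ : ℝ) : ℂ) * ∑ j, ∑ b, X i j a b * w (j, b) := by
        intro i a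
        simp_rw [Finset.mul_sum]
        refine Finset.sum_congr rfl fun j _ => Finset.sum_congr rfl fun b _ => ?_
        ring
      have h9 : Real.sqrt (∑ i, ∑ a, ‖∑ j, ∑ b, X i j a b * (((‖w‖⁻¹ : ℝ) : ℂ) * w (j, b))‖ ^ 2) =
          ‖w‖⁻¹ * Real.sqrt (∑ i, ∑ a, ‖∑ j, ∑ b, X i j a b * w (j, b)‖ ^ 2) := by
        have h10 : ∀ i a, ‖∑ j, ∑ b, X i j a b * (((‖w‖⁻¹ : ℝ) : ℂ) * w (j, b))‖ ^ 2 =
            (‖w‖⁻¹) ^ 2 * ‖∑ j, ∑ b, X i j a b * w (j, b)‖ ^ 2 := by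
          intro i a
          rw [h8, norm_mul, mul_pow, Complex.norm_real, Real.norm_of_nonneg (by positivity)]
        simp_rw [h10]
        simp_rw [← Finset.mul_sum]
        rw [Real.sqrt_mul (by positivity), Real.sqrt_sq (by positivity)]
      rw [h9] at h7
      calc Real.sqrt (∑ i, ∑ a, ‖∑ j, ∑ b, X i j a b * w (j, b)‖ ^ 2)
          = (‖w‖⁻¹ * Real.sqrt (∑ i, ∑ a, ‖∑ j, ∑ b, X i j a b * w (j, b)‖ ^ 2)) * ‖w‖ := by
            field_simp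
        _ ≤ (Pub.matNorms n m X).toReal * ‖w‖ := mul_le_mul_of_nonneg_right h7 hc.le
  calc ‖A‖ₑ = ENNReal.ofReal ‖A‖ := (ofReal_norm A).symm
    _ ≤ ENNReal.ofReal (Pub.matNorms n m X).toReal := ENNReal.ofReal_le_ofReal hreal
    _ = Pub.matNorms n m X := ENNReal.ofReal_toReal hfin

end Pool.Agent.H33.OS
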