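import Pool.Agent.H33.OS.PubOp
import Pool.Agent.H33.OS.PubMat
import Pool.Agent.H33.OS.PubDist
import Pool.Agent.H33.OS.Main

/-!
# Bridge to the public definitions (MP_f82f05_an)
-/

open scoped ENNReal
open scoped Matrix.Norms.L2Operator

namespace Pool.Agent.H33.OS

open Matrix

theorem pub_norms_eq {H : Type} [NormedAddCommGroup H] [InnerProductSpace ℂ H] [CompleteSpace H]
    (E : Submodule ℂ (H →L[ℂ] H)) :
    @Eq (MatNorms E) (Pub.norms (H := ⟨H⟩) E) (opNorms E) := by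
  funext m X
  exact opNorm_eq m (X.map (fun T : E => (T : H →L[ℂ] H)))

theorem pub_dSK_eq {V : Type} [AddCommGroup V] [Module ℂ V] (N : MatNorms V) :
    Pub.dSK N = dSK N := by
  unfold Pub.dSK dSK
  refine iInf_congr (fun F => iInf_congr (fun _ => ?_))
  show Pub.dcb N (Pub.norms (H := Pub.L2) F) = dcb N (opNorms (H := Ell2) F)
  rw [← pub_norms_eq (H := Ell2) F]
  rfl

theorem pub_dualNorms_eq {V : Type} [AddCommGroup V] [Module ℂ V] (N : MatNorms V) :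
    Pub.dualNorms N = dualNorms N := by
  funext m F
  have h : Pub.matNorms m = matNorms m := by
    funext k X
    exact matNorms_eq m k X
  unfold Pub.dualNorms dualNorms
  rw [h]
  rfl

theorem pub_family (N : ℕ) (hN : 0 < N) :
    ∃ X : Pub.OpSpace N, X.sk = 1 ∧ X.skDual = 1 ∧
      ENNReal.ofReal (2 * Real.cos (Real.pi / (N + 2))) ≤ X.dist := by
  obtain ⟨H, i1, i2, i3, E, hfin, hdim, h1, h2, h3⟩ := family_N N hN
  let X : Pub.OpSpace N := ⟨⟨H⟩, E, hfin, hdim⟩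
  have hE : @Eq (MatNorms E) (Pub.norms (H := ⟨H⟩) E) (opNorms E) := pub_norms_eq E
  refine ⟨X, ?_, ?_, ?_⟩
  · show Pub.dSK (Pub.norms (H := ⟨H⟩) E) = 1
    rw [← h1]
    refine (pub_dSK_eq _).trans ?_
    exact congrArg (dSK (V := E)) hE
  · show Pub.dSK (Pub.dualNorms (Pub.norms (H := ⟨H⟩) E)) = 1
    rw [← h2]
    refine (pub_dSK_eq _).trans ?_
    refine congrArg (dSK (V := Module.Dual ℂ E)) ?_
    refine (pub_dualNorms_eq _).trans ?_
    exact congrArg (dualNorms (V := E)) hE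
  · show _ ≤ Pub.distHilbert (Pub.norms (H := ⟨H⟩) E) N
    refine h3.trans ((dist_le E N hdim).trans ?_)
    have h4 : ∀ x : E, opNorms E 1 (Matrix.of fun _ _ => x) = ‖x‖ₑ := opNorms_one E
    have h5 : ∀ x : E, (Pub.norms (H := ⟨H⟩) E) 1 (Matrix.of fun _ _ => x) = ‖x‖ₑ := by
      intro x
      rw [← h4]
      exact congrFun (congrFun hE 1) _
    refine le_of_eq ?_
    show _ = (⨅ u : E ≃ₗ[ℂ] (Fin N → ℂ),
      (⨆ (x : E) (_ : (Pub.norms (H := ⟨H⟩) E) 1 (Matrix.of fun _ _ => x) ≤ 1),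
        ENNReal.ofReal (Real.sqrt (∑ i, ‖u x i‖ ^ 2))) *
      (⨆ (y : Fin N → ℂ) (_ : ∑ i, ‖y i‖ ^ 2 ≤ 1),
        (Pub.norms (H := ⟨H⟩) E) 1 (Matrix.of fun _ _ => u.symm y)))
    simp only [h5]
    rfl

end Pool.Agent.H33.OS
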