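import Pool.Agent.H33.OS.Defs

/-!
# The norm of an operator matrix as a supremum over vectors (MP_f82f05_an)
-/

open scoped ENNReal

namespace Pool.Agent.H33.OS

open Matrix

theorem opNorm_eq {H : Type} [NormedAddCommGroup H] [InnerProductSpace ℂ H] (m : ℕ)
    (T : Matrix (Fin m) (Fin m) (H →L[ℂ] H)) :
    (⨆ (v : Fin m → H) (_ : ∑ j, ‖v j‖ ^ 2 ≤ 1),
      ENNReal.ofReal (Real.sqrt (∑ i, ‖∑ j, T i j (v j)‖ ^ 2))) = ‖opMat T‖ₑ := by
  have happ : ∀ (w : PiLp 2 (fun _ : Fin m => H)) (i : Fin m), (opMat T w) i = ∑ j, T i j (w j) := by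
    intro w i
    simp [opMat]
  have hnorm : ∀ w : PiLp 2 (fun _ : Fin m => H), ‖opMat T w‖ =
      Real.sqrt (∑ i, ‖∑ j, T i j (w j)‖ ^ 2) := by
    intro w
    rw [PiLp.norm_eq_of_L2]
    simp only [happ]
  refine le_antisymm ?_ ?_
  · refine iSup_le (fun v => iSup_le (fun hv => ?_))
    have h1 : ‖(WithLp.toLp 2 v : PiLp 2 (fun _ : Fin m => H))‖ ≤ 1 := by
      rw [PiLp.norm_eq_of_L2]
      exact Real.sqrt_le_one.mpr hv
    have h2 := (opMat T).le_opNorm (WithLp.toLp 2 v)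
    rw [hnorm] at h2
    rw [← ofReal_norm]
    refine ENNReal.ofReal_le_ofReal ?_
    refine h2.trans ?_
    have h3 := mul_le_mul_of_nonneg_left h1 (ContinuousLinearMap.opNorm_nonneg (opMat T))
    rwa [mul_one] at h3
  · set S := (⨆ (v : Fin m → H) (_ : ∑ j, ‖v j‖ ^ 2 ≤ 1),
      ENNReal.ofReal (Real.sqrt (∑ i, ‖∑ j, T i j (v j)‖ ^ 2))) with hS
    by_cases hinf : S = ∞
    · rw [hinf]; exact le_top
    have hb : ∀ v : Fin m → H, ∑ j, ‖v j‖ ^ 2 ≤ 1 →
        Real.sqrt (∑ i, ‖∑ j, T i j (v j)‖ ^ 2) ≤ S.toReal := by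
      intro v hv
      have h1 : ENNReal.ofReal (Real.sqrt (∑ i, ‖∑ j, T i j (v j)‖ ^ 2)) ≤ S := by
        rw [hS]
        exact le_iSup_of_le v (le_iSup_of_le hv le_rfl)
      have h2 := ENNReal.toReal_mono hinf h1
      rwa [ENNReal.toReal_ofReal (Real.sqrt_nonneg _)] at h2
    have h3 : ‖opMat T‖ ≤ S.toReal := by
      refine ContinuousLinearMap.opNorm_le_bound _ ENNReal.toReal_nonneg (fun w => ?_)
      by_cases hw : ‖w‖ = 0
      · have hw0 : w = 0 := norm_eq_zero.mp hw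
        rw [hw0]; simp
      have hwpos : 0 < ‖w‖ := lt_of_le_of_ne (norm_nonneg _) (Ne.symm hw)
      set u : PiLp 2 (fun _ : Fin m => H) := ((‖w‖⁻¹ : ℝ) : ℂ) • w with hu
      have hun : ‖u‖ = 1 := by
        rw [hu, norm_smul, Complex.norm_real, Real.norm_of_nonneg (by positivity),
          inv_mul_cancel₀ hw]
      have hsum : ∑ j, ‖u j‖ ^ 2 ≤ 1 := by
        have h4 := PiLp.norm_sq_eq_of_L2 (fun _ : Fin m => H) u
        rw [hun] at h4
        rw [← h4]; norm_num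
      have h5 := hb (fun j => u j) hsum
      rw [← hnorm u, hu, map_smul, norm_smul, Complex.norm_real,
        Real.norm_of_nonneg (by positivity), inv_mul_le_iff₀ hwpos] at h5
      rw [mul_comm]
      exact h5
    rw [← ofReal_norm]
    exact ENNReal.ofReal_le_of_le_toReal h3

end Pool.Agent.H33.OS
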