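import Pool.Agent.H33.OS.Base

/-!
# Transposes, swaps and reindexing of the pairing and of `Dom` (MP_f82f05_an)
-/

open scoped ENNReal
open scoped Matrix.Norms.L2Operator
open scoped Kronecker ComplexOrder

namespace Pool.Agent.H33.OS

open Matrix

namespace Reidx

lemma norm_le_of {m n : Type} [Fintype m] [Fintype n] [DecidableEq m] [DecidableEq n]
    (A : Matrix m m ℂ) (B : Matrix n n ℂ)
    (h : ∀ v : m → ℂ, ∃ w : n → ℂ, (∑ i, ‖w i‖ ^ 2 ≤ ∑ i, ‖v i‖ ^ 2) ∧
      ∑ i, ‖(A *ᵥ v) i‖ ^ 2 ≤ ∑ i, ‖(B *ᵥ w) i‖ ^ 2) : ‖A‖ ≤ ‖B‖ := by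
  rw [← l2_opNorm_toEuclideanCLM A]
  refine ContinuousLinearMap.opNorm_le_bound _ (norm_nonneg _) fun v => ?_
  obtain ⟨w, hw, hw2⟩ := h v.ofLp
  have h1 : ‖toEuclideanCLM (n := m) (𝕜 := ℂ) A v‖ ≤
      ‖toEuclideanCLM (n := n) (𝕜 := ℂ) B (WithLp.toLp 2 w)‖ := by
    refine le_of_sq_le_sq ?_ (norm_nonneg _)
    rw [EuclideanSpace.norm_sq_eq, EuclideanSpace.norm_sq_eq]
    exact hw2
  have h2 : ‖(WithLp.toLp 2 w : EuclideanSpace ℂ n)‖ ≤ ‖v‖ := by
    refine le_of_sq_le_sq ?_ (norm_nonneg _)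
    rw [EuclideanSpace.norm_sq_eq, EuclideanSpace.norm_sq_eq]
    exact hw
  calc _ ≤ ‖toEuclideanCLM (n := n) (𝕜 := ℂ) B (WithLp.toLp 2 w)‖ := h1
    _ ≤ ‖toEuclideanCLM (n := n) (𝕜 := ℂ) B‖ * ‖(WithLp.toLp 2 w : EuclideanSpace ℂ n)‖ :=
        ContinuousLinearMap.le_opNorm _ _
    _ ≤ ‖B‖ * ‖v‖ := by
        rw [l2_opNorm_toEuclideanCLM]
        exact mul_le_mul_of_nonneg_left h2 (norm_nonneg _)

lemma norm_map_star_le {n : Type} [Fintype n] [DecidableEq n] (A : Matrix n n ℂ) :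
    ‖A.map star‖ ≤ ‖A‖ := by
  refine norm_le_of _ _ fun v => ⟨star v, ?_, ?_⟩
  · refine le_of_eq (Finset.sum_congr rfl fun i _ => ?_)
    simp
  · refine le_of_eq (Finset.sum_congr rfl fun i _ => ?_)
    have : (A.map star *ᵥ v) i = star ((A *ᵥ star v) i) := by
      simp [mulVec, dotProduct, star_sum, mul_comm]
    rw [this, norm_star]

lemma norm_map_star {n : Type} [Fintype n] [DecidableEq n] (A : Matrix n n ℂ) :
    ‖A.map star‖ = ‖A‖ := by
  refine le_antisymm (norm_map_star_le A) ?_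
  have h := norm_map_star_le (A.map star)
  have h2 : (A.map star).map star = A := by
    ext i j
    simp
  rwa [h2] at h

lemma norm_transpose {n : Type} [Fintype n] [DecidableEq n] (A : Matrix n n ℂ) :
    ‖Aᵀ‖ = ‖A‖ := by
  rw [← norm_map_star Aᵀ]
  exact l2_opNorm_conjTranspose A

lemma norm_reindex_le {m n : Type} [Fintype m] [Fintype n] [DecidableEq m] [DecidableEq n]
    (e : m ≃ n) (A : Matrix m m ℂ) : ‖reindex e e A‖ ≤ ‖A‖ := by
  refine norm_le_of _ _ fun v => ⟨v ∘ e, ?_, ?_⟩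
  · exact le_of_eq (Equiv.sum_comp e (fun i => ‖v i‖ ^ 2))
  · rw [← Equiv.sum_comp e]
    refine le_of_eq (Finset.sum_congr rfl fun i _ => ?_)
    have : (reindex e e A *ᵥ v) (e i) = (A *ᵥ (v ∘ e)) i := by
      simp only [mulVec, dotProduct, reindex_apply, submatrix_apply, Equiv.symm_apply_apply,
        Function.comp_apply]
      rw [← Equiv.sum_comp e]
      simp
    rw [this]

lemma norm_reindex {m n : Type} [Fintype m] [Fintype n] [DecidableEq m] [DecidableEq n]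
    (e : m ≃ n) (A : Matrix m m ℂ) : ‖reindex e e A‖ = ‖A‖ := by
  refine le_antisymm (norm_reindex_le e A) ?_
  have h := norm_reindex_le e.symm (reindex e e A)
  have h2 : reindex e.symm e.symm (reindex e e A) = A := by
    ext i j
    simp
  rwa [h2] at h

end Reidx

open Reidx

/-- F6 transposes preserve the pairing up to a transpose. -/
theorem norm_pair_transpose {κ ι ι' : Type} [Fintype κ] [Fintype ι] [DecidableEq ι] [Fintype ι']
    [DecidableEq ι'] (Z : κ → Matrix ι ι ℂ) (z : κ → Matrix ι' ι' ℂ) :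
    ‖pair (fun k => (Z k)ᵀ) (fun k => (z k)ᵀ)‖ = ‖pair Z z‖ := by
  rw [← Reidx.norm_transpose (pair Z z)]
  congr 1
  ext i j
  simp [pair, Matrix.sum_apply, kroneckerMap_apply]

/-- F7 swap -/
theorem norm_pair_comm {κ ι ι' : Type} [Fintype κ] [Fintype ι] [DecidableEq ι] [Fintype ι']
    [DecidableEq ι'] (Z : κ → Matrix ι ι ℂ) (z : κ → Matrix ι' ι' ℂ) :
    ‖pair z Z‖ = ‖pair Z z‖ := by
  rw [← Reidx.norm_reindex (Equiv.prodComm ι ι') (pair Z z)]
  congr 1
  ext i j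
  simp [pair, Matrix.sum_apply, kroneckerMap_apply, mul_comm]

/-- F8 reindexing: `Dom` is invariant. -/
theorem dom_reindex {I J : Type} [Fintype I] [Fintype J] (A : I → J → Prop) {ι ι' : Type}
    [Fintype ι] [DecidableEq ι] [Fintype ι'] [DecidableEq ι'] (f : ι ≃ ι')
    (Z : J ⊕ I → Matrix ι ι ℂ) (hZ : Dom A Z) : Dom A (fun k => reindex f f (Z k)) := by
  classical
  obtain ⟨c, d, hc, hd, hc1, hd1, h1, h2⟩ := hZ
  have hone : ∀ (s : Finset I) (c : I → Matrix ι ι ℂ),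
      (1 - ∑ i ∈ s, reindex f f (c i) : Matrix ι' ι' ℂ) =
        (1 - ∑ i ∈ s, c i).submatrix f.symm f.symm := by
    intro s c
    ext p q
    simp [Matrix.sum_apply, Matrix.one_apply]
  have hone' : ∀ (s : Finset J) (c : J → Matrix ι ι ℂ),
      (1 - ∑ i ∈ s, reindex f f (c i) : Matrix ι' ι' ℂ) =
        (1 - ∑ i ∈ s, c i).submatrix f.symm f.symm := by
    intro s c
    ext p q
    simp [Matrix.sum_apply, Matrix.one_apply]
  have hblk : ∀ (a b e : Matrix ι ι ℂ),
      fromBlocks (a.submatrix f.symm f.symm) (reindex f f b) (reindex f f b)ᴴ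
        (e.submatrix f.symm f.symm) =
      (fromBlocks a b bᴴ e).submatrix (Sum.map f.symm f.symm) (Sum.map f.symm f.symm) := by
    intro a b e
    ext p q
    rcases p with p | p <;> rcases q with q | q <;> simp
  refine ⟨fun i => reindex f f (c i), fun j => reindex f f (d j), fun i => ?_, fun j => ?_,
    ?_, ?_, fun j => ?_, fun i => ?_⟩
  · exact (hc i).submatrix f.symm
  · exact (hd j).submatrix f.symm
  · rw [hone]; exact hc1.submatrix f.symm
  · rw [hone']; exact hd1.submatrix f.symm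
  · have h := (h1 j).submatrix (Sum.map f.symm f.symm)
    rw [hone, ← hblk] at *
    exact h
  · have h := (h2 i).submatrix (Sum.map f.symm f.symm)
    rw [hone', ← hblk] at *
    exact h

/-- F9 reindexing: the norm of the pairing. -/
theorem norm_pair_reindex {κ ι ι' ι'' : Type} [Fintype κ] [Fintype ι] [DecidableEq ι] [Fintype ι']
    [DecidableEq ι'] [Fintype ι''] [DecidableEq ι''] (f : ι' ≃ ι'') (Z : κ → Matrix ι ι ℂ)
    (z : κ → Matrix ι' ι' ℂ) :
    ‖pair Z (fun k => reindex f f (z k))‖ = ‖pair Z z‖ := by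
  rw [← Reidx.norm_reindex ((Equiv.refl ι).prodCongr f) (pair Z z)]
  congr 1
  ext i j
  simp [pair, Matrix.sum_apply, kroneckerMap_apply]

end Pool.Agent.H33.OS
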