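import Pool.Agent.H33.OS.Base

/-!
# The Schur complement recursion on the tree (MP_f82f05_an)
-/

open scoped ENNReal
open scoped Matrix.Norms.L2Operator
open scoped Kronecker ComplexOrder

namespace Pool.Agent.H33.OS

open Matrix

section seq

variable {κ : Type} [Fintype κ] {m : ℕ}

open Classical in
/-- Contribution of the child `a` of a vertex of parity `s` whose subtree has height `k`. -/
noncomputable def eSeq (allow : Bool → Option κ → κ → Prop)
    (Z : Bool → κ → Matrix (Fin m) (Fin m) ℂ) : ℕ → Bool → κ → Matrix (Fin m) (Fin m) ℂ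
  | 0, _, _ => 0
  | k + 1, s, a => (Z s a)ᴴ *
      (1 - ∑ b ∈ Finset.univ.filter (fun b => allow (!s) (some a) b), eSeq allow Z k (!s) b)⁻¹ *
        Z s a

open Classical in
/-- The gap (Schur complement) of a vertex of parity `s`, last letter `t`, height `k`. -/
noncomputable def gap (allow : Bool → Option κ → κ → Prop)
    (Z : Bool → κ → Matrix (Fin m) (Fin m) ℂ) (k : ℕ) (s : Bool) (t : Option κ) :
    Matrix (Fin m) (Fin m) ℂ :=
  1 - ∑ b ∈ Finset.univ.filter (fun b => allow s t b), eSeq allow Z k s b

variable (allow : Bool → Option κ → κ → Prop) (Z : Bool → κ → Matrix (Fin m) (Fin m) ℂ)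

theorem eSeq_zero (s : Bool) (a : κ) : eSeq allow Z 0 s a = 0 := rfl

theorem eSeq_succ (k : ℕ) (s : Bool) (a : κ) :
    eSeq allow Z (k + 1) s a = (Z s a)ᴴ * (gap allow Z k (!s) (some a))⁻¹ * Z s a := rfl

theorem gap_zero (s : Bool) (t : Option κ) : gap allow Z 0 s t = 1 := by
  simp [gap, eSeq]

theorem gap_posDef (hallow : ∀ s t a, allow s (some t) a → allow s none a) {k : ℕ} {δ : ℝ}
    (hδ : 0 < δ) (he : ∀ s a, (eSeq allow Z k s a).PosSemidef)
    (hg : ∀ s, (gap allow Z k s none - (δ : ℂ) • 1).PosSemidef) (s : Bool) (t : Option κ) :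
    (gap allow Z k s t).PosDef := by
  classical
  have h1 : (gap allow Z k s t - gap allow Z k s none).PosSemidef := by
    have : gap allow Z k s t - gap allow Z k s none =
        ∑ b ∈ (Finset.univ.filter (fun b => allow s none b)) \
          (Finset.univ.filter (fun b => allow s t b)), eSeq allow Z k s b := by
      have hsub : Finset.univ.filter (fun b => allow s t b) ⊆
          Finset.univ.filter (fun b => allow s none b) := by
        intro b hb
        rw [Finset.mem_filter] at hb ⊢
        refine ⟨hb.1, ?_⟩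
        cases t with
        | none => exact hb.2
        | some t => exact hallow s t b hb.2
      have h0 := Finset.sum_sdiff hsub (f := fun b => eSeq allow Z k s b)
      unfold gap
      rw [← h0]
      abel
    rw [this]
    exact Matrix.posSemidef_sum _ (fun b _ => he s b)
  have h2 : ((δ : ℂ) • (1 : Matrix (Fin m) (Fin m) ℂ)).PosDef := by
    refine Matrix.PosDef.smul Matrix.PosDef.one ?_
    exact_mod_cast hδ
  have h3 := h2.add_posSemidef ((hg s).add h1)
  have h4 : (δ : ℂ) • (1 : Matrix (Fin m) (Fin m) ℂ) + (gap allow Z k s none - (δ : ℂ) • 1 +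
      (gap allow Z k s t - gap allow Z k s none)) = gap allow Z k s t := by abel
  rwa [h4] at h3

theorem eSeq_posSemidef_succ {k : ℕ} (hg : ∀ s t, (gap allow Z k s t).PosDef) (s : Bool) (a : κ) :
    (eSeq allow Z (k + 1) s a).PosSemidef := by
  rw [eSeq_succ]
  exact (hg _ _).inv.posSemidef.conjTranspose_mul_mul_same _

end seq

end Pool.Agent.H33.OS
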