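import Pool.Agent.H33.OS.TreeDef
import Pool.Agent.H33.OS.BlockPsd

/-!
# [H33 OS TreeDom] The transposed tree matrices lie in `Dom (not A)` (MP_f82f05_an)

`c i` is the indicator of the children by the letter `inr i` (parity `true`), `d j` the indicator of the children by the
letter `inl j` (parity `false`).
-/

set_option autoImplicit false

open scoped ENNReal
open scoped Matrix.Norms.L2Operator
open scoped Kronecker ComplexOrder

namespace Pool.Agent.H33.OS

open Matrix

open Classical in
/-- indicator of the vertices of parity `s` whose word begins with the letter `a` -/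
private noncomputable def tdInd {κ : Type} {L : ℕ} (s : Bool) (a : κ) (p : Vert κ L) : ℝ :=
  if par p.1 p.2.1 = s ∧ p.2.1.head? = some a then 1 else 0

private theorem tdInd_nonneg {κ : Type} {L : ℕ} (s : Bool) (a : κ) (p : Vert κ L) :
    0 ≤ tdInd s a p := by
  unfold tdInd
  split_ifs
  · exact zero_le_one
  · exact le_rfl

private theorem tdInd_sum_le {κ K : Type} {L : ℕ} (s : Bool) (f : K → κ)
    (hf : Function.Injective f) (S : Finset K) (p : Vert κ L) :
    ∑ i ∈ S, tdInd s (f i) p ≤ 1 := by
  classical
  by_cases h : ∃ i0, p.2.1.head? = some (f i0)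
  · obtain ⟨i0, hi0⟩ := h
    have h1 : ∀ i ∈ S, tdInd s (f i) p ≤ if i = i0 then 1 else 0 := by
      intro i _
      unfold tdInd
      by_cases h2 : i = i0
      · rw [if_pos h2]
        split_ifs
        · exact le_rfl
        · exact zero_le_one
      · rw [if_neg h2, if_neg]
        rintro ⟨_, h3⟩
        rw [hi0] at h3
        exact h2 (hf (Option.some.inj h3)).symm
    refine (Finset.sum_le_sum h1).trans ?_
    rw [Finset.sum_ite_eq']
    split_ifs
    · exact le_rfl
    · exact zero_le_one
  · rw [Finset.sum_eq_zero]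
    · exact zero_le_one
    · intro i _
      unfold tdInd
      rw [if_neg]
      rintro ⟨_, h3⟩
      exact h ⟨i, h3⟩

private theorem tdInd_sum_zero {κ K : Type} {L : ℕ} (s : Bool) (f : K → κ) (S : Finset K)
    (p : Vert κ L) (h : ∀ i ∈ S, par p.1 p.2.1 = s → p.2.1.head? = some (f i) → False) :
    ∑ i ∈ S, tdInd s (f i) p = 0 := by
  apply Finset.sum_eq_zero
  intro i hi
  unfold tdInd
  rw [if_neg]
  rintro ⟨h1, h2⟩
  exact h i hi h1 h2

private theorem td_one_sub {κ K : Type} [Fintype κ] {L : ℕ} {_inst : DecidableEq (Vert κ L)}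
    (s : Bool) (f : K → κ) (S : Finset K) :
    (1 : Matrix (Vert κ L) (Vert κ L) ℂ) - ∑ i ∈ S, diagonal (fun p => ((tdInd s (f i) p : ℝ) : ℂ))
      = diagonal (fun p => ((1 - ∑ i ∈ S, tdInd s (f i) p : ℝ) : ℂ)) := by
  ext p q
  rw [Matrix.sub_apply, Matrix.sum_apply]
  by_cases h : p = q
  · subst h
    simp only [diagonal_apply_eq, one_apply_eq]
    push_cast
    rfl
  · rw [diagonal_apply_ne _ h, one_apply_ne h, Finset.sum_eq_zero, sub_zero]
    intro i _
    exact diagonal_apply_ne _ h

private theorem td_mem {K : Type} [Fintype K] {p : K → Prop} {_inst : DecidablePred p} {i : K}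
    (h : i ∈ Finset.univ.filter p) : p i :=
  (Finset.mem_filter.1 h).2

private theorem td_diag {κ : Type} [Fintype κ] {L : ℕ} {_inst : DecidableEq (Vert κ L)}
    (f : Vert κ L → ℝ) (hf : ∀ p, 0 ≤ f p) :
    (diagonal (fun p => ((f p : ℝ) : ℂ)) : Matrix (Vert κ L) (Vert κ L) ℂ).PosSemidef :=
  Matrix.PosSemidef.diagonal fun p => Complex.zero_le_real.2 (hf p)

open Classical in
/-- T1: the transposed tree matrices lie in `Dom (not A)`. -/
theorem treeZ_dom {I J : Type} [Fintype I] [Fintype J] (A : I → J → Prop) (L : ℕ)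
    [DecidableEq (Vert (J ⊕ I) L)] :
    Dom (fun i j => ¬ A i j) (fun k => (treeZ A L k)ᵀ) := by
  rename_i inst
  have hinst : inst = fun a b => Classical.propDecidable (a = b) := Subsingleton.elim _ _
  refine ⟨fun i => diagonal (fun p => ((tdInd true (Sum.inr i) p : ℝ) : ℂ)),
    fun j => diagonal (fun p => ((tdInd false (Sum.inl j) p : ℝ) : ℂ)), ?_, ?_, ?_, ?_, ?_, ?_⟩
  · intro i
    exact td_diag _ fun p => tdInd_nonneg _ _ _
  · intro j
    exact td_diag _ fun p => tdInd_nonneg _ _ _
  · beta_reduce
    rw [td_one_sub true (fun i : I => (Sum.inr i : J ⊕ I)) Finset.univ]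
    exact td_diag _ fun p => sub_nonneg.2 (tdInd_sum_le true _ Sum.inr_injective _ _)
  · beta_reduce
    rw [td_one_sub false (fun j : J => (Sum.inl j : J ⊕ I)) Finset.univ]
    exact td_diag _ fun p => sub_nonneg.2 (tdInd_sum_le false _ Sum.inl_injective _ _)
  · intro j
    beta_reduce
    rw [td_one_sub true (fun i : I => (Sum.inr i : J ⊕ I))]
    have hT : (treeZ A L (Sum.inl j))ᵀ
        = Matrix.of fun p q => if isEdge A (Sum.inl j) q p then (1 : ℂ) else 0 := rfl
    rw [hT]
    subst hinst
    refine blockPSD (fun p q => isEdge A (Sum.inl j) q p) ?_ ?_ _ _ ?_ ?_ ?_ ?_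
    · intro a b b' h h'
      refine Prod.ext (h.1.trans h'.1.symm) (Subtype.ext ?_)
      rw [h.2.1, h'.2.1]
    · intro a a' b h h'
      refine Prod.ext (h.1.symm.trans h'.1) (Subtype.ext ?_)
      have h2 := h.2.1.symm.trans h'.2.1
      exact (List.cons.inj h2).2
    · intro a
      exact sub_nonneg.2 (tdInd_sum_le true _ Sum.inr_injective _ _)
    · intro b
      exact tdInd_nonneg _ _ _
    · intro a b h
      rw [tdInd_sum_zero true (fun i : I => (Sum.inr i : J ⊕ I)), sub_zero]
      intro i hi h1 h2
      have hA0 : ¬ ¬ A i j := td_mem (p := fun i => ¬ ¬ A i j) hi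
      have hA : A i j := not_not.1 hA0
      have h3 := h.2.2
      rw [h1, h2] at h3
      exact h3 hA
    · intro a b h
      have h3 := h.2.2
      have h4 : par a.1 a.2.1 = true := by
        by_contra h5
        rw [Bool.not_eq_true] at h5
        rw [h5] at h3
        revert h3
        cases a.2.1.head? with
        | none => exact id
        | some t => cases t <;> exact id
      unfold tdInd
      rw [if_pos]
      refine ⟨?_, ?_⟩
      · rw [h.2.1, h.1]
        show (!(par a.1 a.2.1)) = false
        rw [h4]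
        rfl
      · rw [h.2.1]
        rfl
  · intro i
    beta_reduce
    rw [td_one_sub false (fun j : J => (Sum.inl j : J ⊕ I))]
    have hT : (treeZ A L (Sum.inr i))ᵀ
        = Matrix.of fun p q => if isEdge A (Sum.inr i) p q then (1 : ℂ) else 0 := rfl
    rw [hT]
    subst hinst
    refine blockPSD (fun p q => isEdge A (Sum.inr i) p q) ?_ ?_ _ _ ?_ ?_ ?_ ?_
    · intro a b b' h h'
      refine Prod.ext (h.1.symm.trans h'.1) (Subtype.ext ?_)
      have h2 := h.2.1.symm.trans h'.2.1
      exact (List.cons.inj h2).2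
    · intro a a' b h h'
      refine Prod.ext (h.1.trans h'.1.symm) (Subtype.ext ?_)
      rw [h.2.1, h'.2.1]
    · intro a
      exact tdInd_nonneg _ _ _
    · intro b
      exact sub_nonneg.2 (tdInd_sum_le false _ Sum.inl_injective _ _)
    · intro a b h
      have h3 := h.2.2
      have h4 : par b.1 b.2.1 = false := by
        by_contra h5
        rw [Bool.not_eq_false] at h5
        rw [h5] at h3
        revert h3
        cases b.2.1.head? with
        | none => exact id
        | some t => cases t <;> exact id
      unfold tdInd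
      rw [if_pos]
      refine ⟨?_, ?_⟩
      · rw [h.2.1, h.1]
        show (!(par b.1 b.2.1)) = true
        rw [h4]
        rfl
      · rw [h.2.1]
        rfl
    · intro a b h
      rw [tdInd_sum_zero false (fun j : J => (Sum.inl j : J ⊕ I)), sub_zero]
      intro j hj h1 h2
      have hA0 : ¬ ¬ A i j := td_mem (p := fun j => ¬ ¬ A i j) hj
      have hA : A i j := not_not.1 hA0
      have h3 := h.2.2
      rw [h1, h2] at h3
      exact h3 hA

end Pool.Agent.H33.OS
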