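import Pool.Agent.H33.OS.TreeGap
import Pool.Agent.H33.OS.TreeDom
import Pool.Agent.H33.OS.Reidx

/-!
# The tree theorem (MP_f82f05_an)
-/

open scoped ENNReal
open scoped Matrix.Norms.L2Operator
open scoped Kronecker ComplexOrder

namespace Pool.Agent.H33.OS

open Matrix

/-- For each `L` there is a tuple of finite matrices whose transposes lie in the LMI set of the
complementary relation, and which detects the LMI set of `A` up to the factor `1 + 1 / L`. -/
theorem tree {I J : Type} [Fintype I] [Fintype J] (A : I → J → Prop) (L : ℕ) (hL : 0 < L) :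
    ∃ (K : ℕ) (z : J ⊕ I → Matrix (Fin K) (Fin K) ℂ),
      Dom (fun i j => ¬ A i j) (fun k => (z k)ᵀ) ∧
      ∀ (m : ℕ) (Z : J ⊕ I → Matrix (Fin m) (Fin m) ℂ), ‖pair Z z‖ < 1 →
        Dom A (fun k => (((1 + 1 / (L : ℝ))⁻¹ : ℝ) : ℂ) • Z k) := by
  classical
  let f := Fintype.equivFin (Vert (J ⊕ I) L)
  refine ⟨Fintype.card (Vert (J ⊕ I) L), fun k => reindex f f (treeZ A L k), ?_, ?_⟩
  · have h := dom_reindex (fun i j => ¬ A i j) f (fun k => (treeZ A L k)ᵀ) (treeZ_dom A L)
    exact h
  · intro m Z hZ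
    refine dom_of_pair A L hL Z ?_
    rw [norm_pair_reindex f Z (treeZ A L)] at hZ
    convert hZ
end Pool.Agent.H33.OS
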