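import Pool.Agent.H33.OS.Energy
import Pool.Agent.H33.OS.Lmi

/-!
# The tree matrices (MP_f82f05_an)

Two trees (root of parity `true` = domain, root of parity `false` = range); a vertex is a word of
length `≤ L`; `treeE A L a` has the entry `1` at (child, parent) when the child is obtained by
adding the letter `a` and the letter is allowed.
-/

open scoped ENNReal
open scoped Matrix.Norms.L2Operator
open scoped Kronecker ComplexOrder

namespace Pool.Agent.H33.OS

open Matrix

/-- Vertices of the two trees of height `L`: root parity, word. -/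
abbrev Vert (κ : Type) (L : ℕ) := Bool × {w : List κ // w.length ≤ L}

noncomputable instance fintypeWords (κ : Type) [Fintype κ] (L : ℕ) :
    Fintype {w : List κ // w.length ≤ L} :=
  Set.Finite.fintype (List.finite_length_le κ L)

section treedef

variable {I J : Type}

/-- `isEdge A a p q`: `p` is the child of `q` by the letter `a`. -/
def isEdge (A : I → J → Prop) {L : ℕ} (a : J ⊕ I) (p q : Vert (J ⊕ I) L) : Prop :=
  p.1 = q.1 ∧ p.2.1 = a :: q.2.1 ∧ allowA A (par q.1 q.2.1) q.2.1.head? a

open Classical in
/-- The edge matrix of the letter `a`: row = child, column = parent. -/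
noncomputable def treeE (A : I → J → Prop) (L : ℕ) (a : J ⊕ I) :
    Matrix (Vert (J ⊕ I) L) (Vert (J ⊕ I) L) ℂ :=
  Matrix.of fun p q => if isEdge A a p q then 1 else 0

/-- The tuple of tree matrices. -/
noncomputable def treeZ (A : I → J → Prop) (L : ℕ) :
    J ⊕ I → Matrix (Vert (J ⊕ I) L) (Vert (J ⊕ I) L) ℂ
  | Sum.inl j => treeE A L (Sum.inl j)
  | Sum.inr i => (treeE A L (Sum.inr i))ᵀ

end treedef

end Pool.Agent.H33.OS
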