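import Pool.Agent.H33.OS.TreeSum

/-!
# The gap at the root of the tree is at least `1 - ‖pair Z z‖` (MP_f82f05_an)
-/

open scoped ENNReal
open scoped Matrix.Norms.L2Operator
open scoped Kronecker ComplexOrder

namespace Pool.Agent.H33.OS

open Matrix

section treegap

variable {I J : Type} [Fintype I] [Fintype J]

theorem re_star_dot_conj {m : ℕ} (M : Matrix (Fin m) (Fin m) ℂ) (x y : Fin m → ℂ) :
    (star x ⬝ᵥ (M *ᵥ y)).re = (star y ⬝ᵥ (Mᴴ *ᵥ x)).re := by
  have h : star (star x ⬝ᵥ (M *ᵥ y)) = star y ⬝ᵥ (Mᴴ *ᵥ x) := by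
    rw [Matrix.star_dotProduct, star_star, Matrix.star_mulVec, ← Matrix.dotProduct_mulVec]
  rw [← h]
  simp

open Classical in
theorem energy_tree (A : I → J → Prop) (L k : ℕ) (hk : k ≤ L) (s : Bool)
    {m : ℕ} (Z : J ⊕ I → Matrix (Fin m) (Fin m) ℂ) (v : List (J ⊕ I) → (Fin m → ℂ)) :
    -(‖pair Z (treeZ A L)‖ * ∑ ℓ ∈ Finset.range (k + 1), ∑ w ∈ lvl (J ⊕ I) ℓ,
        (star (v w) ⬝ᵥ v w).re) ≤
      ∑ ℓ ∈ Finset.range k, ∑ w ∈ lvl (J ⊕ I) ℓ, ∑ a,
        if allowA A (par s w) w.head? a then
          2 * (star (v (a :: w)) ⬝ᵥ (edgeA Z (par s w) a *ᵥ v w)).re else 0 := by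
  let vv : Vert (J ⊕ I) L → Fin m → ℂ := fun p =>
    if p.1 = s ∧ p.2.1.length < k + 1 then v p.2.1 else 0
  let ud : Fin m × Vert (J ⊕ I) L → ℂ := fun q => if par q.2.1 q.2.2.1 = true then vv q.2 q.1 else 0
  let ur : Fin m × Vert (J ⊕ I) L → ℂ := fun q => if par q.2.1 q.2.2.1 = false then vv q.2 q.1 else 0
  have hud : ∀ p, (fun x => ud (x, p)) = if par p.1 p.2.1 = true then vv p else 0 := by
    intro p; ext x; simp only [ud]; split_ifs <;> rfl
  have hur : ∀ p, (fun x => ur (x, p)) = if par p.1 p.2.1 = false then vv p else 0 := by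
    intro p; ext x; simp only [ur]; split_ifs <;> rfl
  have hform := re_dot_le (pair Z (treeZ A L)) ur ud
  -- the norms
  have hN : (star ur ⬝ᵥ ur).re + (star ud ⬝ᵥ ud).re =
      ∑ ℓ ∈ Finset.range (k + 1), ∑ w ∈ lvl (J ⊕ I) ℓ, (star (v w) ⬝ᵥ v w).re := by
    rw [← sum_vert L (k + 1) (by omega) s]
    rw [← Complex.add_re, dotProduct, dotProduct, ← Finset.sum_add_distrib,
      Fintype.sum_prod_type, Finset.sum_comm, Complex.re_sum]
    refine Finset.sum_congr rfl (fun p _ => ?_)
    by_cases hp : p.1 = s ∧ p.2.1.length < k + 1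
    · rw [if_pos hp, dotProduct]
      congr 1
      refine Finset.sum_congr rfl (fun x _ => ?_)
      simp only [Pi.star_apply, ur, ud, vv]
      rw [if_pos hp]
      cases par p.1 p.2.1 <;> simp
    · rw [if_neg hp]
      simp only [Pi.star_apply, ur, ud, vv]
      rw [if_neg hp]
      simp
  let F : J ⊕ I → List (J ⊕ I) → List (J ⊕ I) → ℝ := fun a w w' =>
    if w.length < k + 1 then (star (v w) ⬝ᵥ (edgeA Z (par s w') a *ᵥ v w')).re else 0
  have hF : ∀ a w w', (k < w.length) → F a w w' = 0 := by
    intro a w w' h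
    simp only [F]
    rw [if_neg (by omega)]
  -- the form
  have hE : (star ur ⬝ᵥ (pair Z (treeZ A L) *ᵥ ud)).re = ∑ a : J ⊕ I,
      (∑ p : Vert (J ⊕ I) L, ∑ q : Vert (J ⊕ I) L,
        if isEdge A a p q ∧ p.1 = s ∧ q.1 = s then F a p.2.1 q.2.1 else 0) := by
    rw [pair, Matrix.sum_mulVec, dotProduct_sum, Complex.re_sum, Fintype.sum_sum_type,
      Fintype.sum_sum_type]
    congr 1
    · refine Finset.sum_congr rfl (fun j _ => ?_)
      rw [star_dot_kron, Complex.re_sum]
      refine Finset.sum_congr rfl (fun p _ => ?_)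
      rw [Complex.re_sum]
      refine Finset.sum_congr rfl (fun q _ => ?_)
      rw [hur, hud]
      by_cases he : isEdge A (Sum.inl j) p q
      · have hT : treeZ A L (Sum.inl j) p q = 1 := by
          simp only [treeZ, treeE, of_apply]; rw [if_pos he]
        rw [hT, one_mul]
        obtain ⟨h1, h2, h3⟩ := he
        have hq : par q.1 q.2.1 = true := by
          cases hpar : par q.1 q.2.1 with
          | true => rfl
          | false => rw [hpar] at h3; simp [allowA] at h3
        have hp : par p.1 p.2.1 = false := by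
          rw [h1, h2]; simp [par, hq]
        rw [if_pos hq, if_pos hp]
        by_cases hs : p.1 = s
        · rw [if_pos ⟨⟨h1, h2, h3⟩, hs, by rw [← h1]; exact hs⟩]
          simp only [F]
          by_cases hl : p.2.1.length < k + 1
          · rw [if_pos hl]
            have hv1 : vv p = v p.2.1 := by simp only [vv]; rw [if_pos ⟨hs, hl⟩]
            have hl' : q.2.1.length < k + 1 := by
              have hl2 := hl
              rw [h2, List.length_cons] at hl2
              omega
            have hv2 : vv q = v q.2.1 := by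
              simp only [vv]
              rw [if_pos ⟨by rw [← h1]; exact hs, hl'⟩]
            have hpar : par s q.2.1 = true := by rw [← hs, h1]; exact hq
            rw [hv1, hv2, hpar]
            simp only [edgeA]
          · rw [if_neg hl]
            have hv1 : vv p = 0 := by simp only [vv]; rw [if_neg (fun h => hl h.2)]
            rw [hv1]; simp
        · rw [if_neg (fun h => hs h.2.1)]
          have hv1 : vv p = 0 := by simp only [vv]; rw [if_neg (fun h => hs h.1)]
          rw [hv1]; simp
      · have hT : treeZ A L (Sum.inl j) p q = 0 := by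
          simp only [treeZ, treeE, of_apply]; rw [if_neg he]
        rw [hT, zero_mul, if_neg (fun h => he h.1)]
        rfl
    · refine Finset.sum_congr rfl (fun i _ => ?_)
      rw [star_dot_kron, Finset.sum_comm, Complex.re_sum]
      refine Finset.sum_congr rfl (fun p _ => ?_)
      rw [Complex.re_sum]
      refine Finset.sum_congr rfl (fun q _ => ?_)
      rw [hur, hud]
      by_cases he : isEdge A (Sum.inr i) p q
      · have hT : treeZ A L (Sum.inr i) q p = 1 := by
          simp only [treeZ, treeE, transpose_apply, of_apply]; rw [if_pos he]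
        rw [hT, one_mul]
        obtain ⟨h1, h2, h3⟩ := he
        have hq : par q.1 q.2.1 = false := by
          cases hpar : par q.1 q.2.1 with
          | false => rfl
          | true =>
            rw [hpar] at h3
            cases hh : q.2.1.head? with
            | none => rw [hh] at h3; simp [allowA] at h3
            | some t => rw [hh] at h3; cases t <;> simp [allowA] at h3
        have hp : par p.1 p.2.1 = true := by
          rw [h1, h2]; simp [par, hq]
        rw [if_pos hq, if_pos hp, re_star_dot_conj]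
        by_cases hs : p.1 = s
        · rw [if_pos ⟨⟨h1, h2, h3⟩, hs, by rw [← h1]; exact hs⟩]
          simp only [F]
          by_cases hl : p.2.1.length < k + 1
          · rw [if_pos hl]
            have hv1 : vv p = v p.2.1 := by simp only [vv]; rw [if_pos ⟨hs, hl⟩]
            have hl' : q.2.1.length < k + 1 := by
              have hl2 := hl
              rw [h2, List.length_cons] at hl2
              omega
            have hv2 : vv q = v q.2.1 := by
              simp only [vv]
              rw [if_pos ⟨by rw [← h1]; exact hs, hl'⟩]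
            have hpar : par s q.2.1 = false := by rw [← hs, h1]; exact hq
            rw [hv1, hv2, hpar]
            simp only [edgeA]
          · rw [if_neg hl]
            have hv1 : vv p = 0 := by simp only [vv]; rw [if_neg (fun h => hl h.2)]
            rw [hv1]; simp
        · rw [if_neg (fun h => hs h.2.1)]
          have hv1 : vv p = 0 := by simp only [vv]; rw [if_neg (fun h => hs h.1)]
          rw [hv1]; simp
      · have hT : treeZ A L (Sum.inr i) q p = 0 := by
          simp only [treeZ, treeE, transpose_apply, of_apply]; rw [if_neg he]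
        rw [hT, zero_mul, if_neg (fun h => he h.1)]
        rfl
  rw [hN, hE] at hform
  have hE2 : 2 * ∑ a : J ⊕ I,
      (∑ p : Vert (J ⊕ I) L, ∑ q : Vert (J ⊕ I) L,
        if isEdge A a p q ∧ p.1 = s ∧ q.1 = s then F a p.2.1 q.2.1 else 0) =
      ∑ ℓ ∈ Finset.range k, ∑ w ∈ lvl (J ⊕ I) ℓ, ∑ a,
        if allowA A (par s w) w.head? a then
          2 * (star (v (a :: w)) ⬝ᵥ (edgeA Z (par s w) a *ᵥ v w)).re else 0 := by
    rw [Finset.sum_congr rfl (fun a _ => sum_edges A L k hk s F a (hF a)), Finset.sum_comm,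
      Finset.mul_sum]
    refine Finset.sum_congr rfl (fun ℓ hℓ => ?_)
    rw [Finset.sum_comm, Finset.mul_sum]
    refine Finset.sum_congr rfl (fun w hw => ?_)
    rw [Finset.mul_sum]
    refine Finset.sum_congr rfl (fun a _ => ?_)
    rw [mem_lvl] at hw
    rw [Finset.mem_range] at hℓ
    by_cases hall : allowA A (par s w) w.head? a
    · rw [if_pos hall, if_pos hall]
      simp only [F]
      rw [if_pos (by rw [List.length_cons]; omega)]
    · rw [if_neg hall, if_neg hall, mul_zero]
  rw [hE2] at hform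
  exact hform

open Classical in
theorem gap_tree (A : I → J → Prop) (L k : ℕ) (hk : k ≤ L) (s : Bool)
    {m : ℕ} (Z : J ⊕ I → Matrix (Fin m) (Fin m) ℂ) (δ : ℝ)
    (hZ : ‖pair Z (treeZ A L)‖ ≤ 1 - δ) (hδ : 0 ≤ δ)
    (hP : ∀ j < k, ∀ s t, (gap (allowA A) (edgeA Z) j s t).PosDef) :
    (gap (allowA A) (edgeA Z) k s none - (δ : ℂ) • 1).PosSemidef := by
  have he : ∀ b, (eSeq (allowA A) (edgeA Z) k s b).PosSemidef := by
    intro b
    cases k with
    | zero => rw [eSeq_zero]; exact Matrix.PosSemidef.zero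
    | succ k => exact eSeq_posSemidef_succ _ _ (fun s t => hP k (Nat.lt_succ_self k) s t) s b
  have hHerm : (gap (allowA A) (edgeA Z) k s none - (δ : ℂ) • (1 : Matrix (Fin m) (Fin m) ℂ)).IsHermitian := by
    refine Matrix.IsHermitian.sub ?_ ?_
    · exact Matrix.isHermitian_one.sub (Matrix.posSemidef_sum _ (fun b _ => he b)).isHermitian
    · rw [Matrix.IsHermitian, conjTranspose_smul, conjTranspose_one]
      congr 1
      simp
  refine Matrix.PosSemidef.of_dotProduct_mulVec_nonneg hHerm (fun η => ?_)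
  rw [Complex.nonneg_iff]
  refine ⟨?_, (hHerm.im_star_dotProduct_mulVec_self η).symm⟩
  have h1 := energy_identity (allowA A) (edgeA Z) k s η hP
  have h2 := energy_tree A L k hk s Z (val (allowA A) (edgeA Z) k s η)
  set E := ∑ ℓ ∈ Finset.range (k + 1), ∑ w ∈ lvl (J ⊕ I) ℓ,
        (star (val (allowA A) (edgeA Z) k s η w) ⬝ᵥ val (allowA A) (edgeA Z) k s η w).re with hE
  have hnn : ∀ x : Fin m → ℂ, 0 ≤ (star x ⬝ᵥ x).re := by
    intro x
    rw [dotProduct, Complex.re_sum]
    refine Finset.sum_nonneg (fun i _ => ?_)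
    simp only [Pi.star_apply, RCLike.star_def]
    rw [mul_comm, Complex.mul_conj, Complex.ofReal_re]
    exact Complex.normSq_nonneg _
  have h3 : (star η ⬝ᵥ η).re ≤ E := by
    rw [hE, Finset.sum_range_succ']
    have h4 : ∑ w ∈ lvl (J ⊕ I) 0, (star (val (allowA A) (edgeA Z) k s η w) ⬝ᵥ
        val (allowA A) (edgeA Z) k s η w).re = (star η ⬝ᵥ η).re := by
      simp [lvl, val]
    rw [h4]
    have h5 : 0 ≤ ∑ ℓ ∈ Finset.range k, ∑ w ∈ lvl (J ⊕ I) (ℓ + 1),
      (star (val (allowA A) (edgeA Z) k s η w) ⬝ᵥ val (allowA A) (edgeA Z) k s η w).re :=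
      Finset.sum_nonneg (fun ℓ _ => Finset.sum_nonneg (fun w _ => hnn _))
    linarith
  have h6 : (star η ⬝ᵥ ((gap (allowA A) (edgeA Z) k s none - (δ : ℂ) • 1) *ᵥ η)).re =
      (star η ⬝ᵥ (gap (allowA A) (edgeA Z) k s none *ᵥ η)).re - δ * (star η ⬝ᵥ η).re := by
    rw [Matrix.sub_mulVec, dotProduct_sub, Complex.sub_re, Matrix.smul_mulVec, Matrix.one_mulVec,
      dotProduct_smul, smul_eq_mul, Complex.re_ofReal_mul]
  rw [h6, ← h1]
  have h7 : 0 ≤ E := (hnn η).trans h3
  have h8 := mul_le_mul_of_nonneg_right hZ h7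
  have h9 := mul_le_mul_of_nonneg_left h3 hδ
  linarith

open Classical in
/-- If the pairing with the tree matrices has norm `< 1`, the tuple (slightly shrunk) is in the
LMI set. -/
theorem dom_of_pair (A : I → J → Prop) (L : ℕ) (hL : 0 < L)
    {m : ℕ} (Z : J ⊕ I → Matrix (Fin m) (Fin m) ℂ) (hZ : ‖pair Z (treeZ A L)‖ < 1) :
    Dom A (fun k => (((1 + 1 / (L : ℝ))⁻¹ : ℝ) : ℂ) • Z k) := by
  set δ : ℝ := 1 - ‖pair Z (treeZ A L)‖ with hδ
  have hδ0 : 0 < δ := by rw [hδ]; linarith
  have hmain : ∀ k, (∀ j < k, j ≤ L →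
      (∀ s a, (eSeq (allowA A) (edgeA Z) j s a).PosSemidef) ∧
      (∀ s t, (gap (allowA A) (edgeA Z) j s t).PosDef) ∧
      (∀ s, (gap (allowA A) (edgeA Z) j s none - (δ : ℂ) • 1).PosSemidef)) := by
    intro k
    induction k with
    | zero => intro j hj; omega
    | succ k ih =>
      intro j hj hjL
      rcases Nat.lt_or_ge j k with h | h
      · exact ih j h hjL
      · have hjk : j = k := by omega
        subst hjk
        have hP : ∀ i < j, ∀ s t, (gap (allowA A) (edgeA Z) i s t).PosDef :=
          fun i hi => (ih i hi (by omega)).2.1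
        have he : ∀ s a, (eSeq (allowA A) (edgeA Z) j s a).PosSemidef := by
          intro s a
          cases j with
          | zero => rw [eSeq_zero]; exact Matrix.PosSemidef.zero
          | succ j => exact eSeq_posSemidef_succ _ _ (fun s t => hP j (Nat.lt_succ_self j) s t) s a
        have hg : ∀ s, (gap (allowA A) (edgeA Z) j s none - (δ : ℂ) • 1).PosSemidef :=
          fun s => gap_tree A L j hjL s Z δ (by rw [hδ]; linarith) hδ0.le hP
        exact ⟨he, fun s t => gap_posDef _ _ (allowA_none A) hδ0 he hg s t, hg⟩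
  exact dom_of_gap A Z L hL δ hδ0 (fun k hk => (hmain (k + 1) k (Nat.lt_succ_self k) hk).2.2)

end treegap

end Pool.Agent.H33.OS
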