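import Pool.Agent.H33.OS.TreeDef
import Pool.Agent.H33.OS.BlockPsd

/-!
# Sums over the vertices and over the edges of the tree (MP_f82f05_an)
-/

open scoped ENNReal
open scoped Matrix.Norms.L2Operator
open scoped Kronecker ComplexOrder

namespace Pool.Agent.H33.OS

open Matrix

section sums

variable {κ : Type} [Fintype κ]

theorem sum_words {M : Type*} [AddCommMonoid M] (L : ℕ) (f : List κ → M) :
    ∑ w : {w : List κ // w.length ≤ L}, f w.1 = ∑ ℓ ∈ Finset.range (L + 1), ∑ w ∈ lvl κ ℓ, f w := by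
  classical
  rw [← Finset.sum_biUnion]
  · rw [Finset.sum_subtype (p := fun w : List κ => w.length ≤ L)]
    intro w
    simp only [Finset.mem_biUnion, Finset.mem_range, mem_lvl]
    constructor
    · rintro ⟨ℓ, h1, h2⟩; omega
    · intro h; exact ⟨w.length, by omega, rfl⟩
  · intro a _ b _ hab
    rw [Function.onFun, Finset.disjoint_left]
    intro w h1 h2
    rw [mem_lvl] at h1 h2
    exact hab (h1.symm.trans h2)

open Classical in
theorem sum_vert {M : Type*} [AddCommMonoid M] (L K : ℕ) (hK : K ≤ L + 1) (s : Bool)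
    (f : List κ → M) :
    ∑ q : Vert κ L, (if q.1 = s ∧ q.2.1.length < K then f q.2.1 else 0) =
      ∑ ℓ ∈ Finset.range K, ∑ w ∈ lvl κ ℓ, f w := by
  rw [Fintype.sum_prod_type, Finset.sum_eq_single s]
  · simp only [true_and]
    rw [sum_words L (fun w => if w.length < K then f w else 0)]
    rw [← Finset.sum_subset (Finset.range_subset_range.mpr hK)]
    · refine Finset.sum_congr rfl (fun ℓ hℓ => Finset.sum_congr rfl (fun w hw => ?_))
      rw [mem_lvl] at hw
      rw [Finset.mem_range] at hℓ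
      rw [if_pos (by omega)]
    · intro ℓ _ hℓ
      rw [Finset.mem_range] at hℓ
      refine Finset.sum_eq_zero (fun w hw => ?_)
      rw [mem_lvl] at hw
      rw [if_neg (by omega)]
  · intro b _ hb
    refine Finset.sum_eq_zero (fun w _ => ?_)
    rw [if_neg (fun h => hb h.1)]
  · simp

end sums

section form

variable {ι : Type} [Fintype ι] {m : ℕ}

/-- The form of a Kronecker product. -/
theorem star_dot_kron (M : Matrix (Fin m) (Fin m) ℂ) (E : Matrix ι ι ℂ)
    (f g : Fin m × ι → ℂ) :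
    star f ⬝ᵥ ((M ⊗ₖ E) *ᵥ g) =
      ∑ p, ∑ q, E p q * (star (fun x => f (x, p)) ⬝ᵥ (M *ᵥ fun x => g (x, q))) := by
  simp only [dotProduct, Matrix.mulVec, Fintype.sum_prod_type, kroneckerMap_apply, Pi.star_apply,
    Finset.mul_sum]
  rw [Finset.sum_comm]
  refine Finset.sum_congr rfl (fun p _ => ?_)
  rw [Finset.sum_congr rfl (fun x _ => Finset.sum_comm), Finset.sum_comm]
  refine Finset.sum_congr rfl (fun q _ => Finset.sum_congr rfl (fun x _ =>
    Finset.sum_congr rfl (fun y _ => ?_)))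
  ring

/-- Sum over the parent-child pairs. -/
theorem sum_edges {I J : Type} [Fintype I] [Fintype J] (A : I → J → Prop) (L k : ℕ) (hk : k ≤ L)
    (s : Bool) (F : J ⊕ I → List (J ⊕ I) → List (J ⊕ I) → ℝ) (a : J ⊕ I)
    (hF : ∀ w w', (k < w.length) → F a w w' = 0) :
    (∑ p : Vert (J ⊕ I) L, ∑ q : Vert (J ⊕ I) L, (open Classical in
      if isEdge A a p q ∧ p.1 = s ∧ q.1 = s then F a p.2.1 q.2.1 else 0)) =
      ∑ ℓ ∈ Finset.range k, ∑ w ∈ lvl (J ⊕ I) ℓ, (open Classical in
        if allowA A (par s w) w.head? a then F a (a :: w) w else 0) := by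
  classical
  rw [Finset.sum_comm, ← sum_vert L k (by omega) s]
  refine Finset.sum_congr rfl (fun q _ => ?_)
  by_cases hq : q.1 = s ∧ q.2.1.length < k
  · rw [if_pos hq]
    have hlen : (a :: q.2.1).length ≤ L := by
      rw [List.length_cons]; omega
    rw [Finset.sum_eq_single (⟨s, ⟨a :: q.2.1, hlen⟩⟩ : Vert (J ⊕ I) L)]
    · by_cases hall : allowA A (par s q.2.1) q.2.1.head? a
      · rw [if_pos hall, if_pos]
        exact ⟨⟨hq.1.symm, rfl, by rw [hq.1]; exact hall⟩, rfl, hq.1⟩
      · rw [if_neg hall, if_neg]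
        rintro ⟨⟨_, _, h3⟩, _, _⟩
        rw [hq.1] at h3
        exact hall h3
    · intro p _ hp
      rw [if_neg]
      rintro ⟨⟨h1, h2, h3⟩, h4, h5⟩
      exact hp (Prod.ext h4 (Subtype.ext h2))
    · simp
  · rw [if_neg hq]
    refine Finset.sum_eq_zero (fun p _ => ?_)
    split_ifs with h
    · refine hF _ _ ?_
      rw [h.1.2.1, List.length_cons]
      have : ¬ q.2.1.length < k := fun h' => hq ⟨h.2.2, h'⟩
      omega
    · rfl

end form

end Pool.Agent.H33.OS
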