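import Pool.Agent.H33.OS.Base

/-!
# [H33 OS Weak] Weak duality (MP_f82f05_an)

If `Z` is in `Dom A` and the transposes of `z` are in `Dom (not A)` then `‖∑ k, Z k ⊗ z k‖ ≤ 1`: the sum of the
blockwise Kronecker products of the `2 × 2` block matrices has the diagonal blocks `1 - (1-C) ⊗ (1-D')` and
`1 - (1-D) ⊗ (1-C')`.
-/

set_option autoImplicit false

open scoped ENNReal
open scoped Matrix.Norms.L2Operator
open scoped Kronecker ComplexOrder

namespace Pool.Agent.H33.OS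

open Matrix

/-- blockwise Kronecker product of two positive semidefinite `2 × 2` block matrices -/
private theorem weak_kr {ι ι' : Type} [Fintype ι] [DecidableEq ι] [Fintype ι'] [DecidableEq ι']
    {a b e : Matrix ι ι ℂ} {a' b' e' : Matrix ι' ι' ℂ}
    (h : (fromBlocks a b bᴴ e).PosSemidef) (h' : (fromBlocks a' b' b'ᴴ e').PosSemidef) :
    (fromBlocks (a ⊗ₖ a') (b ⊗ₖ b') (b ⊗ₖ b')ᴴ (e ⊗ₖ e')).PosSemidef := by
  have h1 := (h.kronecker h').submatrix
    (Sum.elim (fun p : ι × ι' => ((Sum.inl p.1 : ι ⊕ ι), (Sum.inl p.2 : ι' ⊕ ι')))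
      (fun p : ι × ι' => ((Sum.inr p.1 : ι ⊕ ι), (Sum.inr p.2 : ι' ⊕ ι'))))
  have h2 : fromBlocks (a ⊗ₖ a') (b ⊗ₖ b') (b ⊗ₖ b')ᴴ (e ⊗ₖ e') =
      (fromBlocks a b bᴴ e ⊗ₖ fromBlocks a' b' b'ᴴ e').submatrix
        (Sum.elim (fun p : ι × ι' => ((Sum.inl p.1 : ι ⊕ ι), (Sum.inl p.2 : ι' ⊕ ι')))
          (fun p : ι × ι' => ((Sum.inr p.1 : ι ⊕ ι), (Sum.inr p.2 : ι' ⊕ ι'))))
        (Sum.elim (fun p : ι × ι' => ((Sum.inl p.1 : ι ⊕ ι), (Sum.inl p.2 : ι' ⊕ ι')))
          (fun p : ι × ι' => ((Sum.inr p.1 : ι ⊕ ι), (Sum.inr p.2 : ι' ⊕ ι')))) := by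
    ext i j
    rcases i with i | i <;> rcases j with j | j <;>
      simp [kroneckerMap_apply, conjTranspose_apply]
  rw [h2]
  exact h1

/-- transposed and swapped block matrix -/
private theorem weak_swap {ι : Type} [Fintype ι] [DecidableEq ι] {a z e : Matrix ι ι ℂ}
    (h : (fromBlocks a zᵀ zᵀᴴ e).PosSemidef) : (fromBlocks eᵀ z zᴴ aᵀ).PosSemidef := by
  have h1 := h.transpose.submatrix Sum.swap
  rw [fromBlocks_transpose, fromBlocks_submatrix_sum_swap_sum_swap] at h1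
  have h2 : zᵀᴴᵀ = zᴴ := by
    ext i j
    simp [conjTranspose_apply]
  rw [h2, transpose_transpose] at h1
  exact h1

private theorem weak_scal {I J : Type} [Fintype I] [Fintype J] (A : I → J → Prop)
    [∀ i j, Decidable (A i j)] (f : I → ℂ) (g : J → ℂ) (a b : ℂ) :
    ∑ j, (a - ∑ i, if A i j then 0 else f i) * g j + ∑ i, f i * (b - ∑ j, if A i j then g j else 0)
      = a * b - (a - ∑ i, f i) * (b - ∑ j, g j) := by
  have key : ∑ j, (∑ i, if A i j then 0 else f i) * g j + ∑ i, f i * (∑ j, if A i j then g j else 0)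
      = (∑ i, f i) * (∑ j, g j) := by
    have h1 : ∑ j, (∑ i, if A i j then 0 else f i) * g j
        = ∑ i, ∑ j, (if A i j then 0 else f i) * g j := by
      simp only [Finset.sum_mul]
      exact Finset.sum_comm
    rw [h1, ← Finset.sum_add_distrib, Finset.sum_mul]
    apply Finset.sum_congr rfl
    intro i _
    rw [Finset.mul_sum, Finset.mul_sum, ← Finset.sum_add_distrib]
    apply Finset.sum_congr rfl
    intro j _
    split_ifs <;> ring
  have h2 : ∑ j, (a - ∑ i, if A i j then 0 else f i) * g j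
      = a * ∑ j, g j - ∑ j, (∑ i, if A i j then 0 else f i) * g j := by
    rw [Finset.mul_sum, ← Finset.sum_sub_distrib]
    apply Finset.sum_congr rfl
    intro j _
    ring
  have h3 : ∑ i, f i * (b - ∑ j, if A i j then g j else 0)
      = (∑ i, f i) * b - ∑ i, f i * (∑ j, if A i j then g j else 0) := by
    rw [Finset.sum_mul, ← Finset.sum_sub_distrib]
    apply Finset.sum_congr rfl
    intro i _
    ring
  rw [h2, h3]
  linear_combination -key

/-- the sum of the diagonal blocks -/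
private theorem weak_diag {I J ι ι' : Type} [Fintype I] [Fintype J] [Fintype ι] [DecidableEq ι]
    [Fintype ι'] [DecidableEq ι'] (A : I → J → Prop) [∀ i j, Decidable (A i j)]
    (c : I → Matrix ι ι ℂ) (D : J → Matrix ι' ι' ℂ) :
    ∑ j, (1 - ∑ i, if A i j then 0 else c i) ⊗ₖ (D j)
      + ∑ i, (c i) ⊗ₖ (1 - ∑ j, if A i j then D j else 0)
      = 1 - (1 - ∑ i, c i) ⊗ₖ (1 - ∑ j, D j) := by
  ext ⟨p, q⟩ ⟨p', q'⟩
  have h := weak_scal A (fun i => c i p p') (fun j => D j q q') ((1 : Matrix ι ι ℂ) p p')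
    ((1 : Matrix ι' ι' ℂ) q q')
  have h1 : (1 : Matrix (ι × ι') (ι × ι') ℂ) (p, q) (p', q')
      = (1 : Matrix ι ι ℂ) p p' * (1 : Matrix ι' ι' ℂ) q q' := by
    rw [← one_kronecker_one (m := ι) (n := ι'), kroneckerMap_apply]
  simp only [Matrix.add_apply, Matrix.sub_apply, Matrix.sum_apply, kroneckerMap_apply, h1]
  rw [← h]
  congr 1
  · apply Finset.sum_congr rfl
    intro j _
    congr 2
    apply Finset.sum_congr rfl
    intro i _
    split_ifs <;> rfl
  · apply Finset.sum_congr rfl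
    intro i _
    congr 2
    apply Finset.sum_congr rfl
    intro j _
    split_ifs <;> rfl

private theorem weak_norm {κ : Type} [Fintype κ] [DecidableEq κ] {X W Y : Matrix κ κ ℂ}
    (h : (fromBlocks X W Wᴴ Y).PosSemidef) (hX : (1 - X).PosSemidef) (hY : (1 - Y).PosSemidef) :
    ‖W‖ ≤ 1 := by
  have key : ∀ v : κ → ℂ, star (W *ᵥ v) ⬝ᵥ (W *ᵥ v) ≤ star v ⬝ᵥ v := by
    intro v
    set u : κ → ℂ := W *ᵥ v with hu
    have h1 := h.dotProduct_mulVec_nonneg (Sum.elim (-u) v)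
    have h2 := hX.dotProduct_mulVec_nonneg u
    have h3 := hY.dotProduct_mulVec_nonneg v
    rw [fromBlocks_mulVec] at h1
    have e1 : (Sum.elim (-u) v ∘ Sum.inl : κ → ℂ) = -u := rfl
    have e2 : (Sum.elim (-u) v ∘ Sum.inr : κ → ℂ) = v := rfl
    rw [e1, e2] at h1
    have e3 : star (Sum.elim (-u) v) = Sum.elim (star (-u)) (star v) := by
      ext i
      rcases i with i | i <;> rfl
    rw [e3, sumElim_dotProduct_sumElim] at h1
    have e4 : star v ⬝ᵥ (Wᴴ *ᵥ u) = star u ⬝ᵥ u := by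
      rw [hu, dotProduct_mulVec, star_mulVec]
    rw [sub_mulVec, one_mulVec, dotProduct_sub] at h2 h3
    have e5 : star (-u) ⬝ᵥ (X *ᵥ -u + W *ᵥ v) + star v ⬝ᵥ (Wᴴ *ᵥ -u + Y *ᵥ v)
        = star u ⬝ᵥ (X *ᵥ u) - star u ⬝ᵥ u - star u ⬝ᵥ u + star v ⬝ᵥ (Y *ᵥ v) := by
      rw [mulVec_neg, mulVec_neg, dotProduct_add, dotProduct_add, dotProduct_neg, dotProduct_neg,
        e4, star_neg, neg_dotProduct, neg_dotProduct, ← hu]
      ring
    rw [e5] at h1
    have h4 : 0 ≤ star v ⬝ᵥ v - star u ⬝ᵥ u := by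
      have h5 := add_nonneg (add_nonneg h1 h2) h3
      have h6 : star u ⬝ᵥ (X *ᵥ u) - star u ⬝ᵥ u - star u ⬝ᵥ u + star v ⬝ᵥ (Y *ᵥ v)
          + (star u ⬝ᵥ u - star u ⬝ᵥ (X *ᵥ u)) + (star v ⬝ᵥ v - star v ⬝ᵥ (Y *ᵥ v))
          = star v ⬝ᵥ v - star u ⬝ᵥ u := by ring
      rwa [h6] at h5
    exact sub_nonneg.1 h4
  rw [l2_opNorm_def]
  refine ContinuousLinearMap.opNorm_le_bound _ zero_le_one fun x => ?_
  rw [one_mul]
  have hsq : ∀ y : EuclideanSpace ℂ κ, ((‖y‖ ^ 2 : ℝ) : ℂ) = star (y.ofLp) ⬝ᵥ y.ofLp := by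
    intro y
    rw [EuclideanSpace.norm_sq_eq, dotProduct]
    push_cast
    apply Finset.sum_congr rfl
    intro i _
    exact (Complex.conj_mul' (y.ofLp i)).symm
  have h1 := key x.ofLp
  have h2 : ((toEuclideanLin.trans LinearMap.toContinuousLinearMap W) x).ofLp = W *ᵥ x.ofLp := rfl
  rw [← h2, ← hsq, ← hsq] at h1
  have h3 := Complex.real_le_real.1 h1
  exact le_of_sq_le_sq h3 (norm_nonneg _)

private theorem weak_filt {I M : Type} [Fintype I] [AddCommMonoid M] (p q : I → Prop)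
    [DecidablePred p] {_hq : DecidablePred q} (h : ∀ i, q i ↔ ¬ p i) (c : I → M) :
    ∑ i ∈ Finset.univ.filter q, c i = ∑ i, if p i then 0 else c i := by
  rw [Finset.sum_filter]
  apply Finset.sum_congr rfl
  intro i _
  by_cases hp : p i
  · rw [if_pos hp, if_neg (fun hq => (h i).1 hq hp)]
  · rw [if_neg hp, if_pos ((h i).2 hp)]

private theorem weak_filt' {I M : Type} [Fintype I] [AddCommMonoid M] (p q : I → Prop)
    [DecidablePred p] {_hq : DecidablePred q} (h : ∀ i, q i ↔ p i) (c : I → M) :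
    ∑ i ∈ Finset.univ.filter q, c i = ∑ i, if p i then c i else 0 := by
  rw [Finset.sum_filter]
  apply Finset.sum_congr rfl
  intro i _
  by_cases hp : p i
  · rw [if_pos hp, if_pos ((h i).2 hp)]
  · rw [if_neg hp, if_neg (fun hq => hp ((h i).1 hq))]

private theorem weak_tr {I ι : Type} [Fintype I] [Fintype ι] [DecidableEq ι] (p : I → Prop)
    [DecidablePred p] (c : I → Matrix ι ι ℂ) :
    (1 - ∑ i, if p i then c i else 0)ᵀ = 1 - ∑ i, if p i then (c i)ᵀ else 0 := by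
  rw [transpose_sub, transpose_one, transpose_sum]
  congr 1
  apply Finset.sum_congr rfl
  intro i _
  by_cases hp : p i
  · rw [if_pos hp, if_pos hp]
  · rw [if_neg hp, if_neg hp, transpose_zero]

private theorem weak_sumBlocks {K ι : Type} [Fintype K] (a b c d : K → Matrix ι ι ℂ) :
    ∑ k, fromBlocks (a k) (b k) (c k) (d k)
      = fromBlocks (∑ k, a k) (∑ k, b k) (∑ k, c k) (∑ k, d k) := by
  ext i j
  rcases i with i | i <;> rcases j with j | j <;> simp [Matrix.sum_apply]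

/-- R4 weak duality -/
theorem weak {I J : Type} [Fintype I] [Fintype J] (A : I → J → Prop) {ι ι' : Type}
    [Fintype ι] [DecidableEq ι] [Fintype ι'] [DecidableEq ι']
    (Z : J ⊕ I → Matrix ι ι ℂ) (z : J ⊕ I → Matrix ι' ι' ℂ)
    (hZ : Dom A Z) (hz : Dom (fun i j => ¬ A i j) (fun k => (z k)ᵀ)) :
    ‖pair Z z‖ ≤ 1 := by
  classical
  obtain ⟨c, d, hc, hd, hC, hD, hj, hi⟩ := hZ
  obtain ⟨c', d', hc', hd', hC', hD', hj', hi'⟩ := hz
  have hj1 : ∀ j, (fromBlocks ((1 - ∑ i, if A i j then 0 else c i) ⊗ₖ (d' j)ᵀ)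
      (Z (Sum.inl j) ⊗ₖ z (Sum.inl j)) (Z (Sum.inl j) ⊗ₖ z (Sum.inl j))ᴴ
      (d j ⊗ₖ (1 - ∑ i, if A i j then (c' i)ᵀ else 0))).PosSemidef := by
    intro j
    have h0 := hj j
    have h0' := hj' j
    rw [weak_filt (fun i => A i j) _ (fun i => Iff.rfl) c] at h0
    rw [weak_filt' (fun i => A i j) _ (fun i => not_not) c'] at h0'
    have h1 := weak_kr h0 (weak_swap h0')
    rw [weak_tr (fun i => A i j)] at h1
    exact h1
  have hi1 : ∀ i, (fromBlocks (c i ⊗ₖ (1 - ∑ j, if A i j then (d' j)ᵀ else 0))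
      (Z (Sum.inr i) ⊗ₖ z (Sum.inr i)) (Z (Sum.inr i) ⊗ₖ z (Sum.inr i))ᴴ
      ((1 - ∑ j, if A i j then 0 else d j) ⊗ₖ (c' i)ᵀ)).PosSemidef := by
    intro i
    have h0 := hi i
    have h0' := hi' i
    rw [weak_filt (fun j => A i j) _ (fun j => Iff.rfl) d] at h0
    rw [weak_filt' (fun j => A i j) _ (fun j => not_not) d'] at h0'
    have h1 := weak_kr h0 (weak_swap h0')
    rw [weak_tr (fun j => A i j)] at h1
    exact h1
  have hS := (posSemidef_sum Finset.univ fun j _ => hj1 j).add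
    (posSemidef_sum Finset.univ fun i _ => hi1 i)
  rw [weak_sumBlocks, weak_sumBlocks, fromBlocks_add,
    weak_diag A c (fun j => (d' j)ᵀ)] at hS
  have hY : ∑ j, d j ⊗ₖ (1 - ∑ i, if A i j then (c' i)ᵀ else 0)
      + ∑ i, (1 - ∑ j, if A i j then 0 else d j) ⊗ₖ (c' i)ᵀ
      = 1 - (1 - ∑ j, d j) ⊗ₖ (1 - ∑ i, (c' i)ᵀ) := by
    rw [add_comm]
    exact weak_diag (fun j i => A i j) d (fun i => (c' i)ᵀ)
  have hW : ∑ j, Z (Sum.inl j) ⊗ₖ z (Sum.inl j) + ∑ i, Z (Sum.inr i) ⊗ₖ z (Sum.inr i)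
      = pair Z z := by
    unfold pair
    rw [Fintype.sum_sum_type]
  have hW' : ∑ j, (Z (Sum.inl j) ⊗ₖ z (Sum.inl j))ᴴ + ∑ i, (Z (Sum.inr i) ⊗ₖ z (Sum.inr i))ᴴ
      = (pair Z z)ᴴ := by
    rw [← hW, conjTranspose_add, conjTranspose_sum, conjTranspose_sum]
  rw [hY, hW, hW'] at hS
  refine weak_norm hS ?_ ?_
  · rw [sub_sub_cancel]
    refine hC.kronecker ?_
    have h1 := hD'.transpose
    rwa [transpose_sub, transpose_one, transpose_sum] at h1
  · rw [sub_sub_cancel]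
    refine hD.kronecker ?_
    have h1 := hC'.transpose
    rwa [transpose_sub, transpose_one, transpose_sum] at h1

end Pool.Agent.H33.OS
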